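import Mathlib

/-!
The Lusin-Novikov theorem: a Borel countable-to-one map between standard Borel spaces is
injective on each piece of some countable Borel cover of its domain.  The proof uses only the
Lusin separation theorem and a Cantor scheme.
-/

open Set MeasureTheory Topology Filter TopologicalSpace

namespace Pool.Agent.Lib.MP_4ec5c8_lc

lemma analytic_inter {Y : Type*} [TopologicalSpace Y] [T2Space Y] {s t : Set Y}
    (hs : AnalyticSet s) (ht : AnalyticSet t) : AnalyticSet (s ∩ t) := by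
  rw [inter_eq_iInter]
  refine AnalyticSet.iInter fun b => ?_
  cases b <;> simpa

section Topological

variable {Z X : Type*}

/-- `A` is covered by countably many Borel sets on which `f` is injective. -/
def Small [MeasurableSpace Z] (f : Z → X) (A : Set Z) : Prop :=
  ∃ 𝓑 : Set (Set Z), 𝓑.Countable ∧ (∀ B ∈ 𝓑, MeasurableSet B ∧ InjOn f B) ∧ A ⊆ ⋃₀ 𝓑

lemma Small.mono [MeasurableSpace Z] {f : Z → X} {A A' : Set Z} (h : Small f A) (hA : A' ⊆ A) :
    Small f A' := by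
  obtain ⟨𝓑, h1, h2, h3⟩ := h
  exact ⟨𝓑, h1, h2, hA.trans h3⟩

lemma small_empty [MeasurableSpace Z] (f : Z → X) : Small f ∅ :=
  ⟨∅, countable_empty, by simp, by simp⟩

lemma Small.sUnion [MeasurableSpace Z] {f : Z → X} {𝓐 : Set (Set Z)} (hc : 𝓐.Countable)
    (h : ∀ A ∈ 𝓐, Small f A) : Small f (⋃₀ 𝓐) := by
  choose! 𝓑 h1 h2 h3 using h
  refine ⟨⋃ A ∈ 𝓐, 𝓑 A, hc.biUnion h1, ?_, ?_⟩
  · intro B hB
    simp only [mem_iUnion] at hB
    obtain ⟨A, hA, hB⟩ := hB
    exact h2 A hA B hB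
  · rintro z ⟨A, hA, hz⟩
    obtain ⟨B, hB, hzB⟩ := h3 A hA hz
    exact ⟨B, mem_biUnion hA hB, hzB⟩

lemma Small.union [MeasurableSpace Z] {f : Z → X} {A A' : Set Z} (h : Small f A)
    (h' : Small f A') : Small f (A ∪ A') := by
  rw [← sUnion_pair]
  refine Small.sUnion (toFinite _).countable ?_
  rintro B (rfl | rfl)
  exacts [h, h']

/-- The family `𝒮` of subsets of `Z` is null if the common part of the images is covered by
countably many Borel sets over each of which some member of `𝒮` is small. -/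
def Null [MeasurableSpace Z] [MeasurableSpace X] (f : Z → X) (𝒮 : Set (Set Z)) : Prop :=
  ∃ 𝓑 : Set (Set X), 𝓑.Countable ∧
    (∀ B ∈ 𝓑, MeasurableSet B ∧ ∃ U ∈ 𝒮, Small f (U ∩ f ⁻¹' B)) ∧ (⋂ U ∈ 𝒮, f '' U) ⊆ ⋃₀ 𝓑

variable [MetricSpace Z] [CompleteSpace Z] [SecondCountableTopology Z] [MeasurableSpace Z]
  [BorelSpace Z] [TopologicalSpace X] [PolishSpace X] [MeasurableSpace X] [BorelSpace X]
  {f : Z → X}

lemma exists_injOn_superset (hf : Continuous f) {A : Set Z} (hA : AnalyticSet A)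
    (hinj : InjOn f A) : ∃ B, MeasurableSet B ∧ InjOn f B ∧ A ⊆ B := by
  obtain ⟨b, hbc, -, hb⟩ := exists_countable_basis Z
  have hsep : ∀ V ∈ b, ∀ V' ∈ b, Disjoint V V' →
      ∃ C, f '' (A ∩ V) ⊆ C ∧ Disjoint (f '' (A ∩ V')) C ∧ MeasurableSet C := by
    intro V hV V' hV' hd
    refine AnalyticSet.measurablySeparable
      ((analytic_inter hA (hb.isOpen hV).measurableSet.analyticSet).image_of_continuous hf)
      ((analytic_inter hA (hb.isOpen hV').measurableSet.analyticSet).image_of_continuous hf) ?_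
    rw [Set.disjoint_left]
    rintro _ ⟨z, ⟨hzA, hzV⟩, rfl⟩ ⟨z', ⟨hz'A, hz'V⟩, h⟩
    have := hinj hz'A hzA h
    subst this
    exact Set.disjoint_left.1 hd hzV hz'V
  choose! C h1 h2 h3 using hsep
  refine ⟨⋂ V ∈ b, ⋂ V' ∈ b, ⋂ (_ : Disjoint V V'),
    ((Vᶜ ∪ f ⁻¹' (C V V')) ∩ (V'ᶜ ∪ (f ⁻¹' (C V V'))ᶜ)), ?_, ?_, ?_⟩
  · refine MeasurableSet.biInter hbc fun V hV => MeasurableSet.biInter hbc fun V' hV' =>
      MeasurableSet.iInter fun hd => ?_
    have hC : MeasurableSet (f ⁻¹' (C V V')) := hf.measurable (h3 V hV V' hV' hd)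
    exact ((hb.isOpen hV).measurableSet.compl.union hC).inter
      ((hb.isOpen hV').measurableSet.compl.union hC.compl)
  · intro z hz z' hz' h
    by_contra hne
    obtain ⟨u, v, hu, hv, hzu, hzv, huv⟩ := t2_separation hne
    obtain ⟨V, hV, hzV, hVu⟩ := hb.exists_subset_of_mem_open hzu hu
    obtain ⟨V', hV', hzV', hVv⟩ := hb.exists_subset_of_mem_open hzv hv
    have hd : Disjoint V V' := huv.mono hVu hVv
    simp only [mem_iInter] at hz hz'
    have a1 := (hz V hV V' hV' hd).1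
    have a2 := (hz' V hV V' hV' hd).2
    simp only [mem_union, mem_compl_iff, mem_preimage, hzV, hzV', not_true, false_or] at a1 a2
    exact a2 (h ▸ a1)
  · intro z hz
    simp only [mem_iInter]
    intro V hV V' hV' hd
    constructor
    · by_cases hzV : z ∈ V
      · exact Or.inr (h1 V hV V' hV' hd ⟨z, ⟨hz, hzV⟩, rfl⟩)
      · exact Or.inl hzV
    · by_cases hzV : z ∈ V'
      · exact Or.inr (Set.disjoint_left.1 (h2 V hV V' hV' hd) ⟨z, ⟨hz, hzV⟩, rfl⟩)
      · exact Or.inl hzV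

lemma split_one (hf : Continuous f) {𝒮 : Set (Set Z)} (hc : 𝒮.Countable)
    (ho : ∀ W ∈ 𝒮, IsOpen W) {U : Set Z} (hU : IsOpen U) {ε : ℝ} (hε : 0 < ε)
    (hn : ¬ Null f (insert U 𝒮)) :
    ∃ V V' : Set Z, IsOpen V ∧ IsOpen V' ∧ Disjoint V V' ∧ closure V ⊆ U ∧ closure V' ⊆ U ∧
      (∀ a ∈ V, ∀ a' ∈ V, dist a a' ≤ ε) ∧ (∀ a ∈ V', ∀ a' ∈ V', dist a a' ≤ ε) ∧
      ¬ Null f (insert V (insert V' 𝒮)) := by
  by_contra hcon
  apply hn
  obtain ⟨b, hbc, -, hb⟩ := exists_countable_basis Z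
  let T : Set (Set Z × Set Z) := {t | t.1 ∈ b ∧ t.2 ∈ b ∧ Disjoint t.1 t.2 ∧ closure t.1 ⊆ U ∧
    closure t.2 ⊆ U ∧ (∀ a ∈ t.1, ∀ a' ∈ t.1, dist a a' ≤ ε) ∧
    (∀ a ∈ t.2, ∀ a' ∈ t.2, dist a a' ≤ ε)}
  have hTc : T.Countable := (hbc.prod hbc).mono fun t ht => mem_prod.2 ⟨ht.1, ht.2.1⟩
  have hT : ∀ t ∈ T, Null f (insert t.1 (insert t.2 𝒮)) := by
    rintro t ⟨a1, a2, a3, a4, a5, a6, a7⟩
    by_contra h
    exact hcon ⟨t.1, t.2, hb.isOpen a1, hb.isOpen a2, a3, a4, a5, a6, a7, h⟩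
  choose! 𝓑 g1 g2 g3 using hT
  let 𝓐 : Set (Set X) := ⋃ t ∈ T, 𝓑 t
  have h𝓐c : 𝓐.Countable := hTc.biUnion g1
  have h𝓐m : ∀ B ∈ 𝓐, MeasurableSet B := by
    intro B hB
    simp only [𝓐, mem_iUnion] at hB
    obtain ⟨t, ht, hB⟩ := hB
    exact (g2 t ht B hB).1
  let 𝓒 : Set (Set X) := {B | B ∈ 𝓐 ∧ ∃ W ∈ 𝒮, Small f (W ∩ f ⁻¹' B)}
  have h𝓒c : 𝓒.Countable := h𝓐c.mono fun B hB => hB.1
  have hBs : MeasurableSet (⋃₀ 𝓒) := MeasurableSet.sUnion h𝓒c fun B hB => h𝓐m B hB.1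
  let 𝓝' : Set (Set Z) := {N | (∃ V ∈ b, ∃ B ∈ 𝓐, N = V ∩ f ⁻¹' B) ∧ Small f N}
  have h𝓝c : 𝓝'.Countable := by
    refine ((hbc.prod h𝓐c).image (fun p => p.1 ∩ f ⁻¹' p.2)).mono ?_
    rintro N ⟨⟨V, hV, B, hB, rfl⟩, -⟩
    exact ⟨(V, B), ⟨hV, hB⟩, rfl⟩
  have hNm : MeasurableSet (⋃₀ 𝓝') := by
    refine MeasurableSet.sUnion h𝓝c ?_
    rintro N ⟨⟨V, hV, B, hB, rfl⟩, -⟩
    exact (hb.isOpen hV).measurableSet.inter (hf.measurable (h𝓐m B hB))
  have hNs : Small f (⋃₀ 𝓝') := Small.sUnion h𝓝c fun N hN => hN.2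
  set A : Set X := ⋂ W ∈ insert U 𝒮, f '' W with hAdef
  have hA : AnalyticSet A := by
    have : Countable (insert U 𝒮 : Set (Set Z)) := (hc.insert U).to_subtype
    have : Nonempty (insert U 𝒮 : Set (Set Z)) := ⟨⟨U, mem_insert _ _⟩⟩
    rw [hAdef, biInter_eq_iInter]
    refine AnalyticSet.iInter fun W => ?_
    have hW : IsOpen (W : Set Z) := by
      rcases W with ⟨W, rfl | hW⟩
      exacts [hU, ho W hW]
    exact hW.measurableSet.analyticSet.image_of_continuous hf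
  have hA' : AnalyticSet (A ∩ (⋃₀ 𝓒)ᶜ) := analytic_inter hA hBs.compl.analyticSet
  let D : Set Z := (U ∩ (⋃₀ 𝓝')ᶜ) ∩ f ⁻¹' (A ∩ (⋃₀ 𝓒)ᶜ)
  have hD : AnalyticSet D :=
    analytic_inter (hU.measurableSet.inter hNm.compl).analyticSet (hA'.preimage hf)
  have hDinj : InjOn f D := by
    rintro z ⟨⟨hzU, hzN⟩, hzA, hzC⟩ z' ⟨⟨hz'U, hz'N⟩, -⟩ h
    by_contra hne
    obtain ⟨u, v, hu, hv, hzu, hzv, huv⟩ := t2_separation hne
    have small_nhd : ∀ (w : Z) (u : Set Z), IsOpen u → w ∈ u → w ∈ U →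
        ∃ V ∈ b, w ∈ V ∧ V ⊆ u ∧ closure V ⊆ U ∧ ∀ a ∈ V, ∀ a' ∈ V, dist a a' ≤ ε := by
      intro w u hu hwu hwU
      obtain ⟨c, hc1, hc2, hc3⟩ := exists_mem_nhds_isClosed_subset (hU.mem_nhds hwU)
      have : u ∩ Metric.ball w (ε / 2) ∩ c ∈ 𝓝 w :=
        inter_mem (inter_mem (hu.mem_nhds hwu) (Metric.ball_mem_nhds w (half_pos hε))) hc1
      obtain ⟨V, hV, hwV, hVs⟩ := hb.mem_nhds_iff.1 this
      refine ⟨V, hV, hwV, fun a ha => (hVs ha).1.1, ?_, ?_⟩
      · exact (closure_minimal (fun a ha => (hVs ha).2) hc2).trans hc3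
      · intro a ha a' ha'
        have e1 := Metric.mem_ball.1 (hVs ha).1.2
        have e2 := Metric.mem_ball.1 (hVs ha').1.2
        have := dist_triangle_right a a' w
        linarith
    obtain ⟨V, hV, hzV, hVu, hVU, hVd⟩ := small_nhd z u hu hzu hzU
    obtain ⟨V', hV', hzV', hVv, hVU', hVd'⟩ := small_nhd z' v hv hzv hz'U
    have ht : (V, V') ∈ T := ⟨hV, hV', huv.mono hVu hVv, hVU, hVU', hVd, hVd'⟩
    have hx : f z ∈ ⋂ W ∈ insert V (insert V' 𝒮), f '' W := by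
      simp only [mem_iInter]
      rintro W (rfl | rfl | hW)
      · exact ⟨z, hzV, rfl⟩
      · exact ⟨z', hzV', h.symm⟩
      · exact mem_iInter₂.1 hzA W (mem_insert_of_mem _ hW)
    obtain ⟨B, hB, hxB⟩ := g3 _ ht hx
    have hBA : B ∈ 𝓐 := mem_biUnion ht hB
    obtain ⟨-, W, hW, hWs⟩ := g2 _ ht B hB
    rcases hW with rfl | rfl | hW
    · exact hzN ⟨_, ⟨⟨_, hV, B, hBA, rfl⟩, hWs⟩, hzV, hxB⟩
    · exact hz'N ⟨_, ⟨⟨_, hV', B, hBA, rfl⟩, hWs⟩, hzV', by simpa [← h] using hxB⟩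
    · exact hzC ⟨B, ⟨hBA, W, hW, hWs⟩, hxB⟩
  obtain ⟨D', hD'm, hD'i, hDD'⟩ := exists_injOn_superset hf hD hDinj
  have hN's : Small f (⋃₀ 𝓝' ∪ D') :=
    hNs.union ⟨{D'}, countable_singleton _, by simpa using ⟨hD'm, hD'i⟩, by simp⟩
  have hN'm : MeasurableSet (⋃₀ 𝓝' ∪ D') := hNm.union hD'm
  obtain ⟨B', hB1, hB2, hB3⟩ := AnalyticSet.measurablySeparable hA'
    (((hU.measurableSet.inter hN'm.compl).analyticSet).image_of_continuous hf) (by
      rw [Set.disjoint_left]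
      rintro _ hx ⟨z, ⟨hzU, hzN⟩, rfl⟩
      simp only [mem_compl_iff, mem_union, not_or] at hzN
      exact hzN.2 (hDD' ⟨⟨hzU, hzN.1⟩, hx⟩))
  refine ⟨insert B' 𝓒, h𝓒c.insert _, ?_, ?_⟩
  · rintro B (rfl | hB)
    · refine ⟨hB3, U, mem_insert _ _, hN's.mono ?_⟩
      rintro z ⟨hzU, hzB⟩
      by_contra hz
      exact Set.disjoint_left.1 hB2 ⟨z, ⟨hzU, hz⟩, rfl⟩ hzB
    · obtain ⟨h1, W, hW, hWs⟩ := hB
      exact ⟨h𝓐m B h1, W, mem_insert_of_mem _ hW, hWs⟩
  · intro x hx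
    by_cases hxC : x ∈ ⋃₀ 𝓒
    · obtain ⟨B, hB, hxB⟩ := hxC
      exact ⟨B, mem_insert_of_mem _ hB, hxB⟩
    · exact ⟨B', mem_insert _ _, hB1 ⟨hx, hxC⟩⟩

lemma split_all (hf : Continuous f) {ι : Type*} {I : Set ι} (hI : I.Finite) {U : ι → Set Z}
    (hU : ∀ i, IsOpen (U i)) {ε : ℝ} (hε : 0 < ε) (hn : ¬ Null f (U '' I)) :
    ∃ V : ι → Bool → Set Z, (∀ i b, IsOpen (V i b)) ∧
      (∀ i ∈ I, Disjoint (V i true) (V i false) ∧ ∀ b, closure (V i b) ⊆ U i ∧
        ∀ a ∈ V i b, ∀ a' ∈ V i b, dist a a' ≤ ε) ∧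
      ¬ Null f {W | ∃ i ∈ I, ∃ b, W = V i b} := by
  classical
  suffices H : ∀ T : Set ι, T.Finite → T ⊆ I → ∃ V : ι → Bool → Set Z, (∀ i b, IsOpen (V i b)) ∧
      (∀ i ∈ T, Disjoint (V i true) (V i false) ∧ ∀ b, closure (V i b) ⊆ U i ∧
        ∀ a ∈ V i b, ∀ a' ∈ V i b, dist a a' ≤ ε) ∧ (∀ i ∉ T, ∀ b, V i b = U i) ∧
      ¬ Null f {W | ∃ i ∈ I, ∃ b, W = V i b} by
    obtain ⟨V, h1, h2, -, h4⟩ := H I hI Subset.rfl
    exact ⟨V, h1, h2, h4⟩
  intro T hT
  induction T, hT using Set.Finite.induction_on with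
  | empty =>
    intro _
    refine ⟨fun i _ => U i, fun i _ => hU i, by simp, by simp, ?_⟩
    convert hn using 2
    ext W
    simp [eq_comm]
  | @insert t T ht hT ih =>
    intro hsub
    obtain ⟨V, h1, h2, h3, h4⟩ := ih ((subset_insert _ _).trans hsub)
    have htI : t ∈ I := hsub (mem_insert _ _)
    let 𝒮 : Set (Set Z) := {W | ∃ i ∈ I, i ≠ t ∧ ∃ b, W = V i b}
    have hSc : 𝒮.Countable := by
      refine ((hI.countable.prod (countable_univ (α := Bool))).image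
        (fun p => V p.1 p.2)).mono ?_
      rintro W ⟨i, hi, -, b, rfl⟩
      exact ⟨(i, b), ⟨hi, mem_univ _⟩, rfl⟩
    have hSo : ∀ W ∈ 𝒮, IsOpen W := by
      rintro W ⟨i, -, -, b, rfl⟩
      exact h1 i b
    have e : {W | ∃ i ∈ I, ∃ b, W = V i b} = insert (U t) 𝒮 := by
      ext W
      simp only [mem_ofPred_eq, mem_insert_iff, 𝒮]
      constructor
      · rintro ⟨i, hi, b, rfl⟩
        by_cases hit : i = t
        · subst hit
          exact Or.inl (h3 i ht b)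
        · exact Or.inr ⟨i, hi, hit, b, rfl⟩
      · rintro (rfl | ⟨i, hi, -, b, rfl⟩)
        · exact ⟨t, htI, true, (h3 t ht true).symm⟩
        · exact ⟨i, hi, b, rfl⟩
    rw [e] at h4
    obtain ⟨V₁, V₂, a1, a2, a3, a4, a5, a6, a7, a8⟩ := split_one hf hSc hSo (hU t) hε h4
    refine ⟨fun i b => if i = t then (bif b then V₁ else V₂) else V i b, ?_, ?_, ?_, ?_⟩
    · intro i b
      by_cases hit : i = t
      · cases b <;> simp [hit, a1, a2]
      · simp [hit, h1]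
    · rintro i hi
      by_cases hit : i = t
      · subst hit
        refine ⟨by simpa using a3, fun b => ?_⟩
        cases b
        · simpa using ⟨a5, a7⟩
        · simpa using ⟨a4, a6⟩
      · have hiT : i ∈ T := by simpa [hit] using hi
        simpa [hit] using h2 i hiT
    · intro i hi b
      simp only [mem_insert_iff, not_or] at hi
      simp [hi.1, h3 i hi.2 b]
    · convert a8 using 2
      ext W
      simp only [mem_ofPred_eq, mem_insert_iff, 𝒮]
      constructor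
      · rintro ⟨i, hi, b, rfl⟩
        by_cases hit : i = t
        · cases b <;> simp [hit]
        · exact Or.inr (Or.inr ⟨i, hi, hit, b, by simp [hit]⟩)
      · rintro (rfl | rfl | ⟨i, hi, hit, b, rfl⟩)
        · exact ⟨t, htI, true, by simp⟩
        · exact ⟨t, htI, false, by simp⟩
        · exact ⟨i, hi, b, by simp [hit]⟩

theorem small_univ (hf : Continuous f) (hfib : ∀ x, (f ⁻¹' {x}).Countable) :
    Small f univ := by
  by_contra hsm
  let L : ℕ → Set (List Bool) := fun n => {l | l.length = n}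
  have hL : ∀ n, (L n).Finite := fun n => List.finite_length_eq Bool n
  let St : ℕ → Type _ := fun n =>
    {U : List Bool → Set Z // (∀ l, IsOpen (U l)) ∧ ¬ Null f (U '' L n)}
  have h0 : ¬ Null f ((fun _ : List Bool => (univ : Set Z)) '' L 0) := by
    rintro ⟨𝓑, h1, h2, h3⟩
    apply hsm
    have hs : Small f (⋃₀ ((fun B => f ⁻¹' B) '' 𝓑)) := by
      refine Small.sUnion (h1.image _) ?_
      rintro _ ⟨B, hB, rfl⟩
      obtain ⟨-, U, ⟨l, -, rfl⟩, hU⟩ := h2 B hB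
      simpa using hU
    refine hs.mono fun z _ => ?_
    have : f z ∈ ⋂ U ∈ (fun _ : List Bool => (univ : Set Z)) '' L 0, f '' U := by
      simp only [mem_iInter]
      rintro U ⟨l, -, rfl⟩
      exact ⟨z, mem_univ _, rfl⟩
    obtain ⟨B, hB, hzB⟩ := h3 this
    exact ⟨_, ⟨B, hB, rfl⟩, hzB⟩
  have hstep : ∀ n (U : St n), ∃ U' : St (n + 1), ∀ l ∈ L n,
      Disjoint (U'.1 (true :: l)) (U'.1 (false :: l)) ∧ ∀ b, closure (U'.1 (b :: l)) ⊆ U.1 l ∧
        ∀ a ∈ U'.1 (b :: l), ∀ a' ∈ U'.1 (b :: l), dist a a' ≤ 1 / ((n : ℝ) + 1) := by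
    intro n U
    obtain ⟨V, h1, h2, h3⟩ := split_all hf (hL n) U.2.1
      (ε := 1 / ((n : ℝ) + 1)) (by positivity) U.2.2
    refine ⟨⟨fun l => match l with | [] => univ | b :: l => V l b, ?_, ?_⟩, h2⟩
    · rintro (_ | ⟨b, l⟩)
      exacts [isOpen_univ, h1 l b]
    · convert h3 using 2
      ext W
      simp only [mem_image, mem_ofPred_eq, L]
      constructor
      · rintro ⟨_ | ⟨b, l⟩, hl, rfl⟩
        · simp at hl
        · exact ⟨l, by simpa using hl, b, rfl⟩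
      · rintro ⟨l, hl, b, rfl⟩
        exact ⟨b :: l, by simp [hl], rfl⟩
  choose nxt hnxt using hstep
  let S : ∀ n, St n := fun n => Nat.rec ⟨fun _ => univ, fun _ => isOpen_univ, h0⟩ nxt n
  have hS : ∀ n, S (n + 1) = nxt n (S n) := fun n => rfl
  let A : List Bool → Set Z := fun l => (S l.length).1 l
  have hA : ∀ l : List Bool, Disjoint (A (true :: l)) (A (false :: l)) ∧
      ∀ b, closure (A (b :: l)) ⊆ A l ∧
        ∀ a ∈ A (b :: l), ∀ a' ∈ A (b :: l), dist a a' ≤ 1 / ((l.length : ℝ) + 1) :=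
    fun l => hnxt l.length (S l.length) l rfl
  have hx : ∀ n, ∃ x : X, ∀ l : List Bool, l.length = n → ∃ z ∈ A l, f z = x := by
    intro n
    by_contra hcon
    apply (S n).2.2
    refine ⟨∅, countable_empty, by simp, ?_⟩
    intro x hx
    exfalso
    refine hcon ⟨x, fun l hl => ?_⟩
    subst hl
    exact mem_iInter₂.1 hx _ ⟨l, rfl, rfl⟩
  choose x hx using hx
  have : Nonempty Z := ⟨(hx 0 [] rfl).choose⟩
  choose! z hz1 hz2 using hx
  have hdisj : CantorScheme.Disjoint A := by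
    intro l a b hab
    cases a <;> cases b
    · exact absurd rfl hab
    · exact (hA l).1.symm
    · exact (hA l).1
    · exact absurd rfl hab
  have hanti : CantorScheme.ClosureAntitone A := fun l a => ((hA l).2 a).1
  have hdist : ∀ (σ : ℕ → Bool) (n : ℕ), ∀ a ∈ A (PiNat.res σ (n + 1)),
      ∀ a' ∈ A (PiNat.res σ (n + 1)), dist a a' ≤ 1 / ((n : ℝ) + 1) := by
    intro σ n
    have := ((hA (PiNat.res σ n)).2 (σ n)).2
    rw [PiNat.res_length] at this
    exact this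
  have hdiam : CantorScheme.VanishingDiam A := by
    intro σ
    rw [← tendsto_add_atTop_iff_nat 1]
    have h1 : Tendsto (fun n : ℕ => ENNReal.ofReal (1 / ((n : ℝ) + 1))) atTop (𝓝 0) := by
      rw [← ENNReal.ofReal_zero]
      exact ENNReal.tendsto_ofReal tendsto_one_div_add_atTop_nhds_zero_nat
    refine tendsto_of_tendsto_of_tendsto_of_le_of_le tendsto_const_nhds h1 (fun _ => zero_le)
      fun n => ?_
    exact Metric.ediam_le_of_forall_dist_le (hdist σ n)
  have hne : ∀ l, (A l).Nonempty := fun l => ⟨_, hz1 l.length l rfl⟩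
  have hdom := hanti.map_of_vanishingDiam hdiam hne
  let ζ : (ℕ → Bool) → Z := fun σ => (CantorScheme.inducedMap A).2 ⟨σ, hdom ▸ mem_univ σ⟩
  have hζi : Function.Injective ζ := fun σ τ h => by
    have := hdisj.map_injective h
    exact congrArg Subtype.val this
  have hζ : ∀ σ, Tendsto (fun n => x (n + 1)) atTop (𝓝 (f (ζ σ))) := by
    intro σ
    have h1 : Tendsto (fun n => z (n + 1) (PiNat.res σ (n + 1))) atTop (𝓝 (ζ σ)) := by
      rw [tendsto_iff_dist_tendsto_zero]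
      refine squeeze_zero (fun _ => dist_nonneg) (fun n => ?_)
        tendsto_one_div_add_atTop_nhds_zero_nat
      exact hdist σ n _ (hz1 (n + 1) _ (PiNat.res_length σ (n + 1))) _
        (CantorScheme.map_mem (A := A) ⟨σ, hdom ▸ mem_univ σ⟩ (n + 1))
    refine ((hf.tendsto _).comp h1).congr fun n => ?_
    exact hz2 _ _ (PiNat.res_length σ _)
  have hc : Countable (ℕ → Bool) := by
    have := (hfib (f (ζ fun _ => true))).to_subtype
    refine Function.Injective.countable (β := f ⁻¹' {f (ζ fun _ => true)})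
      (f := fun σ => ⟨ζ σ, tendsto_nhds_unique (hζ σ) (hζ _)⟩) fun σ τ h => hζi ?_
    exact congrArg Subtype.val h
  obtain ⟨s, hs⟩ := exists_surjective_nat (ℕ → Bool)
  obtain ⟨k, hk⟩ := hs fun n => !(s n n)
  have := congrFun hk k
  simp at this

end Topological

/-- Lusin-Novikov for standard Borel spaces. -/
theorem lusin_novikov {Z X : Type*} [MeasurableSpace Z] [StandardBorelSpace Z]
    [MeasurableSpace X] [StandardBorelSpace X] {f : Z → X} (hf : Measurable f)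
    (hfib : ∀ x, (f ⁻¹' {x}).Countable) : Small f univ := by
  let := upgradeStandardBorel X
  obtain ⟨t, hb, hp⟩ := ‹StandardBorelSpace Z›.polish
  obtain ⟨t', hle, hc, hp'⟩ := hf.exists_continuous
  have hb' : @BorelSpace Z t' _ := by
    constructor
    rw [hb.measurable_eq, borel_eq_borel_of_le hp' hp hle]
  clear hb hp hle
  clear t
  let := TopologicalSpace.upgradeIsCompletelyMetrizable Z
  exact small_univ hc hfib

/-- A relation with countable Borel sections containing the diagonal is enumerated by a sequence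
of Borel maps. -/
theorem exists_enum {X : Type*} [MeasurableSpace X] [StandardBorelSpace X] {E : X → X → Prop}
    (hrefl : ∀ x, E x x) (hm : MeasurableSet {p : X × X | E p.1 p.2})
    (hc : ∀ x, {y | E x y}.Countable) :
    ∃ g : ℕ → X → X, (∀ m, Measurable (g m)) ∧ (∀ m x, E x (g m x)) ∧
      ∀ x y, E x y → ∃ m, g m x = y := by
  classical
  let Z := {p : X × X | E p.1 p.2}
  have : StandardBorelSpace Z := hm.standardBorel
  let f : Z → X := fun z => z.1.1
  have hf : Measurable f := measurable_fst.comp measurable_subtype_coe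
  have hfib : ∀ x, (f ⁻¹' {x}).Countable := by
    intro x
    refine countable_of_injective_of_countable_image (f := fun z : Z => z.1.2) ?_ ((hc x).mono ?_)
    · rintro ⟨⟨a, b⟩, _⟩ ha ⟨⟨a', b'⟩, _⟩ ha' h
      simp only [f, mem_preimage, mem_singleton_iff] at ha ha' h
      subst ha ha' h
      rfl
    · rintro _ ⟨⟨⟨a, b⟩, hab⟩, ha, rfl⟩
      simp only [f, mem_preimage, mem_singleton_iff] at ha
      subst ha
      exact hab
  obtain ⟨𝓑, h1, h2, h3⟩ := lusin_novikov hf hfib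
  obtain ⟨B, hB⟩ := (h1.insert ∅).exists_eq_range (insert_nonempty _ _)
  have hB2 : ∀ m, MeasurableSet (B m) ∧ InjOn f (B m) := by
    intro m
    have : B m ∈ insert ∅ 𝓑 := hB ▸ mem_range_self m
    rcases this with h | h
    · rw [h]; simp
    · exact h2 _ h
  let g : ℕ → X → X := fun m x => if h : x ∈ f '' B m then h.choose.1.2 else x
  have hg : ∀ m (z : Z), z ∈ B m → g m z.1.1 = z.1.2 := by
    intro m z hz
    have h : z.1.1 ∈ f '' B m := ⟨z, hz, rfl⟩
    simp only [g, dif_pos h]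
    rw [(hB2 m).2 h.choose_spec.1 hz h.choose_spec.2]
  refine ⟨g, fun m S hS => ?_, fun m x => ?_, fun x y hxy => ?_⟩
  · have e : g m ⁻¹' S = f '' (B m ∩ (fun z : Z => z.1.2) ⁻¹' S) ∪ ((f '' B m)ᶜ ∩ S) := by
      ext x
      by_cases h : x ∈ f '' B m
      · obtain ⟨z, hz, rfl⟩ := h
        have h' : f z ∈ f '' B m := ⟨z, hz, rfl⟩
        simp only [mem_preimage, mem_union, mem_inter_iff, mem_compl_iff, h', not_true,
          false_and, or_false]
        rw [show g m (f z) = z.1.2 from hg m z hz]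
        constructor
        · exact fun hs => ⟨z, ⟨hz, hs⟩, rfl⟩
        · rintro ⟨z', ⟨hz', hs⟩, h⟩
          rwa [(hB2 m).2 hz' hz h] at hs
      · have h' : x ∉ f '' (B m ∩ (fun z : Z => z.1.2) ⁻¹' S) :=
          fun h' => h (image_mono inter_subset_left h')
        have e : g m x = x := dif_neg h
        simp only [mem_preimage, e, mem_union, h', false_or, mem_inter_iff,
          mem_compl_iff, h, not_false_eq_true, true_and]
    rw [e]
    refine MeasurableSet.union ?_ (MeasurableSet.inter ?_ hS)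
    · exact ((hB2 m).1.inter ((measurable_snd.comp measurable_subtype_coe) hS)
        ).image_of_measurable_injOn hf ((hB2 m).2.mono inter_subset_left)
    · exact ((hB2 m).1.image_of_measurable_injOn hf (hB2 m).2).compl
  · by_cases h : x ∈ f '' B m
    · obtain ⟨z, hz, rfl⟩ := h
      rw [show g m (f z) = z.1.2 from hg m z hz]
      exact z.2
    · simp only [g, dif_neg h]
      exact hrefl x
  · obtain ⟨W, hW, hz⟩ := h3 (mem_univ (⟨(x, y), hxy⟩ : Z))
    have : W ∈ range B := hB ▸ mem_insert_of_mem _ hW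
    obtain ⟨m, rfl⟩ := this
    exact ⟨m, hg m _ hz⟩

end Pool.Agent.Lib.MP_4ec5c8_lc
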