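import Pool.Agent.Lib.MP_4ec5c8_lc.Defs
import Pool.Agent.Lib.MP_4ec5c8_lc.LusinNovikov

/-!
Collapse of the Fréchet amenability hierarchy.

Key step: an iterated limit `lim_i lim_j` of Borel probability assignments can be replaced by a
single limit.  For fixed `j` run `i` downwards from `j` and stop at `i` with probability
`p i j x`, where `p i j` is multiplicatively almost invariant along the first `i` Borel maps
enumerating the classes, is at most `2⁻ⁱ` at points where the `(i, j)`-th assignment is still far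
from its `limsup` behaviour, and equals `1` for all large `j`.
-/

open Set Filter Topology

namespace Pool.Agent.Lib.MP_4ec5c8_lc

lemma mem_fubini {e : ℕ × ℕ ≃ ℕ} {F : Filter ℕ} {G : ℕ → Filter ℕ} {A : Set ℕ} :
    A ∈ fubini e F G ↔ {i | {j | e (i, j) ∈ A} ∈ G i} ∈ F := Iff.rfl

lemma eventually_fubini {e : ℕ × ℕ ≃ ℕ} {F : Filter ℕ} {G : ℕ → Filter ℕ} {P : ℕ → Prop} :
    (∀ᶠ n in fubini e F G, P n) ↔ ∀ᶠ i in F, ∀ᶠ j in G i, P (e (i, j)) := Iff.rfl

/-- Mixture estimate in `ℓ¹`. -/
lemma mix_le {ι : Type*} {a b a' b' : ι → ℝ} (ha : ∀ z, 0 ≤ a z)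
    (hb' : ∀ z, 0 ≤ b' z) (sa : HasSum a 1) (sb : HasSum b 1)
    (sa' : HasSum a' 1) (sb' : HasSum b' 1) {p p' : ℝ} (hp' : 0 ≤ p') (hpp : p' ≤ p)
    (hp : p ≤ 1) :
    ∑' z, |(p * a z + (1 - p) * b z) - (p' * a' z + (1 - p') * b' z)| ≤
      p' * ∑' z, |a z - a' z| + 2 * (p - p') + (1 - p) * ∑' z, |b z - b' z| := by
  have s1 : Summable fun z => |a z - a' z| := (sa.summable.sub sa'.summable).abs
  have s2 : Summable fun z => |b z - b' z| := (sb.summable.sub sb'.summable).abs
  have s3 : Summable fun z => |(p * a z + (1 - p) * b z) - (p' * a' z + (1 - p') * b' z)| :=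
    (((sa.summable.mul_left p).add (sb.summable.mul_left (1 - p))).sub
      ((sa'.summable.mul_left p').add (sb'.summable.mul_left (1 - p')))).abs
  have h : HasSum (fun z => p' * |a z - a' z| + (p - p') * (a z + b' z) + (1 - p) * |b z - b' z|)
      (p' * ∑' z, |a z - a' z| + (p - p') * (1 + 1) + (1 - p) * ∑' z, |b z - b' z|) :=
    ((s1.hasSum.mul_left p').add ((sa.add sb').mul_left (p - p'))).add
      (s2.hasSum.mul_left (1 - p))
  refine (hasSum_le (fun z => ?_) s3.hasSum h).trans_eq (by ring)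
  have e : (p * a z + (1 - p) * b z) - (p' * a' z + (1 - p') * b' z) =
      p' * (a z - a' z) + (p - p') * (a z - b' z) + (1 - p) * (b z - b' z) := by ring
  rw [e]
  have h1 : |a z - b' z| ≤ a z + b' z := by
    rw [abs_le]; constructor <;> linarith [ha z, hb' z]
  calc |p' * (a z - a' z) + (p - p') * (a z - b' z) + (1 - p) * (b z - b' z)|
      ≤ |p' * (a z - a' z)| + |(p - p') * (a z - b' z)| + |(1 - p) * (b z - b' z)| :=
        abs_add_three _ _ _
    _ = p' * |a z - a' z| + (p - p') * |a z - b' z| + (1 - p) * |b z - b' z| := by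
        rw [abs_mul, abs_mul, abs_mul, abs_of_nonneg hp', abs_of_nonneg (sub_nonneg.2 hpp),
          abs_of_nonneg (sub_nonneg.2 hp)]
    _ ≤ _ := by
        have := mul_le_mul_of_nonneg_left h1 (sub_nonneg.2 hpp)
        linarith

/-- The stopping probabilities. -/
lemma exists_stop {X : Type*} [MeasurableSpace X] {M : Type} [Fintype M] [Nonempty M]
    {h : M → X → X} (hh : ∀ m, Measurable (h m)) {bad : ℕ → Set X}
    (hbad : ∀ j, MeasurableSet (bad j)) (hev : ∀ x, ∀ᶠ j in atTop, x ∉ bad j)
    {η : ℝ} (hη : 0 < η) (hη1 : η ≤ 1) :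
    ∃ p : ℕ → X → ℝ, (∀ j, Measurable (p j)) ∧ (∀ j x, 0 ≤ p j x ∧ p j x ≤ 1) ∧
      (∀ j x, x ∈ bad j → p j x ≤ η) ∧ (∀ j x m, p j x ≤ (1 + η) * p j (h m x)) ∧
      ∀ x, ∀ᶠ j in atTop, p j x = 1 := by
  classical
  let q : ℕ → ℕ → X → ℝ := fun j k => Nat.rec (fun _ => η)
    (fun _ r x => if x ∈ bad j then η else min 1 ((1 + η) * ⨅ m, r (h m x))) k
  have q0 : ∀ j x, q j 0 x = η := fun _ _ => rfl
  have qs : ∀ j k x, q j (k + 1) x =
      if x ∈ bad j then η else min 1 ((1 + η) * ⨅ m, q j k (h m x)) := fun _ _ _ => rfl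
  have bdd : ∀ r : M → ℝ, BddBelow (range r) := fun r => (finite_range r).bddBelow
  have qm : ∀ j k, Measurable (q j k) := by
    intro j k
    induction k with
    | zero => exact measurable_const
    | succ k ih =>
      exact Measurable.ite (hbad j) measurable_const (measurable_const.min
        (measurable_const.mul (Measurable.iInf fun m => ih.comp (hh m))))
  have qb : ∀ j k x, η ≤ q j k x ∧ q j k x ≤ 1 := by
    intro j k
    induction k with
    | zero => exact fun x => ⟨le_rfl, hη1⟩
    | succ k ih =>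
      intro x
      rw [qs]
      split_ifs
      · exact ⟨le_rfl, hη1⟩
      · refine ⟨le_min hη1 ?_, min_le_left _ _⟩
        have : η ≤ ⨅ m, q j k (h m x) := le_ciInf fun m => (ih _).1
        nlinarith
  have qmono : ∀ j k x, q j k x ≤ q j (k + 1) x := by
    intro j k
    induction k with
    | zero => exact fun x => (qb j 1 x).1
    | succ k ih =>
      intro x
      rw [qs, qs j (k + 1)]
      split_ifs
      · exact le_rfl
      · refine min_le_min le_rfl (mul_le_mul_of_nonneg_left ?_ (by linarith))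
        exact ciInf_mono (bdd _) fun m => ih _
  have qlip : ∀ j k x m, q j k x ≤ (1 + η) * q j k (h m x) := by
    intro j k x m
    have h1 := (qb j k (h m x)).1
    rcases k with _ | k
    · rw [q0, q0]; nlinarith
    · rw [qs]
      split_ifs
      · nlinarith
      · refine (min_le_right _ _).trans (mul_le_mul_of_nonneg_left ?_ (by linarith))
        exact (ciInf_le (bdd _) m).trans (qmono j k _)
  have qev : ∀ k x, ∀ᶠ j in atTop, min 1 ((1 + η) ^ k * η) ≤ q j k x := by
    intro k
    induction k with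
    | zero => exact fun x => Eventually.of_forall fun j => by simp [q0]
    | succ k ih =>
      intro x
      filter_upwards [hev x, eventually_all.2 fun m => ih (h m x)] with j h1 h2
      rw [qs, if_neg h1]
      have h3 : min 1 ((1 + η) ^ k * η) ≤ ⨅ m, q j k (h m x) := le_ciInf h2
      refine le_min (min_le_left _ _) (le_trans ?_ (mul_le_mul_of_nonneg_left h3 (by linarith)))
      rw [mul_min_of_nonneg _ _ (by linarith : (0 : ℝ) ≤ 1 + η)]
      exact min_le_min (by linarith) (le_of_eq (by ring))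
  obtain ⟨R, hR⟩ : ∃ R : ℕ, 1 ≤ (1 + η) ^ R * η := by
    obtain ⟨R, hR⟩ := pow_unbounded_of_one_lt (1 / η) (by linarith : 1 < 1 + η)
    exact ⟨R, by rw [div_lt_iff₀ hη] at hR; exact hR.le⟩
  refine ⟨fun j => q j R, fun j => qm j R, fun j x => ⟨hη.le.trans (qb j R x).1, (qb j R x).2⟩,
    fun j x hx => ?_, fun j x m => qlip j R x m, fun x => ?_⟩
  · rcases R with _ | R
    · exact le_rfl
    · exact ((qs j R x).trans (if_pos hx)).le
  · filter_upwards [qev R x] with j hj
    rw [min_eq_left hR] at hj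
    exact le_antisymm (qb j R x).2 hj

section Main

variable {X : Type*} [MeasurableSpace X] (E : X → X → Prop)

/-- A Borel assignment of a probability vector on the class of `x` to each point `x`. -/
structure Assign (u : X → X → ℝ) : Prop where
  meas : Measurable fun p : {p : X × X // E p.1 p.2} => u p.1.1 p.1.2
  nonneg : ∀ x y, E x y → 0 ≤ u x y
  sum : ∀ x, HasSum (fun y : {y // E x y} => u x y) 1

/-- The `ℓ¹` distance between the vectors at `x` and at `y`. -/
noncomputable def dev (u : X → X → ℝ) (x y : X) : ℝ := ∑' z : {z // E x z}, |u x z - u y z|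

variable {E}

omit [MeasurableSpace X] in
lemma dev_nonneg (u : X → X → ℝ) (x y : X) : 0 ≤ dev E u x y :=
  tsum_nonneg fun _ => abs_nonneg _

lemma Assign.sum' (hE : Equivalence E) {u : X → X → ℝ} (hu : Assign E u) {x y : X}
    (hxy : E x y) : HasSum (fun z : {z // E x z} => u y z) 1 := by
  have e : E x = E y := funext fun z => propext
    ⟨fun h => hE.trans (hE.symm hxy) h, fun h => hE.trans hxy h⟩
  rw [e]
  exact hu.sum y

lemma Assign.nonneg' (hE : Equivalence E) {u : X → X → ℝ} (hu : Assign E u) {x y : X}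
    (hxy : E x y) (z : {z // E x z}) : 0 ≤ u y z :=
  hu.nonneg _ _ (hE.trans (hE.symm hxy) z.2)

lemma Assign.dev_le_two (hE : Equivalence E) {u : X → X → ℝ} (hu : Assign E u) {x y : X}
    (hxy : E x y) : dev E u x y ≤ 2 := by
  have h1 := hu.sum x
  have h2 := hu.sum' hE hxy
  refine (hasSum_le (fun z => ?_) (h1.summable.sub h2.summable).abs.hasSum (h1.add h2)).trans_eq
    (by norm_num)
  have a1 := hu.nonneg _ _ z.2
  have a2 := hu.nonneg' hE hxy z
  rw [abs_le]; constructor <;> linarith

lemma Assign.mix {u v : X → X → ℝ} (hu : Assign E u) (hv : Assign E v) {p : X → ℝ}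
    (hp : Measurable p) (h01 : ∀ x, 0 ≤ p x ∧ p x ≤ 1) :
    Assign E fun x z => p x * u x z + (1 - p x) * v x z where
  meas := by
    have h : Measurable fun q : {q : X × X // E q.1 q.2} => p q.1.1 :=
      hp.comp (measurable_fst.comp measurable_subtype_coe)
    exact (h.mul hu.meas).add ((measurable_const.sub h).mul hv.meas)
  nonneg x y hxy := add_nonneg (mul_nonneg (h01 x).1 (hu.nonneg x y hxy))
    (mul_nonneg (sub_nonneg.2 (h01 x).2) (hv.nonneg x y hxy))
  sum x := by
    have := ((hu.sum x).mul_left (p x)).add ((hv.sum x).mul_left (1 - p x))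
    rwa [show p x * 1 + (1 - p x) * 1 = 1 by ring] at this

lemma dev_mix_le (hE : Equivalence E) {u v : X → X → ℝ} (hu : Assign E u) (hv : Assign E v)
    {p : X → ℝ} (h01 : ∀ x, 0 ≤ p x ∧ p x ≤ 1) {x y : X} (hxy : E x y) :
    dev E (fun x z => p x * u x z + (1 - p x) * v x z) x y ≤
      min (p x) (p y) * dev E u x y + 2 * (max (p x) (p y) - min (p x) (p y))
        + (1 - max (p x) (p y)) * dev E v x y := by
  rcases le_total (p y) (p x) with h | h
  · rw [min_eq_right h, max_eq_left h]
    exact mix_le (fun z : {z // E x z} => hu.nonneg _ _ z.2)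
      (hv.nonneg' hE hxy) (hu.sum x) (hv.sum x) (hu.sum' hE hxy)
      (hv.sum' hE hxy) (h01 y).1 h (h01 x).2
  · rw [min_eq_left h, max_eq_right h]
    have := mix_le (hu.nonneg' hE hxy) (fun z : {z // E x z} => hv.nonneg _ _ z.2)
      (hu.sum' hE hxy) (hv.sum' hE hxy) (hu.sum x) (hv.sum x) (h01 x).1 h (h01 y).2
    unfold dev
    simp only [abs_sub_comm (u x _), abs_sub_comm (v x _), abs_sub_comm (p x * _ + _)]
    exact this

lemma measurable_tsum_class [StandardBorelSpace X] {g : ℕ → X → X} (hg : ∀ m, Measurable (g m))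
    (hg1 : ∀ m x, E x (g m x)) (hg2 : ∀ x y, E x y → ∃ m, g m x = y) {φ : X → X → ℝ}
    (hφ : ∀ k, Measurable fun x => φ x (g k x)) :
    Measurable fun x => ∑' z : {z // E x z}, φ x z := by
  classical
  have e : ∀ x, ∑' z : {z // E x z}, φ x z =
      ∑' k : ℕ, if (∀ k' < k, g k' x ≠ g k x) then φ x (g k x) else 0 := by
    intro x
    let i : {z // E x z} → ℕ := fun z => Nat.find (hg2 x z z.2)
    have hi : ∀ z, g (i z) x = z := fun z => Nat.find_spec (hg2 x z z.2)
    have hinj : Function.Injective i := fun z z' h => Subtype.ext (by rw [← hi z, ← hi z', h])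
    rw [← hinj.tsum_eq]
    · refine tsum_congr fun z => ?_
      rw [if_pos, hi]
      intro k' hk'
      rw [hi]
      exact Nat.find_min (hg2 x z z.2) hk'
    · intro k hk
      have hk' : ∀ k' < k, g k' x ≠ g k x := by
        by_contra h
        exact hk (if_neg h)
      refine ⟨⟨g k x, hg1 k x⟩, ?_⟩
      exact (Nat.find_eq_iff _).2 ⟨rfl, hk'⟩
  simp_rw [e]
  refine Measurable.tsum fun k => Measurable.ite ?_ (hφ k) measurable_const
  simp only [ofPred_forall]
  exact MeasurableSet.iInter fun k' => MeasurableSet.iInter fun _ =>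
    (measurableSet_eq_fun (hg k') (hg k)).compl

/-- Two nested limits are replaced by one. -/
lemma two_step [StandardBorelSpace X] (hE : IsCBER E) {u : ℕ → ℕ → X → X → ℝ}
    (hu : ∀ i j, Assign E (u i j)) :
    ∃ v : ℕ → X → X → ℝ, (∀ j, Assign E (v j)) ∧ ∀ x y, E x y → ∀ c : ℝ,
      (∀ᶠ i in atTop, ∀ᶠ j in atTop, dev E (u i j) x y ≤ c) →
      ∀ ε > 0, ∀ᶠ j in atTop, dev E (v j) x y ≤ c + ε := by
  obtain ⟨hEq, hEm, hEc⟩ := hE
  obtain ⟨g, hg, hg1, hg2⟩ := exists_enum hEq.refl hEm hEc
  have hdm : ∀ i j m, Measurable fun x => dev E (u i j) x (g m x) := by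
    intro i j m
    refine measurable_tsum_class hg hg1 hg2 (φ := fun x z => |u i j x z - u i j (g m x) z|)
      fun k => Measurable.abs (Measurable.sub ?_ ?_)
    · exact (hu i j).meas.comp
        (f := fun x => (⟨(x, g k x), hg1 k x⟩ : {p : X × X // E p.1 p.2}))
        (measurable_id.prodMk (hg k)).subtype_mk
    · exact (hu i j).meas.comp
        (f := fun x => (⟨(g m x, g k x), hEq.trans (hEq.symm (hg1 m x)) (hg1 k x)⟩ :
          {p : X × X // E p.1 p.2})) ((hg m).prodMk (hg k)).subtype_mk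
  let η : ℕ → ℝ := fun i => (1 / 2) ^ i
  have hη : ∀ i, 0 < η i := fun i => by positivity
  have hη1 : ∀ i, η i ≤ 1 := fun i => pow_le_one₀ (by norm_num) (by norm_num)
  let good : ℕ → ℕ → X → X → Prop := fun i j x y =>
    ∀ K, ∃ k, K ≤ k ∧ dev E (u i j) x y < dev E (u i k) x y + η i
  have hgood : ∀ i x y, E x y → ∀ᶠ j in atTop, good i j x y := by
    intro i x y hxy
    have b1 : IsBoundedUnder (· ≤ ·) atTop fun k => dev E (u i k) x y :=
      isBoundedUnder_of ⟨2, fun k => (hu i k).dev_le_two hEq hxy⟩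
    have b2 : IsCoboundedUnder (· ≤ ·) atTop fun k => dev E (u i k) x y :=
      isCoboundedUnder_le_of_le atTop (x := 0) fun k => dev_nonneg _ _ _
    set L := limsup (fun k => dev E (u i k) x y) atTop
    have h1 : ∀ᶠ j in atTop, dev E (u i j) x y < L + η i / 2 :=
      eventually_lt_of_limsup_lt (by linarith [hη i]) b1
    have h2 : ∃ᶠ k in atTop, L - η i / 2 < dev E (u i k) x y :=
      frequently_lt_of_lt_limsup b2 (by linarith [hη i])
    filter_upwards [h1] with j hj K
    obtain ⟨k, hk, hk'⟩ := frequently_atTop.1 h2 K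
    exact ⟨k, hk, by linarith⟩
  let bad : ℕ → ℕ → Set X := fun i j => {x | ∃ m : Fin (i + 1), ¬ good i j x (g m x)}
  have hbadm : ∀ i j, MeasurableSet (bad i j) := by
    intro i j
    simp only [bad, good, ofPred_exists]
    refine MeasurableSet.iUnion fun m => MeasurableSet.compl ?_
    change MeasurableSet {x | ∀ K, ∃ k, K ≤ k ∧
      dev E (u i j) x (g m x) < dev E (u i k) x (g m x) + η i}
    simp only [ofPred_forall, ofPred_exists]
    refine MeasurableSet.iInter fun K => MeasurableSet.iUnion fun k => ?_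
    exact (MeasurableSet.const _).inter
      (measurableSet_lt (hdm i j m) ((hdm i k m).add measurable_const))
  have hbadev : ∀ i x, ∀ᶠ j in atTop, x ∉ bad i j := by
    intro i x
    filter_upwards [eventually_all.2 fun m : Fin (i + 1) => hgood i x _ (hg1 m x)] with j hj
    rintro ⟨m, hm⟩
    exact hm (hj m)
  choose p pm p01 pbad plip pev using fun i => exists_stop (M := Fin (i + 1))
    (h := fun m => g m) (fun m => hg m) (hbadm i) (hbadev i) (hη i) (hη1 i)
  let w : ℕ → ℕ → X → X → ℝ := fun j i => Nat.rec (u 0 j)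
    (fun i r x z => p (i + 1) j x * u (i + 1) j x z + (1 - p (i + 1) j x) * r x z) i
  have ws : ∀ j i, w j (i + 1) = fun x z =>
      p (i + 1) j x * u (i + 1) j x z + (1 - p (i + 1) j x) * w j i x z := fun _ _ => rfl
  have hw : ∀ j i, Assign E (w j i) := by
    intro j i
    induction i with
    | zero => exact hu 0 j
    | succ i ih => exact (hu (i + 1) j).mix ih (pm _ _) (p01 _ _)
  refine ⟨fun j => w j j, fun j => hw j j, fun x y hxy c hc ε hε => ?_⟩
  have hc0 : 0 ≤ c := by
    obtain ⟨i, hi⟩ := hc.exists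
    obtain ⟨j, hj⟩ := hi.exists
    exact (dev_nonneg _ _ _).trans hj
  obtain ⟨m, hm⟩ := hg2 x y hxy
  obtain ⟨m', hm'⟩ := hg2 y x (hEq.symm hxy)
  have hηt : Tendsto η atTop (𝓝 0) :=
    tendsto_pow_atTop_nhds_zero_of_lt_one (by norm_num) (by norm_num)
  obtain ⟨I, hI⟩ := eventually_atTop.1 (hc.and ((eventually_ge_atTop (max m m')).and
    (hηt.eventually (eventually_le_nhds (show (0 : ℝ) < ε / 10 by positivity)))))
  have step : ∀ i, I ≤ i → ∀ j, dev E (w j (i + 1)) x y ≤
      max (p (i + 1) j x) (p (i + 1) j y) * c + 4 * η (i + 1)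
        + (1 - max (p (i + 1) j x) (p (i + 1) j y)) * dev E (w j i) x y := by
    intro i hi j
    obtain ⟨h1, h2, -⟩ := hI (i + 1) (by omega)
    have hmi : m < i + 1 + 1 := by omega
    have hmi' : m' < i + 1 + 1 := by omega
    have l1 := plip (i + 1) j x ⟨m, hmi⟩
    have l2 := plip (i + 1) j y ⟨m', hmi'⟩
    simp only [hm, hm'] at l1 l2
    have bx := p01 (i + 1) j x
    have by' := p01 (i + 1) j y
    have hη' := hη (i + 1)
    have d0 := dev_nonneg (E := E) (u (i + 1) j) x y
    have d2 := (hu (i + 1) j).dev_le_two hEq hxy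
    rw [ws]
    refine (dev_mix_le hEq (hu (i + 1) j) (hw j i) (p01 (i + 1) j) hxy).trans ?_
    have hmm : max (p (i + 1) j x) (p (i + 1) j y) - min (p (i + 1) j x) (p (i + 1) j y)
        ≤ η (i + 1) := by
      rcases le_total (p (i + 1) j x) (p (i + 1) j y) with h | h
      · rw [max_eq_right h, min_eq_left h]; nlinarith
      · rw [max_eq_left h, min_eq_right h]; nlinarith
    have hmin0 : 0 ≤ min (p (i + 1) j x) (p (i + 1) j y) := le_min bx.1 by'.1
    have hmax1 : max (p (i + 1) j x) (p (i + 1) j y) ≤ 1 := max_le bx.2 by'.2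
    have hminmax : min (p (i + 1) j x) (p (i + 1) j y) ≤ max (p (i + 1) j x) (p (i + 1) j y) :=
      min_le_max
    have key : min (p (i + 1) j x) (p (i + 1) j y) * dev E (u (i + 1) j) x y ≤
        max (p (i + 1) j x) (p (i + 1) j y) * c + 2 * η (i + 1) := by
      by_cases hb : x ∈ bad (i + 1) j
      · have := (min_le_left _ (p (i + 1) j y)).trans (pbad (i + 1) j x hb)
        nlinarith [mul_nonneg (hmin0.trans hminmax) hc0]
      · have hgd : good (i + 1) j x y := by
          by_contra hng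
          exact hb ⟨⟨m, hmi⟩, by simpa only [hm] using hng⟩
        obtain ⟨K, hK⟩ := eventually_atTop.1 h1
        obtain ⟨k, hk, hk'⟩ := hgd K
        have := hK k hk
        have e1 : dev E (u (i + 1) j) x y ≤ c + η (i + 1) := by linarith
        have e2 := mul_le_mul hminmax e1 d0 (hmin0.trans hminmax)
        nlinarith
    linarith
  filter_upwards [pev (I + 1) x, eventually_ge_atTop (I + 1)] with j hj1 hj2
  have main : ∀ i, I + 1 ≤ i → dev E (w j i) x y ≤ c + (8 * η (I + 1) - 4 * η i) := by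
    intro i hi
    induction i, hi using Nat.le_induction with
    | base =>
      have h := step I le_rfl j
      rw [hj1, max_eq_left (p01 (I + 1) j y).2] at h
      linarith
    | succ i hi ih =>
      have h := step i (by omega) j
      have e1 : η (i + 1) = η i / 2 := by simp only [η]; ring
      have e2 : η i ≤ η (I + 1) := pow_le_pow_of_le_one (by norm_num) (by norm_num) hi
      have hmax1 : max (p (i + 1) j x) (p (i + 1) j y) ≤ 1 :=
        max_le (p01 _ _ _).2 (p01 _ _ _).2
      have hmax0 : 0 ≤ max (p (i + 1) j x) (p (i + 1) j y) :=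
        le_max_of_le_left (p01 _ _ _).1
      have e3 := mul_le_mul_of_nonneg_left ih (sub_nonneg.2 hmax1)
      have e4 : 0 ≤ 8 * η (I + 1) - 4 * η i := by linarith [hη i]
      nlinarith [mul_nonneg hmax0 e4]
  have := main j hj2
  have := (hI (I + 1) (by omega)).2.2
  linarith [hη j]

lemma collapse [StandardBorelSpace X] (hE : IsCBER E) {e : ℕ × ℕ ≃ ℕ} {α : Ordinal.{0}}
    {F : Filter ℕ} (hF : IsFr e α F) :
    ∀ u : ℕ → X → X → ℝ, (∀ n, Assign E (u n)) →
      ∃ v : ℕ → X → X → ℝ, (∀ j, Assign E (v j)) ∧ ∀ x y, E x y → ∀ c : ℝ,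
        (∀ᶠ n in F, dev E (u n) x y ≤ c) → ∀ ε > 0, ∀ᶠ j in atTop, dev E (v j) x y ≤ c + ε := by
  have key : ∀ G : ℕ → Filter ℕ, (∀ k, ∀ u : ℕ → X → X → ℝ, (∀ n, Assign E (u n)) →
      ∃ v : ℕ → X → X → ℝ, (∀ j, Assign E (v j)) ∧ ∀ x y, E x y → ∀ c : ℝ,
        (∀ᶠ n in G k, dev E (u n) x y ≤ c) →
          ∀ ε > 0, ∀ᶠ j in atTop, dev E (v j) x y ≤ c + ε) →
      ∀ u : ℕ → X → X → ℝ, (∀ n, Assign E (u n)) →
      ∃ v : ℕ → X → X → ℝ, (∀ j, Assign E (v j)) ∧ ∀ x y, E x y → ∀ c : ℝ,
        (∀ᶠ n in fubini e cofinite G, dev E (u n) x y ≤ c) →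
          ∀ ε > 0, ∀ᶠ j in atTop, dev E (v j) x y ≤ c + ε := by
    intro G ih u hu
    choose v hv1 hv2 using fun k => ih k (fun j => u (e (k, j))) fun j => hu _
    obtain ⟨w, hw1, hw2⟩ := two_step hE hv1
    refine ⟨w, hw1, fun x y hxy c hc ε hε => ?_⟩
    rw [eventually_fubini, Nat.cofinite_eq_atTop] at hc
    have := hw2 x y hxy (c + ε / 2)
      (hc.mono fun i hi => hv2 i x y hxy c hi _ (half_pos hε)) _ (half_pos hε)
    simpa only [add_assoc, add_halves] using this
  induction hF with
  | one =>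
    intro u hu
    refine ⟨u, hu, fun x y _ c hc ε hε => ?_⟩
    rw [Nat.cofinite_eq_atTop] at hc
    exact hc.mono fun n hn => by linarith
  | succ α F _ ih => exact key _ fun _ => ih
  | limit l a G _ _ _ ih => exact key G ih

theorem amenable_of_isFr [StandardBorelSpace X] (hE : IsCBER E) {e : ℕ × ℕ ≃ ℕ}
    {α : Ordinal.{0}} {F : Filter ℕ} (hF : IsFr e α F) (h : IsAmenableAlong E F) :
    IsAmenableAlong E cofinite := by
  obtain ⟨f, h1, h2, h3, h4⟩ := h
  obtain ⟨v, hv1, hv2⟩ := collapse hE hF f fun n => ⟨h1 n, h2 n, h3 n⟩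
  refine ⟨v, fun n => (hv1 n).meas, fun n => (hv1 n).nonneg, fun n => (hv1 n).sum,
    fun x y hxy => ?_⟩
  rw [Nat.cofinite_eq_atTop]
  refine tendsto_order.2 ⟨fun a ha => Eventually.of_forall fun n =>
    ha.trans_le (dev_nonneg _ _ _), fun a ha => ?_⟩
  have h5 := (h4 x y hxy).eventually (eventually_le_nhds (show (0 : ℝ) < a / 3 by positivity))
  filter_upwards [hv2 x y hxy _ h5 (a / 3) (by positivity)] with j hj
  exact lt_of_le_of_lt hj (by linarith)

theorem isFr_amenable {e : ℕ × ℕ ≃ ℕ} {α : Ordinal.{0}} {F : Filter ℕ} (hF : IsFr e α F)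
    (h : IsAmenableAlong E cofinite) : IsAmenableAlong E F := by
  have key : ∀ G : ℕ → Filter ℕ, IsAmenableAlong E (fubini e cofinite G) := by
    intro G
    obtain ⟨f, h1, h2, h3, h4⟩ := h
    refine ⟨fun n => f (e.symm n).1, fun n => h1 _, fun n => h2 _, fun n => h3 _,
      fun x y hxy s hs => ?_⟩
    have := h4 x y hxy hs
    rw [mem_map] at this ⊢
    rw [mem_fubini]
    filter_upwards [this] with i hi
    exact Eventually.of_forall fun j => by simpa using hi
  cases hF with
  | one => exact h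
  | succ => exact key _
  | limit => exact key _

end Main

/-- `Fr_α` exists for every countable `α ≥ 1`. -/
theorem exists_isFr (e : ℕ × ℕ ≃ ℕ) (α : Ordinal.{0}) :
    1 ≤ α → α < Ordinal.omega 1 → ∃ F, IsFr e α F := by
  induction α using WellFoundedLT.induction with
  | _ α ih =>
    intro h1 hω
    rcases h1.eq_or_lt with rfl | h1
    · exact ⟨_, IsFr.one⟩
    rcases Ordinal.zero_or_succ_or_isSuccLimit α with rfl | ⟨β, rfl⟩ | hl
    · simp at h1
    · have hβ : β < Order.succ β := Order.lt_succ β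
      obtain ⟨F, hF⟩ := ih β hβ (Order.lt_succ_iff.1 h1) (hβ.trans hω)
      exact ⟨_, IsFr.succ β F hF⟩
    · have hc : (Set.Iio α).Countable := by
        rw [← Cardinal.le_aleph0_iff_set_countable, Cardinal.mk_Iio_ordinal,
          Cardinal.lift_le_aleph0, ← Order.lt_succ_iff, Cardinal.succ_aleph0]
        exact Cardinal.lt_omega_iff_card_lt.1 hω
      obtain ⟨b, hb⟩ := hc.exists_eq_range ⟨1, h1⟩
      have hb' : ∀ k, b k < α := fun k => by
        have : b k ∈ Set.Iio α := hb ▸ mem_range_self k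
        exact this
      let a : ℕ → Ordinal.{0} := fun k => Nat.rec 1 (fun k r => Order.succ (max r (b k))) k
      have as : ∀ k, a (k + 1) = Order.succ (max (a k) (b k)) := fun _ => rfl
      have hlt : ∀ k, a k < α := by
        intro k
        induction k with
        | zero => exact h1
        | succ k ihk => exact hl.succ_lt (max_lt ihk (hb' k))
      have hmono : StrictMono a := strictMono_nat_of_lt_succ fun k =>
        (le_max_left _ _).trans_lt (Order.lt_succ _)
      choose G hG using fun k => ih (a k) (hlt k) (hmono.monotone (Nat.zero_le k))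
        ((hlt k).trans hω)
      refine ⟨_, IsFr.limit α a G hmono ⟨?_, ?_⟩ hG⟩
      · rintro _ ⟨k, rfl⟩
        exact (hlt k).le
      · intro c hc'
        by_contra hlt'
        have : c ∈ range b := hb ▸ not_le.1 hlt'
        obtain ⟨k, rfl⟩ := this
        exact absurd (hc' ⟨k + 1, rfl⟩) (not_le.2 ((le_max_right _ _).trans_lt (Order.lt_succ _)))

end Pool.Agent.Lib.MP_4ec5c8_lc
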