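import Pool.Agent.Lib.MP_4ec5c8_lc.FiltC

/-!
The set of parameters at which a Borel family of countable Borel equivalence relations is
amenable is coanalytic, and every coanalytic set arises in this way.
-/

set_option autoImplicit false

open Set Filter Topology MeasureTheory

namespace Pool.Agent.Lib.MP_4ec5c8_lc

lemma exists_closed {A : Type*} {P : A → Prop} (m : ℚ → A → A → A)
    (hm : ∀ q a b, P a → P b → P (m q a b)) {S : Set A} (hS : S.Countable) (h : ∀ a ∈ S, P a) :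
    ∃ R : Set A, R.Countable ∧ S ⊆ R ∧ (∀ a ∈ R, P a) ∧ ∀ q, ∀ a ∈ R, ∀ b ∈ R, m q a b ∈ R := by
  let F : ℕ → Set A := fun n => Nat.rec S
    (fun _ R => R ∪ (fun p : ℚ × A × A => m p.1 p.2.1 p.2.2) '' (univ ×ˢ R ×ˢ R)) n
  have h1 : ∀ n, (F n).Countable ∧ ∀ a ∈ F n, P a := fun n => by
    induction n with
    | zero => exact ⟨hS, h⟩
    | succ n ih =>
      refine ⟨ih.1.union ((countable_univ.prod (ih.1.prod ih.1)).image _), ?_⟩
      rintro a (ha | ⟨p, hp, rfl⟩)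
      exacts [ih.2 a ha, hm _ _ _ (ih.2 _ hp.2.1) (ih.2 _ hp.2.2)]
  have h2 : Monotone F := monotone_nat_of_le_succ fun n => subset_union_left
  refine ⟨⋃ n, F n, countable_iUnion fun n => (h1 n).1, subset_iUnion F 0,
    fun a ha => ?_, fun q a ha b hb => ?_⟩
  · obtain ⟨n, hn⟩ := mem_iUnion.1 ha
    exact (h1 n).2 a hn
  · obtain ⟨n, hn⟩ := mem_iUnion.1 ha
    obtain ⟨k, hk⟩ := mem_iUnion.1 hb
    exact mem_iUnion.2 ⟨max n k + 1, Or.inr ⟨(q, a, b),
      ⟨trivial, h2 (le_max_left _ _) hn, h2 (le_max_right _ _) hk⟩, rfl⟩⟩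

variable {X : Type*} [MeasurableSpace X] {E : X → X → Prop}

lemma pull {Y : Type*} [MeasurableSpace Y] {E' : Y → Y → Prop} {j : Y → X} (hj : Measurable j)
    (hi : Function.Injective j) (h1 : ∀ y y', E' y y' ↔ E (j y) (j y'))
    (h2 : ∀ y x, E (j y) x → ∃ y', j y' = x) {u : X → X → ℝ} (hu : Assign E u) :
    Assign E' (fun y z => u (j y) (j z)) ∧
      ∀ y y', dev E' (fun y z => u (j y) (j z)) y y' = dev E u (j y) (j y') := by
  let i : ∀ y, {z // E' y z} ≃ {x // E (j y) x} := fun y => Equiv.ofBijective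
    (fun z => ⟨j z, (h1 _ _).1 z.2⟩) ⟨fun z z' h => Subtype.ext (hi (congrArg Subtype.val h)),
      fun x => by
        obtain ⟨y', hy⟩ := h2 y x x.2
        exact ⟨⟨y', (h1 _ _).2 (hy ▸ x.2)⟩, Subtype.ext hy⟩⟩
  refine ⟨⟨?_, fun y z h => hu.nonneg _ _ ((h1 _ _).1 h),
    fun y => (i y).hasSum_iff.2 (hu.sum (j y))⟩,
    fun y y' => (i y).tsum_eq fun z => |u (j y) z - u (j y') z|⟩
  exact hu.meas.comp (f := fun p : {p : Y × Y // E' p.1 p.2} =>
    (⟨(j p.1.1, j p.1.2), (h1 _ _).1 p.2⟩ : {p : X × X // E p.1 p.2}))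
    ((hj.prodMap hj).comp measurable_subtype_coe).subtype_mk

variable [StandardBorelSpace X] {g : ℕ → X → X}

lemma dev_int (hE : Equivalence E) (g0 : ∀ m, Measurable (g m)) (g1 : ∀ m x, E x (g m x))
    (g2 : ∀ x y, E x y → ∃ m, g m x = y) (μ : Measure (ℕ × X)) [IsFiniteMeasure μ]
    {u : X → X → ℝ} (hu : Assign E u) :
    Integrable (fun p : ℕ × X => dev E u p.2 (g p.1 p.2)) μ :=
  Integrable.of_bound (dev_meas hE g0 g1 g2 hu).aestronglyMeasurable 2
    (ae_of_all _ fun _ => (abs_of_nonneg (dev_nonneg _ _ _)).trans_le (hu.dev_le_two hE (g1 _ _)))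

lemma family_loc (hE : Equivalence E) (g0 : ∀ m, Measurable (g m)) (g1 : ∀ m x, E x (g m x))
    (g2 : ∀ x y, E x y → ∃ m, g m x = y) :
    ∃ u : List ℕ → X → X → ℝ, (∀ L, Assign E (u L)) ∧ ∀ μ : Measure (ℕ × X), IsFiniteMeasure μ →
      ∀ f, Assign E f → ∀ η : ℝ, 0 < η → ∃ L, ∫ p, dev E (u L) p.2 (g p.1 p.2) ∂μ ≤
        ∫ p, dev E f p.2 (g p.1 p.2) ∂μ + η := by
  classical
  obtain ⟨s, hs, hs'⟩ := exists_shapes g0 g1 g2
  obtain ⟨T, hT, hT'⟩ := exists_dense_maps X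
  refine ⟨fun L x z => s (T L x) x z, fun L => Assign.sel hs (hT L), fun μ _ f hf η hη => ?_⟩
  have hG : Measurable fun p : ℕ × X => g p.1 p.2 := measurable_from_prod_countable_right g0
  let ν : Measure X := μ.map Prod.snd + μ.map fun p => g p.1 p.2
  have hI := fun u (hu : Assign E u) => dev_int hE g0 g1 g2 μ hu
  obtain ⟨δ, hδ, hδ'⟩ : ∃ δ : ℝ, 0 < δ ∧ μ.real univ * (2 * δ) ≤ η / 4 :=
    ⟨η / 8 / (μ.real univ + 1), by positivity, by
      rw [← mul_div_assoc, ← mul_div_assoc, div_le_iff₀ (by positivity)]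
      nlinarith⟩
  have hτ : Measurable fun x => Nat.find (hs' _ hf x δ hδ) := measurable_find _ fun k =>
    measurableSet_lt (measurable_tsum_class g0 g1 g2 (φ := fun x z => |s k x z - f x z|) fun m =>
      (((hs k).meas.sub hf.meas).comp
        (f := fun x => (⟨(x, g m x), g1 m x⟩ : {p : X × X // E p.1 p.2}))
        (measurable_id.prodMk (g0 m)).subtype_mk).abs) measurable_const
  obtain ⟨L, hL⟩ := hT' ν _ hτ (η / 4) (by positivity)
  have hS := (measurableSet_eq_fun (hT L) hτ).compl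
  set S : Set X := {x | T L x = Nat.find (hs' _ hf x δ hδ)}ᶜ
  have h2 : ∀ x ∉ S, ∑' z : {z // E x z}, |s (T L x) x z - f x z| < δ := fun x hx => by
    rw [show T L x = _ from not_not.1 hx]
    exact Nat.find_spec (hs' _ hf x δ hδ)
  let W : Set (ℕ × X) := Prod.snd ⁻¹' S ∪ (fun p => g p.1 p.2) ⁻¹' S
  have hW : MeasurableSet W := (measurable_snd hS).union (hG hS)
  have h3 : μ.real W < η / 4 := (measureReal_union_le _ _).trans_lt (lt_of_eq_of_lt (by
    rw [← map_measureReal_apply measurable_snd hS, ← map_measureReal_apply hG hS,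
      ← measureReal_add_apply]
    rfl) hL)
  have h4 := Assign.sel hs (hT L)
  have h5 := (integrable_const (μ := μ) (2 : ℝ)).indicator hW
  refine ⟨L, (integral_mono (hI _ h4) (((hI _ hf).add (integrable_const (2 * δ))).add h5)
    fun p => ?_).trans ?_⟩
  · simp only [Pi.add_apply]
    by_cases hp : p ∈ W
    · rw [indicator_of_mem hp]
      linarith [h4.dev_le_two hE (g1 p.1 p.2), dev_nonneg (E := E) f p.2 (g p.1 p.2)]
    · rw [indicator_of_notMem hp]
      linarith [dev_tri hE h4 hf (g1 p.1 p.2), h2 _ fun h => hp (Or.inl h),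
        h2 _ fun h => hp (Or.inr h)]
  · rw [integral_add' ((hI _ hf).add (integrable_const _)) h5,
      integral_add' (hI _ hf) (integrable_const _), integral_indicator_const _ hW,
      integral_const, smul_eq_mul, smul_eq_mul]
    linarith

/-- Small deviations near every compact set give deviations tending to zero. -/
lemma of_cover (hE : IsCBER E) {a b : (ℕ → ℕ) → X} (hab : ∀ z, E (a z) (b z)) {F : Set (ℕ → ℕ)}
    (H : ∀ i : ℕ, ∀ K, IsCompact K → ∃ U, IsOpen U ∧ K ⊆ U ∧ ∃ w, Assign E w ∧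
      ∀ z ∈ U, z ∈ F → dev E w (a z) (b z) ≤ 1 / (i + 1)) :
    ∃ w : ℕ → X → X → ℝ, (∀ n, Assign E (w n)) ∧
      ∀ z ∈ F, Tendsto (fun n => dev E (w n) (a z) (b z)) atTop (𝓝 0) := by
  have key : ∀ i : ℕ, ∃ v : ℕ → X → X → ℝ, (∀ j, Assign E (v j)) ∧
      ∀ z ∈ (univ : Set (ℕ → ℕ)), z ∈ F → ∀ η : ℝ, 0 < η →
        ∀ᶠ j in atTop, dev E (v j) (a z) (b z) ≤ 1 / (i + 1) + η := fun i => by
    refine tree_ind (Q := fun S => ∃ v : ℕ → X → X → ℝ, (∀ j, Assign E (v j)) ∧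
      ∀ z ∈ S, z ∈ F → ∀ η : ℝ, 0 < η →
        ∀ᶠ j in atTop, dev E (v j) (a z) (b z) ≤ 1 / (i + 1) + η) (fun S l h => ?_)
      fun K hK => ?_
    · choose v h1 h2 using h
      obtain ⟨w, h3, h4⟩ := two_step hE h1
      refine ⟨w, h3, fun z hz hF η hη => ?_⟩
      simpa only [add_assoc, add_halves] using h4 _ _ (hab z) _ ((eventually_ge_atTop (z l)).mono
        fun k hk => h2 k z ⟨hz, hk⟩ hF _ (half_pos hη)) _ (half_pos hη)
    · obtain ⟨U, h1, h2, w, h3, h4⟩ := H i K hK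
      exact ⟨U, h1, h2, fun S hS => ⟨fun _ => w, fun _ => h3, fun z hz hF η hη =>
        Eventually.of_forall fun _ => by linarith [h4 z (hS hz) hF]⟩⟩
  choose v h1 h2 using key
  obtain ⟨w, h3, h4⟩ := two_step hE h1
  refine ⟨w, h3, fun z hz => tendsto_order.2 ⟨fun c hc => Eventually.of_forall fun n =>
    hc.trans_le (dev_nonneg _ _ _), fun c hc => ?_⟩⟩
  have h5 : 0 < c / 4 := by positivity
  filter_upwards [h4 _ _ (hab z) (c / 2) ((tendsto_one_div_add_atTop_nhds_zero_nat.eventually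
    (gt_mem_nhds h5)).mono fun i hi => (h2 i z trivial hz _ h5).mono fun j hj => by
      linarith) _ h5] with j hj
  exact lt_of_le_of_lt hj (by linarith)

theorem locus_analytic {T : Type*} [TopologicalSpace T] [PolishSpace T] [MeasurableSpace T]
    [BorelSpace T] (hE : IsCBER E) {τ : X → T} (hτ : Measurable τ) :
    AnalyticSet {t | ¬ ∃ f : ℕ → X → X → ℝ, (∀ n, Assign E (f n)) ∧
      ∀ x y, τ x = t → E x y → Tendsto (fun n => dev E (f n) x y) atTop (𝓝 0)} := by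
  rcases isEmpty_or_nonempty X with hX | hX
  · refine Eq.subst (motive := AnalyticSet) (eq_empty_of_forall_notMem fun t ht => ?_).symm
      analyticSet_empty
    exact ht ⟨fun _ _ _ => 0, fun _ =>
      ⟨measurable_const, fun x => isEmptyElim x, fun x => isEmptyElim x⟩, fun x => isEmptyElim x⟩
  obtain ⟨g, g0, g1, g2⟩ := exists_enum hE.1.refl hE.2.1 hE.2.2
  obtain ⟨u, hu, hu'⟩ := family_loc hE.1 g0 g1 g2
  have hc : ∀ q : ℚ, (0 : ℝ) ≤ max 0 (min 1 (q : ℝ)) ∧ max 0 (min 1 (q : ℝ)) ≤ 1 := fun q =>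
    ⟨le_max_left _ _, max_le zero_le_one (min_le_left _ _)⟩
  obtain ⟨R, R0, R1, R2, R3⟩ := exists_closed (P := Assign E)
    (fun q v w x z => max 0 (min 1 (q : ℝ)) * v x z + (1 - max 0 (min 1 (q : ℝ))) * w x z)
    (fun q v w hv hw => hv.mix hw measurable_const fun _ => hc q) (countable_range u)
    (by rintro _ ⟨L, rfl⟩; exact hu L)
  have := R0.to_subtype
  have : Nonempty R := ⟨⟨_, R1 ⟨[], rfl⟩⟩⟩
  obtain ⟨π, π0, π1, π2, π3⟩ : ∃ π : (ℕ → ℕ) → ℕ × X, Measurable π ∧ Function.Surjective π ∧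
      (∀ w : R, Continuous fun z => dev E w (π z).2 (g (π z).1 (π z).2)) ∧
        Continuous fun z => τ (π z).2 := by
    let := upgradeStandardBorel (ℕ × X)
    have hm : ∀ π : (ℕ → ℕ) → ℕ × X, Continuous π → Measurable π := fun π h => h.measurable
    obtain ⟨t, h1, h2, h3⟩ := ((measurable_pi_lambda _ fun w : R =>
      dev_meas hE.1 g0 g1 g2 (R2 w w.2)).prodMk (hτ.comp measurable_snd)).exists_continuous
    obtain ⟨π, h4, h5⟩ := @PolishSpace.exists_nat_nat_continuous_surjective _ t h3 _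
    have h6 := @Continuous.comp _ _ _ _ t _ _ _ h2 h4
    exact ⟨π, hm π (continuous_le_rng h1 h4), h5, fun w =>
      (continuous_apply w).comp (continuous_fst.comp h6), continuous_snd.comp h6⟩
  have hbox : ∀ h : ℕ → ℕ, IsCompact {z : ℕ → ℕ | z ≤ h} := fun h => by
    have := isCompact_univ_pi fun n => (finite_Iic (h n)).isCompact
    rwa [pi_univ_Iic] at this
  have hA : AnalyticSet (⋃ i : ℕ, Prod.fst '' ⋂ w : R,
      (fun p : (ℕ → ℕ) × (ℕ → ℕ) => (τ (π p.1).2, p.2)) '' {p | p.1 ≤ p.2 ∧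
        1 / ((i : ℝ) + 1) ≤ dev E w (π p.1).2 (g (π p.1).1 (π p.1).2)}) :=
    AnalyticSet.iUnion fun i => (AnalyticSet.iInter fun w =>
      ((isClosed_le continuous_fst continuous_snd).inter (isClosed_le continuous_const
        ((π2 w).comp continuous_fst))).analyticSet.image_of_continuous
          ((π3.comp continuous_fst).prodMk continuous_snd)).image_of_continuous continuous_fst
  refine Eq.subst (motive := AnalyticSet) (Set.ext fun t => Iff.symm ⟨fun ht => ?_, ?_⟩) hA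
  · refine by_contra fun hn => ht ?_
    obtain ⟨w, h1, h2⟩ := of_cover hE (fun z => g1 (π z).1 (π z).2) (F := {z | τ (π z).2 = t})
      fun i K hK => by
        choose h hh using fun n => (hK.image (continuous_apply n)).finite_of_discrete.bddAbove
        obtain ⟨w, hw⟩ : ∃ w : R, ∀ z ≤ h, τ (π z).2 = t →
            dev E w (π z).2 (g (π z).1 (π z).2) < 1 / ((i : ℝ) + 1) := by
          by_contra h0
          push Not at h0
          refine hn (mem_iUnion.2 ⟨i, (t, h), mem_iInter.2 fun w => ?_, rfl⟩)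
          obtain ⟨z, a1, a2, a3⟩ := h0 w
          exact ⟨(z, h), ⟨a1, a3⟩, Prod.ext a2 rfl⟩
        refine ⟨{z | dev E w (π z).2 (g (π z).1 (π z).2) < 1 / ((i : ℝ) + 1)} ∪
          {z | τ (π z).2 = t}ᶜ, (isOpen_lt (π2 w) continuous_const).union
            (isClosed_eq π3 continuous_const).isOpen_compl, fun z hz => ?_, w, R2 w w.2,
          fun z hz hF => (hz.resolve_right fun h' => h' hF).le⟩
        exact or_not.symm.elim Or.inr fun h' => Or.inl (hw z (fun n => hh n ⟨z, hz, rfl⟩) h')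
    refine ⟨w, h1, fun x y hx hxy => ?_⟩
    obtain ⟨m, rfl⟩ := g2 x y hxy
    obtain ⟨z, hz⟩ := π1 (m, x)
    simpa only [hz] using h2 z (by rw [mem_ofPred_eq, hz]; exact hx)
  · rintro ht ⟨f, f1, f2⟩
    obtain ⟨i, ⟨t', h⟩, hi, rfl : t' = t⟩ := mem_iUnion.1 ht
    let Z := {z : ℕ → ℕ | τ (π z).2 = t'}
    let C : Set C(Z, ℝ) := {H | ∀ η : ℝ, 0 < η → ∃ w : R, ∀ z : Z,
      dev E w (π z).2 (g (π z).1 (π z).2) ≤ H z + η}
    have hC : Convex ℝ C := by
      intro p hp q hq a b ha hb hab η hη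
      obtain rfl : b = 1 - a := by linarith
      obtain ⟨v, hv⟩ := hp _ (half_pos hη)
      obtain ⟨w, hw⟩ := hq _ (half_pos hη)
      obtain ⟨r, r1, r2⟩ := exists_rat_btwn (show a - η / 4 < a by linarith)
      refine ⟨⟨_, R3 r v v.2 w w.2⟩, fun z => ?_⟩
      refine (dev_mix_le hE.1 (R2 v v.2) (R2 w w.2) (p := fun _ => max 0 (min 1 (r : ℝ)))
        (fun _ => hc r) (g1 _ _)).trans ?_
      have c1 : max 0 (min 1 (r : ℝ)) ≤ a := max_le ha ((min_le_right _ _).trans r2.le)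
      have c2 : a - η / 4 ≤ max 0 (min 1 (r : ℝ)) :=
        le_max_of_le_right (le_min (by linarith) r1.le)
      have d1 := dev_nonneg (E := E) v (π z).2 (g (π z).1 (π z).2)
      have d2 := (R2 w w.2).dev_le_two hE.1 (g1 (π z).1 (π z).2)
      have d3 := dev_nonneg (E := E) w (π z).2 (g (π z).1 (π z).2)
      simp only [min_self, max_self, sub_self, mul_zero, add_zero, ContinuousMap.add_apply,
        ContinuousMap.smul_apply, smul_eq_mul]
      nlinarith [mul_le_mul_of_nonneg_left (hv z) ha, mul_le_mul_of_nonneg_left (hw z) hb,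
        mul_le_mul_of_nonneg_right c1 d1, mul_le_mul_of_nonneg_right c2 d3]
    have hε : 0 < 1 / ((i : ℝ) + 1) / 2 := by positivity
    have hπ : Measurable fun z : Z => π z := π0.comp measurable_subtype_coe
    obtain ⟨p, p1, p2⟩ := compact_small hC (fun μ _ η hη => by
      have h1 := tendsto_integral_of_dominated_convergence (μ := μ.map fun z : Z => π z)
        (f := fun _ => (0 : ℝ)) (F := fun n p => dev E (f n) p.2 (g p.1 p.2)) (fun _ => 2)
        (fun n => (dev_meas hE.1 g0 g1 g2 (f1 n)).aestronglyMeasurable) (integrable_const _)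
        (fun n => ae_of_all _ fun p =>
          (abs_of_nonneg (dev_nonneg _ _ _)).trans_le ((f1 n).dev_le_two hE.1 (g1 _ _)))
        (((ae_map_iff hπ.aemeasurable (p := fun p => τ p.2 = t') (measurableSet_eq_fun
          (hτ.comp measurable_snd) measurable_const)).2 (ae_of_all _ fun z => z.2)).mono
            fun p hp => f2 _ _ hp (g1 _ _))
      rw [integral_zero] at h1
      obtain ⟨n, hn⟩ := (h1.eventually (gt_mem_nhds (half_pos hη))).exists
      obtain ⟨L, hL⟩ := hu' (μ.map fun z : Z => π z) inferInstance _ (f1 n) _ (half_pos hη)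
      rw [integral_map hπ.aemeasurable
        (dev_meas hE.1 g0 g1 g2 (hu L)).aestronglyMeasurable] at hL
      exact ⟨⟨_, (π2 ⟨_, R1 ⟨L, rfl⟩⟩).comp continuous_subtype_val⟩,
        fun η hη => ⟨⟨_, R1 ⟨L, rfl⟩⟩, fun z => le_add_of_nonneg_right hη.le⟩,
        hL.trans_lt (by linarith)⟩)
      ((isClosed_eq π3 continuous_const).isClosedEmbedding_subtypeVal.isCompact_preimage (hbox h))
      hε
    obtain ⟨w, hw⟩ := p1 _ hε
    obtain ⟨⟨z, _⟩, ⟨a1, a2⟩, a3⟩ := mem_iInter.1 hi w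
    obtain ⟨a4, rfl⟩ := Prod.mk.inj a3
    linarith [hw ⟨z, a4⟩, p2 ⟨z, a4⟩ a1]

lemma alpha_iff (e : ℕ × ℕ ≃ ℕ) {α : Ordinal.{0}} (hα : 1 ≤ α) (hα' : α < Ordinal.omega 1)
    (hE : IsCBER E) : IsAlphaAmenable e α E ↔ ∃ f : ℕ → X → X → ℝ, (∀ n, Assign E (f n)) ∧
      ∀ x y, E x y → Tendsto (fun n => dev E (f n) x y) atTop (𝓝 0) := by
  rw [← Nat.cofinite_eq_atTop]
  constructor
  · rintro ⟨G, hG, h⟩
    obtain ⟨f, f1, f2, f3, f4⟩ := amenable_of_isFr hE hG h
    exact ⟨f, fun n => ⟨f1 n, f2 n, f3 n⟩, f4⟩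
  · rintro ⟨f, f1, f2⟩
    obtain ⟨G, hG⟩ := exists_isFr e α hα hα'
    exact ⟨G, hG, isFr_amenable hG
      ⟨f, fun n => (f1 n).meas, fun n => (f1 n).nonneg, fun n => (f1 n).sum, f2⟩⟩

theorem family_analytic (e : ℕ × ℕ ≃ ℕ) {α : Ordinal.{0}} (hα : 1 ≤ α)
    (hα' : α < Ordinal.omega 1) {T : Type*} [TopologicalSpace T] [PolishSpace T]
    [MeasurableSpace T] [BorelSpace T] {E : T → X → X → Prop}
    (hm : MeasurableSet {p : T × X × X | E p.1 p.2.1 p.2.2}) (hE : ∀ t, IsCBER (E t)) :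
    AnalyticSet {t | IsAlphaAmenable e α (E t)}ᶜ := by
  let D : T × X → T × X → Prop := fun p q => p.1 = q.1 ∧ E p.1 p.2 q.2
  have hD : IsCBER D := by
    refine ⟨⟨fun p => ⟨rfl, (hE _).1.refl _⟩, fun h => ⟨h.1.symm, h.1 ▸ (hE _).1.symm h.2⟩,
      fun h h' => ⟨h.1.trans h'.1, (hE _).1.trans h.2 (h.1 ▸ h'.2)⟩⟩,
      (measurableSet_eq_fun measurable_fst.fst measurable_snd.fst).inter
        ((measurable_fst.fst.prodMk (measurable_fst.snd.prodMk measurable_snd.snd)) hm),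
      fun p => Countable.mono (fun q hq => ?_) (((hE p.1).2.2 p.2).image (Prod.mk p.1))⟩
    exact ⟨q.2, hq.2, Prod.ext hq.1 rfl⟩
  refine Eq.subst (motive := AnalyticSet) (Set.ext fun t => not_congr ?_)
    (locus_analytic hD measurable_fst)
  refine Iff.trans ⟨?_, ?_⟩ (alpha_iff e hα hα' (hE t)).symm
  · rintro ⟨f, f1, f2⟩
    have h := fun n => pull (E' := E t) (j := Prod.mk t) measurable_prodMk_left
      (Prod.mk_right_injective t) (fun _ _ => ⟨fun h => ⟨rfl, h⟩, fun h => h.2⟩)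
      (fun _ q h => ⟨q.2, Prod.ext h.1 rfl⟩) (f1 n)
    exact ⟨_, fun n => (h n).1, fun x y hxy =>
      (f2 (t, x) (t, y) rfl ⟨rfl, hxy⟩).congr fun n => ((h n).2 x y).symm⟩
  · rintro ⟨f, f1, f2⟩
    have hB : MeasurableSet {p : T × X | p.1 = t} :=
      measurableSet_eq_fun measurable_fst measurable_const
    have h := fun n => pull (E' := fun p q : {p : T × X | p.1 = t} => D p q) (j := fun p => p.1.2)
      (measurable_snd.comp measurable_subtype_coe)
      (fun p q h => Subtype.ext (Prod.ext (p.2.trans q.2.symm) h))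
      (fun p q => ⟨fun h => Eq.subst (motive := fun s => E s p.1.2 q.1.2) p.2 h.2, fun h =>
        ⟨p.2.trans q.2.symm, Eq.subst (motive := fun s => E s p.1.2 q.1.2) p.2.symm h⟩⟩)
      (fun _ x _ => ⟨⟨(t, x), rfl⟩, rfl⟩) (f1 n)
    choose u hu hu' using fun n => extend_sub hB (h n).1 hD.1
    refine ⟨u, hu, fun p q hp hpq => (f2 p.2 q.2 (hp ▸ hpq.2)).congr fun n => ?_⟩
    exact ((hu' n ⟨p, hp⟩ ⟨q, hpq.1.symm.trans hp⟩).trans ((h n).2 _ _)).symm

theorem exists_family_eq (e : ℕ × ℕ ≃ ℕ) {α : Ordinal.{0}} (hα : 1 ≤ α)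
    (hα' : α < Ordinal.omega 1) {T : Type*} [TopologicalSpace T] [PolishSpace T]
    [MeasurableSpace T] [BorelSpace T] {A : Set T} (hA : AnalyticSet Aᶜ) :
    ∃ (X : Type) (_ : MeasurableSpace X) (_ : StandardBorelSpace X) (E : T → X → X → Prop),
      MeasurableSet {p : T × X × X | E p.1 p.2.1 p.2.2} ∧ (∀ t, IsCBER (E t)) ∧
        A = {t | IsAlphaAmenable e α (E t)} := by
  obtain ⟨R, R0, R1⟩ : ∃ R : T → (ℕ → ℕ) → Prop, MeasurableSet {p : T × (ℕ → ℕ) | R p.1 p.2} ∧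
      ∀ t, t ∉ A ↔ ∃ z, R t z := by
    rw [AnalyticSet] at hA
    obtain h | ⟨φ, h1, h2⟩ := hA
    · exact ⟨fun _ _ => False, MeasurableSet.empty, fun t =>
        ⟨fun h' => (h ▸ h' : t ∈ (∅ : Set T)).elim, fun ⟨_, h'⟩ => h'.elim⟩⟩
    · exact ⟨fun t z => φ z = t, measurableSet_eq_fun (h1.measurable.comp measurable_snd)
        measurable_fst, fun t => (Set.ext_iff.1 h2 t).symm⟩
  obtain ⟨G, hG, -, hG'⟩ := exists_bad (F := ⊥) (fun _ => ∅) (fun _ => MeasurableSet.empty)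
    (fun _ => by simp) fun _ => eventually_bot
  let E : T → (ℕ → ℕ) × (FreeGroup (Fin 2) → unitInterval) →
      (ℕ → ℕ) × (FreeGroup (Fin 2) → unitInterval) → Prop :=
    fun t p q => p.1 = q.1 ∧ (p.2 = q.2 ∨ R t p.1 ∧ G p.2 q.2)
  have hm : MeasurableSet {p : T × _ × _ | E p.1 p.2.1 p.2.2} :=
    (measurableSet_eq_fun measurable_snd.fst.fst measurable_snd.snd.fst).inter
      ((measurableSet_eq_fun measurable_snd.fst.snd measurable_snd.snd.snd).union
        (((measurable_fst.prodMk measurable_snd.fst.fst) R0).inter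
          ((measurable_snd.fst.snd.prodMk measurable_snd.snd.snd) hG.2.1)))
  have hE : ∀ t, IsCBER (E t) := fun t => by
    refine ⟨⟨fun p => ⟨rfl, Or.inl rfl⟩, fun h => ⟨h.1.symm, h.2.imp Eq.symm fun h' =>
      ⟨h.1 ▸ h'.1, hG.1.symm h'.2⟩⟩, ?_⟩, measurable_prodMk_left hm,
      fun p => Countable.mono (fun q hq => ?_) ((hG.2.2 p.2).image (Prod.mk p.1))⟩
    swap
    · exact ⟨q.2, hq.2.elim (fun h => h ▸ hG.1.refl _) And.right, Prod.ext hq.1 rfl⟩
    rintro p q r ⟨h1, h2⟩ ⟨h3, h4⟩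
    refine ⟨h1.trans h3, ?_⟩
    rcases h2 with h2 | h2 <;> rcases h4 with h4 | h4
    exacts [Or.inl (h2.trans h4), Or.inr ⟨h1 ▸ h4.1, h2 ▸ h4.2⟩, Or.inr ⟨h2.1, h4 ▸ h2.2⟩,
      Or.inr ⟨h2.1, hG.1.trans h2.2 h4.2⟩]
  refine ⟨_, inferInstance, inferInstance, E, hm, hE, Set.ext fun t =>
    Iff.trans ⟨fun ht => ?_, ?_⟩ (alpha_iff e hα hα' (hE t)).symm⟩
  · have h : ∀ p q, E t p q → p = q := fun p q h => Prod.ext h.1
      (h.2.resolve_right fun h' => (R1 t).2 ⟨_, h'.1⟩ ht)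
    refine ⟨fun _ _ _ => 1, fun _ => ⟨measurable_const, fun _ _ _ => zero_le_one, fun p => ?_⟩,
      fun p q _ => by simp [dev]⟩
    exact hasSum_single (f := fun _ => (1 : ℝ)) (⟨p, (hE t).1.refl p⟩ : {q // E t p q})
      fun q hq => (hq (Subtype.ext (h _ _ q.2).symm)).elim
  · rintro ⟨f, f1, f2⟩
    by_contra ht
    obtain ⟨z, hz⟩ := (R1 t).1 ht
    have h1 : ∀ y y', G y y' ↔ E t (z, y) (z, y') := fun y y' =>
      ⟨fun h => ⟨rfl, Or.inr ⟨hz, h⟩⟩, fun h => h.2.elim (fun h : y = y' => h ▸ hG.1.refl _)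
        And.right⟩
    have h := fun n => pull (E' := G) (j := Prod.mk z) measurable_prodMk_left
      (Prod.mk_right_injective z) h1 (fun _ q h => ⟨q.2, Prod.ext h.1 rfl⟩) (f1 n)
    refine hG' ⟨_, fun n => (h n).1.meas, fun n => (h n).1.nonneg, fun n => (h n).1.sum,
      fun x y hxy => ?_⟩
    rw [Nat.cofinite_eq_atTop]
    exact (f2 _ _ ((h1 x y).1 hxy)).congr fun n => ((h n).2 x y).symm

end Pool.Agent.Lib.MP_4ec5c8_lc
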