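import Mathlib

/-!
Definitions for the Fréchet amenability hierarchy of countable Borel equivalence relations.
-/

open Filter Topology

namespace Pool.Agent.Lib.MP_4ec5c8_lc

/-- `E` is a countable Borel equivalence relation on `X`. -/
def IsCBER {X : Type*} [MeasurableSpace X] (E : X → X → Prop) : Prop :=
  Equivalence E ∧ MeasurableSet {p : X × X | E p.1 p.2} ∧ ∀ x, {y | E x y}.Countable

/-- `E` is `F`-amenable: there are Borel maps `f n : E → [0, ∞)` (values of `f n` off `E` play no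
role) with `‖f n x‖₁ = 1` on the class of `x` and `‖f n x - f n y‖₁ → 0` along `F` when `x E y`. -/
def IsAmenableAlong {X : Type*} [MeasurableSpace X] (E : X → X → Prop) (F : Filter ℕ) : Prop :=
  ∃ f : ℕ → X → X → ℝ,
    (∀ n, Measurable fun p : {p : X × X // E p.1 p.2} => f n p.1.1 p.1.2) ∧
    (∀ n x y, E x y → 0 ≤ f n x y) ∧
    (∀ n x, HasSum (fun y : {y // E x y} => f n x y) 1) ∧
    ∀ x y, E x y → Tendsto (fun n => ∑' z : {z // E x z}, |f n x z - f n y z|) F (𝓝 0)

/-- The Fubini product `F ⊗ (G i)`: a set `A` belongs to it iff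
`{i | {j | e (i, j) ∈ A} ∈ G i} ∈ F`. -/
def fubini (e : ℕ × ℕ ≃ ℕ) (F : Filter ℕ) (G : ℕ → Filter ℕ) : Filter ℕ :=
  F.bind fun i => (G i).map fun j => e (i, j)

/-- `IsFr e α F`: the filter `F` is `Fr_α`, for some choice of the sequences at limit stages. -/
inductive IsFr (e : ℕ × ℕ ≃ ℕ) : Ordinal.{0} → Filter ℕ → Prop
  | one : IsFr e 1 cofinite
  | succ (α : Ordinal.{0}) (F : Filter ℕ) :
      IsFr e α F → IsFr e (α + 1) (fubini e cofinite fun _ => F)
  | limit (l : Ordinal.{0}) (a : ℕ → Ordinal.{0}) (G : ℕ → Filter ℕ) :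
      StrictMono a → IsLUB (Set.range a) l → (∀ k, IsFr e (a k) (G k)) →
        IsFr e l (fubini e cofinite G)

/-- `E` is `α`-amenable: it is `Fr_α`-amenable. -/
def IsAlphaAmenable {X : Type*} [MeasurableSpace X] (e : ℕ × ℕ ≃ ℕ) (α : Ordinal.{0})
    (E : X → X → Prop) : Prop :=
  ∃ F : Filter ℕ, IsFr e α F ∧ IsAmenableAlong E F

end Pool.Agent.Lib.MP_4ec5c8_lc
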