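import Mathlib

/-!
Geodesics in the free group and subcritical site percolation on its Cayley tree.
-/

open Set MeasureTheory FreeGroup
open scoped ENNReal

namespace Pool.Agent.Lib.MP_4ec5c8_lc

section Tree

variable {α : Type} [DecidableEq α]

/-- The vertices of the geodesic from `1` to `g` in the Cayley tree (edges `k ~ s * k`). -/
noncomputable def geo (g : FreeGroup α) : Finset (FreeGroup α) :=
  g.toWord.tails.toFinset.preimage toWord toWord_injective.injOn

lemma mem_geo {g h : FreeGroup α} : h ∈ geo g ↔ h.toWord <:+ g.toWord := by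
  simp [geo]

lemma one_mem_geo (g : FreeGroup α) : 1 ∈ geo g := mem_geo.2 (by simp)

lemma self_mem_geo (g : FreeGroup α) : g ∈ geo g := mem_geo.2 List.suffix_rfl

lemma geo_one {v : FreeGroup α} (h : v ∈ geo 1) : v = 1 := by
  simpa using mem_geo.1 h

lemma geo_letter (s : α × Bool) (k : FreeGroup α) {v : FreeGroup α} (hv : v ∈ geo (mk [s] * k)) :
    v = mk [s] * k ∨ v ∈ geo k := by
  have e : (mk [s] * k).toWord = reduce (s :: k.toWord) := by
    conv_lhs => rw [← mk_toWord (x := k), mul_mk, toWord_mk]
    rfl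
  rw [mem_geo, e, reduce.cons, reduce_toWord] at hv
  rw [mem_geo, ← toWord_inj, e, reduce.cons, reduce_toWord]
  cases hk : k.toWord with
  | nil =>
    rw [hk] at hv
    simpa [List.suffix_cons_iff] using hv
  | cons a t =>
    rw [hk] at hv
    dsimp only at hv ⊢
    split_ifs at hv ⊢
    · exact Or.inr (hv.trans (List.suffix_cons _ _))
    · exact List.suffix_cons_iff.1 hv

lemma toWord_of_suffix {g : FreeGroup α} {t : List (α × Bool)} (h : t <:+ g.toWord) :
    (mk t).toWord = t := by
  rw [toWord_mk]
  exact IsReduced.reduce_eq (List.IsChain.suffix isReduced_toWord h)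

lemma geo_ind {P : FreeGroup α → Prop} (h1 : P 1)
    (h2 : ∀ s h, geo h ⊆ geo (mk [s] * h) → P h → P (mk [s] * h)) (g : FreeGroup α) : P g := by
  induction hl : g.toWord generalizing g with
  | nil => rwa [toWord_eq_nil_iff.1 hl]
  | cons s t ih =>
    have e : g = mk [s] * mk t := by rw [mul_mk, ← mk_toWord (x := g), hl]; rfl
    have h3 : (mk t).toWord = t := toWord_of_suffix (g := g) (hl ▸ List.suffix_cons _ _)
    rw [e]
    refine h2 s _ (fun v hv => ?_) (ih _ h3)
    rw [mem_geo, h3] at hv
    rw [← e, mem_geo, hl]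
    exact hv.trans (List.suffix_cons _ _)

lemma geo_mul (h k : FreeGroup α) : ∀ v ∈ geo (h * k), v ∈ geo k ∨ v * k⁻¹ ∈ geo h := by
  induction h using geo_ind with
  | h1 => exact fun v hv => Or.inl (by simpa using hv)
  | h2 s h hs ih =>
    intro v hv
    rw [mul_assoc] at hv
    rcases geo_letter s _ hv with rfl | hv
    · exact Or.inr (by simpa [mul_assoc] using self_mem_geo (mk [s] * h))
    · exact (ih v hv).imp_right fun h' => hs h'

lemma geo_inv (h : FreeGroup α) : ∀ v ∈ geo h⁻¹, v * h ∈ geo h := by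
  induction h using geo_ind with
  | h1 => exact fun v hv => by simpa using hv
  | h2 s h hs ih =>
    intro v hv
    rw [mul_inv_rev] at hv
    rcases geo_mul _ _ v hv with h' | h'
    · have e : (mk [s])⁻¹ = mk [(s.1, !s.2)] * 1 := by rw [mul_one, inv_mk]; rfl
      rw [e] at h'
      rcases geo_letter _ _ h' with rfl | h'
      · rw [← e, inv_mul_cancel_left]
        exact hs (self_mem_geo h)
      · rw [geo_one h', one_mul]
        exact self_mem_geo _
    · rw [inv_inv] at h'
      exact hs (mul_assoc v _ h ▸ ih _ h')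

lemma norm_le_card_geo (g : FreeGroup α) : g.toWord.length ≤ (geo g).card := by
  rw [← Finset.card_range g.toWord.length]
  refine le_trans (Finset.card_le_card (t := (geo g).image fun v => v.toWord.length)
    fun j hj => ?_) Finset.card_image_le
  have h := toWord_of_suffix (List.drop_suffix (g.toWord.length - j) g.toWord)
  refine Finset.mem_image.2 ⟨mk (g.toWord.drop (g.toWord.length - j)), ?_, ?_⟩
  · rw [mem_geo, h]
    exact List.drop_suffix _ _
  · have := Finset.mem_range.1 hj
    rw [h, List.length_drop]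
    omega

end Tree

lemma tsum_pow_length {η : ℝ≥0∞} (hη : 4 * η < 1) :
    ∑' g : FreeGroup (Fin 2), η ^ g.toWord.length ≠ ∞ := by
  refine ne_top_of_le_ne_top ?_ (ENNReal.tsum_comp_le_tsum_of_injective toWord_injective
    fun l : List (Fin 2 × Bool) => η ^ l.length)
  rw [← List.equivSigmaTuple.symm.tsum_eq, ENNReal.tsum_sigma']
  have : ∀ n : ℕ, ∑' b : Fin n → Fin 2 × Bool, η ^ (List.equivSigmaTuple.symm ⟨n, b⟩).length =
      (4 * η) ^ n := fun n => by
    simp [List.equivSigmaTuple, tsum_fintype, mul_pow]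
  simp only [this, ENNReal.tsum_geometric]
  exact ENNReal.inv_ne_top.2 (tsub_pos_of_lt hη).ne'

variable {Z : Type} [MeasurableSpace Z] (ρ : Measure Z) [IsProbabilityMeasure ρ]

/-- Subcritical percolation: almost surely only finitely many geodesics from `1` are open. -/
lemma ae_finite_cluster {O : Set Z} (hO : MeasurableSet O) (h : 4 * ρ O < 1) :
    ∀ᵐ ω ∂Measure.infinitePi fun _ : FreeGroup (Fin 2) => ρ,
      {g | ∀ v ∈ geo g, ω v ∈ O}.Finite := by
  refine ae_finite_setOfPred_mem (s := fun g => {ω : FreeGroup (Fin 2) → Z | ∀ v ∈ geo g, ω v ∈ O})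
    (ne_top_of_le_ne_top (tsum_pow_length h) (ENNReal.tsum_le_tsum fun g => ?_))
  have e : {ω : FreeGroup (Fin 2) → Z | ∀ v ∈ geo g, ω v ∈ O} = Set.pi (geo g) fun _ => O := rfl
  rw [e, Measure.infinitePi_pi _ fun _ _ => hO, Finset.prod_const]
  exact pow_le_pow_right_of_le_one' prob_le_one (norm_le_card_geo g)

lemma ae_injective {Γ : Type} [Countable Γ] [StandardBorelSpace Z] [NullSingletonClass ρ] :
    ∀ᵐ ω ∂Measure.infinitePi fun _ : Γ => ρ, Function.Injective ω := by
  refine ae_all_iff.2 fun a => ae_all_iff.2 fun b => ?_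
  by_cases hab : a = b
  · exact Filter.Eventually.of_forall fun _ _ => hab
  have h1 := (ProbabilityTheory.iIndepFun_infinitePi (P := fun _ : Γ => ρ)
    (X := fun _ z => z) fun _ => measurable_id).indepFun hab
  rw [ProbabilityTheory.indepFun_iff_map_prod_eq_prod_map_map
    (measurable_pi_apply a).aemeasurable (measurable_pi_apply b).aemeasurable,
    Measure.infinitePi_map_eval, Measure.infinitePi_map_eval] at h1
  have h2 : MeasurableSet {p : Z × Z | p.1 = p.2} :=
    measurableSet_eq_fun measurable_fst measurable_snd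
  have h3 : ρ.prod ρ {p : Z × Z | p.1 = p.2} = 0 := by
    rw [Measure.prod_apply h2]
    simp [Set.preimage]
  rw [← h1, Measure.map_apply (by fun_prop) h2] at h3
  filter_upwards [measure_eq_zero_iff_ae_notMem.1 h3] with ω hω h
  exact absurd h hω

lemma shift_preserving {Γ : Type} [Group Γ] (g : Γ) :
    MeasurePreserving (fun (ω : Γ → Z) h => ω (h * g)) (Measure.infinitePi fun _ => ρ)
      (Measure.infinitePi fun _ => ρ) := by
  refine ⟨by fun_prop, ?_⟩
  have := Measure.infinitePi_map_piCongrLeft (fun _ : Γ => ρ) (Equiv.mulRight g⁻¹)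
  convert this using 2
  funext ω h
  simp [MeasurableEquiv.piCongrLeft, Equiv.piCongrLeft_apply]

end Pool.Agent.Lib.MP_4ec5c8_lc
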