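import Pool.Agent.Lib.MP_4ec5c8_lc.MeasB
import Pool.Agent.Lib.MP_4ec5c8_lc.FiltA

/-!
A free measure preserving action of the free group whose orbit relation is amenable along a given
filter, from subcritical percolation.
-/

open Set Filter Topology MeasureTheory FreeGroup unitInterval
open scoped ENNReal

namespace Pool.Agent.Lib.MP_4ec5c8_lc

/-- Borel choice functions that agree eventually along `F` give amenability along `F`. -/
lemma amenable_of_choice {X : Type} [MeasurableSpace X] {E : X → X → Prop} {F : Filter ℕ}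
    (Q : ℕ → X → X → Prop) (h1 : ∀ n, Measurable fun p : X × X => Q n p.1 p.2)
    (h2 : ∀ n x, ∃! y, Q n x y) (h3 : ∀ n x y, Q n x y → E x y)
    (h4 : ∀ x y, E x y → ∀ᶠ n in F, ∀ z, Q n x z ↔ Q n y z) : IsAmenableAlong E F := by
  classical
  refine ⟨fun n x y => if Q n x y then 1 else 0, fun n => ?_, fun n x y _ => by positivity,
    fun n x => ?_, fun x y hxy => ?_⟩
  · exact Measurable.ite (measurableSet_setOfPred.2 ((h1 n).comp measurable_subtype_coe))
      measurable_const measurable_const
  · obtain ⟨y, hy, hy'⟩ := h2 n x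
    have e : ∀ z : {y // E x y}, Q n x z ↔ z = ⟨y, h3 n x y hy⟩ := fun z =>
      ⟨fun h => Subtype.ext (hy' _ h), fun h => h ▸ hy⟩
    simp only [e]
    convert hasSum_ite_eq (⟨y, h3 n x y hy⟩ : {y // E x y}) (1 : ℝ)
  · refine tendsto_const_nhds.congr' ((h4 x y hxy).mono fun n hn => ?_)
    simp [hn]

/-- The orbit relation of a free measure preserving action of `F₂` is not amenable. -/
lemma not_amenable {X : Type} [MeasurableSpace X] [StandardBorelSpace X] {E : X → X → Prop}
    (hE : IsCBER E) (μ : Measure X) [IsProbabilityMeasure μ] (L : FreeGroup (Fin 2) → X → X)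
    (hL : ∀ g, MeasurePreserving (L g) μ μ) (hm : ∀ g k x, L g (L k x) = L (g * k) x)
    (hY : ∀ᵐ x ∂μ, (Function.Injective fun g => L g x) ∧ ∀ y, E x y ↔ ∃ g, L g x = y) :
    ¬ IsAmenableAlong E cofinite := by
  classical
  rintro ⟨f, f1, f2, f3, f4⟩
  obtain ⟨g, g0, g1, g2⟩ := exists_enum hE.1.refl hE.2.1 hE.2.2
  have hA : ∀ n, Assign E (f n) := fun n => ⟨f1 n, f2 n, f3 n⟩
  let T : Fin 2 × Bool → X → X → Prop := fun w x z => ∃ k, k⁻¹ ∈ startsWith w ∧ L k x = z
  have hT : ∀ w (a b : X → X), Measurable a → Measurable b → MeasurableSet {x | T w (a x) (b x)} :=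
    fun w a b ha hb => measurableSet_setOfPred.2 (Measurable.exists fun k => measurable_const.and
      (measurableSet_setOfPred.1 (measurableSet_eq_fun ((hL k).measurable.comp ha) hb)))
  let m : ℕ → Fin 2 × Bool → X → ℝ := fun n w x =>
    ∑' z : {z // E x z}, if T w x z then f n x z else 0
  have hf : ∀ n (a b : X → X), Measurable a → Measurable b → (∀ x, E (a x) (b x)) →
      Measurable fun x => f n (a x) (b x) := fun n a b ha hb hab =>
    (f1 n).comp (f := fun x => (⟨(a x, b x), hab x⟩ : {p : X × X // E p.1 p.2}))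
      (ha.prodMk hb).subtype_mk
  have m0 : ∀ n w, Measurable (m n w) := fun n w =>
    measurable_tsum_class g0 g1 g2 (φ := fun x z => if T w x z then f n x z else 0) fun k =>
      Measurable.ite (hT w id _ measurable_id (g0 k)) (hf n id _ measurable_id (g0 k) (g1 k))
        measurable_const
  have il : ∀ (P : Prop) (a : ℝ), 0 ≤ a → (if P then a else 0) ≤ a := fun P a ha => by
    split_ifs
    exacts [le_rfl, ha]
  have ms : ∀ n (P : X → Prop) x y, E x y →
      Summable fun z : {z // E x z} => if P z then f n y z else 0 := fun n P x y hxy =>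
    ((hA n).sum' hE.1 hxy).summable.of_nonneg_of_le
      (fun z => ite_nonneg ((hA n).nonneg' hE.1 hxy z) le_rfl)
      fun z => il _ _ ((hA n).nonneg' hE.1 hxy z)
  have m1 : ∀ n w x, 0 ≤ m n w x := fun n w x =>
    tsum_nonneg fun z => ite_nonneg (f2 n x z z.2) le_rfl
  have m2 : ∀ n w x, m n w x ≤ 1 := fun n w x => hasSum_le
    (fun z : {z // E x z} => il _ _ (f2 n x z z.2))
      (ms n _ x x (hE.1.refl x)).hasSum (f3 n x)
  have mi : ∀ n w, Integrable (m n w) μ := fun n w =>
    (integrable_const (1 : ℝ)).mono' (m0 n w).aestronglyMeasurable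
      (Eventually.of_forall fun x => by rw [Real.norm_eq_abs, abs_of_nonneg (m1 n w x)]; exact m2 ..)
  -- the four pieces are disjoint
  have m3 : ∀ n, ∑ w, ∫ x, m n w x ∂μ ≤ 1 := fun n => by
    rw [← integral_finsetSum _ fun w _ => mi n w]
    refine (integral_mono_ae (integrable_finsetSum _ fun w _ => mi n w) (integrable_const 1)
      (hY.mono fun x hx => ?_)).trans_eq (by simp)
    refine hasSum_le (fun z => ?_)
      (hasSum_sum fun w _ => (ms n (T w x) x x (hE.1.refl x)).hasSum) (f3 n x)
    by_cases h : ∃ w, T w x z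
    · obtain ⟨w, hw⟩ := h
      rw [Finset.sum_eq_single w (fun w' _ hw' => if_neg fun h' => hw' ?_) (by simp), if_pos hw]
      obtain ⟨k, k1, k2⟩ := hw
      obtain ⟨k', k3, k4⟩ := h'
      obtain rfl : k = k' := hx.1 (k2.trans k4.symm)
      exact Option.some.inj (k3.symm.trans k1)
    · rw [Finset.sum_eq_zero fun w _ => if_neg fun h' => h ⟨w, h'⟩]
      exact f2 n x z z.2
  -- each pair of pieces covers
  let s : Fin 2 → X → X := fun i x => if E x (L (of i) x) then L (of i) x else x
  have s0 : ∀ i, Measurable (s i) := fun i => Measurable.ite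
    ((measurable_id.prodMk (hL _).measurable) hE.2.1) (hL _).measurable measurable_id
  have s1 : ∀ i x, E x (s i x) := fun i x => by
    simp only [s]
    split_ifs with h
    exacts [h, hE.1.refl x]
  have d0 : ∀ n i, Measurable fun x => dev E (f n) x (s i x) := fun n i =>
    measurable_tsum_class g0 g1 g2 (φ := fun x z => |f n x z - f n (s i x) z|) fun k =>
      ((hf n id _ measurable_id (g0 k) (g1 k)).sub (hf n _ _ (s0 i) (g0 k) fun x =>
        hE.1.trans (hE.1.symm (s1 i x)) (g1 k x))).abs
  have db : ∀ n i, ∀ᵐ x ∂μ, ‖dev E (f n) x (s i x)‖ ≤ 2 := fun n i =>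
    Eventually.of_forall fun x => by
      rw [Real.norm_eq_abs, abs_of_nonneg (dev_nonneg _ _ _)]
      exact (hA n).dev_le_two hE.1 (s1 i x)
  have m4 : ∀ n i, 1 ≤ ∫ x, m n (i, true) x ∂μ + ∫ x, m n (i, false) x ∂μ +
      ∫ x, dev E (f n) x (s i x) ∂μ := fun n i => by
    have di : Integrable (fun x => dev E (f n) x (s i x)) μ :=
      (integrable_const (2 : ℝ)).mono' (d0 n i).aestronglyMeasurable (db n i)
    have li := (hL (of i)).integrable_comp_of_integrable (mi n (i, true))
    have e : ∫ x, m n (i, true) x ∂μ = ∫ x, (m n (i, true) ∘ L (of i)) x ∂μ := by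
      conv_lhs => rw [← (hL (of i)).map_eq]
      exact integral_map (hL _).measurable.aemeasurable (m0 _ _).aestronglyMeasurable
    rw [e, ← integral_add' li (mi _ _), ← integral_add' (li.add (mi _ _)) di]
    refine le_trans (by simp) (integral_mono_ae (integrable_const 1)
      ((li.add (mi _ _)).add di) (hY.mono fun x hx => ?_))
    have hxy : E x (L (of i) x) := (hx.2 _).2 ⟨_, rfl⟩
    have e1 : s i x = L (of i) x := if_pos hxy
    have e2 : E (L (of i) x) = E x := funext fun z => propext
      ⟨fun h => hE.1.trans hxy h, fun h => hE.1.trans (hE.1.symm hxy) h⟩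
    have e3 : m n (i, true) (L (of i) x) = ∑' z : {z // E x z},
        if T (i, true) (L (of i) x) z then f n (L (of i) x) z else 0 := by
      simp only [m]
      rw [e2]
    simp only [Function.comp, Pi.add_apply, e1, e3]
    refine hasSum_le (fun z => ?_) (f3 n x) (((ms n _ x _ hxy).hasSum.add
      (ms n (T (i, false) x) x x (hE.1.refl x)).hasSum).add
        ((f3 n x).summable.sub ((hA n).sum' hE.1 hxy).summable).abs.hasSum)
    have a1 := f2 n x z z.2
    have a2 := (hA n).nonneg' hE.1 hxy z
    have a3 := le_abs_self (f n x z - f n (L (of i) x) z)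
    have a4 := abs_nonneg (f n x z - f n (L (of i) x) z)
    by_cases h : T (i, false) x z
    · rw [if_pos h]
      split_ifs <;> linarith
    · obtain ⟨k, hk⟩ := (hx.2 _).1 z.2
      have : T (i, true) (L (of i) x) z := ⟨k * (of i)⁻¹, by
        simpa [FreeGroup.of] using startsWith_mk_mul (w := (i, true)) k⁻¹ fun h' => h ⟨k, h', hk⟩,
        by rw [hm, inv_mul_cancel_right, hk]⟩
      rw [if_pos this, if_neg h]
      linarith
  have lim : ∀ i, Tendsto (fun n => ∫ x, dev E (f n) x (s i x) ∂μ) atTop (𝓝 0) := fun i => by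
    have := tendsto_integral_of_dominated_convergence (f := fun _ => (0 : ℝ)) (fun _ => (2 : ℝ))
      (fun n => (d0 n i).aestronglyMeasurable) (integrable_const _) (fun n => db n i)
      (Eventually.of_forall fun x => Nat.cofinite_eq_atTop ▸ f4 x _ (s1 i x))
    rwa [integral_zero] at this
  obtain ⟨n, h0, h1⟩ := (((lim 0).eventually (gt_mem_nhds (show (0 : ℝ) < 1 / 2 by norm_num))).and
    ((lim 1).eventually (gt_mem_nhds (show (0 : ℝ) < 1 / 2 by norm_num)))).exists
  have := m3 n
  rw [Fintype.sum_prod_type, Fin.sum_univ_two, Fintype.sum_bool, Fintype.sum_bool] at this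
  linarith [m4 n 0, m4 n 1]

end Pool.Agent.Lib.MP_4ec5c8_lc
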