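import Pool.Agent.Lib.MP_4ec5c8_lc.FiltB

/-!
The filters along which amenability of countable Borel equivalence relations is the usual notion.
-/

open Set Filter Topology MeasureTheory FreeGroup unitInterval
open scoped ENNReal

namespace Pool.Agent.Lib.MP_4ec5c8_lc

/-- If small Borel sets `O n` catch every point eventually along `F`, the Bernoulli shift of `F₂`
is `F`-amenable on an invariant conull set. -/
lemma exists_bad {F : Filter ℕ} (O : ℕ → Set I) (hO : ∀ n, MeasurableSet (O n))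
    (h4 : ∀ n, 4 * volume (O n) < 1) (hF : ∀ t, ∀ᶠ n in F, t ∈ O n) :
    ∃ E : (FreeGroup (Fin 2) → I) → (FreeGroup (Fin 2) → I) → Prop,
      IsCBER E ∧ IsAmenableAlong E F ∧ ¬ IsAmenableAlong E cofinite := by
  classical
  let μ : Measure (FreeGroup (Fin 2) → I) := Measure.infinitePi fun _ => volume
  let L : FreeGroup (Fin 2) → (FreeGroup (Fin 2) → I) → FreeGroup (Fin 2) → I :=
    fun g ω h => ω (h * g)
  have hL : ∀ g, MeasurePreserving (L g) μ μ := shift_preserving volume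
  have hm : ∀ g k x, L g (L k x) = L (g * k) x := fun g k x => funext fun h => by
    simp [L, mul_assoc]
  have h1 : ∀ x, L 1 x = x := fun x => funext fun h => by simp [L]
  let C : ℕ → (FreeGroup (Fin 2) → I) → FreeGroup (Fin 2) → Prop :=
    fun n ω g => ∀ v ∈ geo g, ω v ∈ O n
  obtain ⟨N, N1, N2, N3⟩ := exists_measurable_superset_of_null (μ := μ)
    (s := {ω | ¬ (Function.Injective ω ∧ ∀ n, {g | C n ω g}.Finite)})
    (ae_iff.1 ((ae_injective volume).and
      (ae_all_iff.2 fun n => ae_finite_cluster volume (hO n) (h4 n))))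
  let Y : (FreeGroup (Fin 2) → I) → Prop := fun ω => ∀ a, L a ω ∉ N
  have Y0 : Measurable Y := Measurable.forall fun a =>
    (measurableSet_setOfPred.1 ((hL a).measurable N2)).not
  have Y1 : ∀ᵐ ω ∂μ, Y ω := ae_all_iff.2 fun a =>
    (hL a).quasiMeasurePreserving.ae (measure_eq_zero_iff_ae_notMem.1 N3)
  have Y2 : ∀ g ω, Y ω → Y (L g ω) := fun g ω h a => hm a g ω ▸ h _
  have Y3 : ∀ ω, Y ω → Function.Injective ω ∧ ∀ n, {g | C n ω g}.Finite := fun ω h =>
    by_contra fun h' => h 1 ((h1 ω).symm ▸ N1 h')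
  let E : (FreeGroup (Fin 2) → I) → (FreeGroup (Fin 2) → I) → Prop :=
    fun x y => y = x ∨ Y x ∧ ∃ g, L g x = y
  have eqm : ∀ a b : (FreeGroup (Fin 2) → I) × (FreeGroup (Fin 2) → I) → FreeGroup (Fin 2) → I,
      Measurable a → Measurable b → Measurable fun p => a p = b p := fun a b ha hb =>
    measurableSet_setOfPred.1 (measurableSet_eq_fun ha hb)
  have hE : IsCBER E := by
    refine ⟨⟨fun x => Or.inl rfl, ?_, ?_⟩, measurableSet_setOfPred.2 ?_, fun x => ?_⟩
    · rintro x y (rfl | ⟨h, g, rfl⟩)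
      · exact Or.inl rfl
      · exact Or.inr ⟨Y2 _ _ h, g⁻¹, by rw [hm, inv_mul_cancel, h1]⟩
    · rintro x y z (rfl | ⟨h, g, rfl⟩) h'
      · exact h'
      · rcases h' with rfl | ⟨-, k, rfl⟩
        exacts [Or.inr ⟨h, g, rfl⟩, Or.inr ⟨h, k * g, (hm ..).symm⟩]
    · exact (eqm _ _ measurable_snd measurable_fst).or ((Y0.comp measurable_fst).and
        (Measurable.exists fun g => eqm _ _ ((hL g).measurable.comp measurable_fst) measurable_snd))
    · refine ((countable_range fun g => L g x).insert x).mono ?_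
      rintro y (rfl | ⟨-, g, rfl⟩)
      exacts [Or.inl rfl, Or.inr ⟨g, rfl⟩]
  refine ⟨E, hE, ?_, not_amenable hE μ L hL hm (Y1.mono fun x hx => ⟨fun g k h => ?_,
    fun y => ⟨?_, fun h => Or.inr ⟨hx, h⟩⟩⟩)⟩
  · have C0 : ∀ n g, Measurable fun ω => C n ω g := fun n g =>
      Measurable.forall fun v => measurable_const.imp
        (measurableSet_setOfPred.1 (measurable_pi_apply v (hO n)))
    have C1 : ∀ n ω g, C n ω g → C n ω 1 := fun n ω g h v hv =>
      geo_one hv ▸ h 1 (one_mem_geo g)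
    have C2 : ∀ n ω k, C n ω k → ∀ h, C n (L k ω) h ↔ C n ω (h * k) := fun n ω k hk h => by
      refine ⟨fun H v hv => (geo_mul h k v hv).elim (hk v) fun h' => ?_, fun H v hv => ?_⟩
      · simpa [L] using H _ h'
      · rcases geo_mul (h * k) k⁻¹ v (by simpa using hv) with h' | h'
        · exact hk _ (geo_inv k v h')
        · exact H _ (by simpa using h')
    let P : ℕ → (FreeGroup (Fin 2) → I) → FreeGroup (Fin 2) → Prop :=
      fun n ω g => C n ω g ∧ ∀ h, C n ω h → ω g ≤ ω h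
    have P2 : ∀ n ω k, C n ω k → ∀ h, P n (L k ω) h ↔ P n ω (h * k) := fun n ω k hk h =>
      and_congr (C2 n ω k hk h) ⟨fun H h' hh => by
        simpa [L] using H (h' * k⁻¹) ((C2 n ω k hk _).2 (by simpa using hh)),
        fun H h' hh => H _ ((C2 n ω k hk _).1 hh)⟩
    refine amenable_of_choice
      (fun n x y => (Y x ∧ ∃ g, P n x g ∧ L g x = y) ∨ ¬ (Y x ∧ C n x 1) ∧ y = x)
      (fun n => ?_) (fun n x => ?_) ?_ ?_
    · refine ((Y0.comp measurable_fst).and (Measurable.exists fun g => Measurable.and ?_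
        (eqm _ _ ((hL g).measurable.comp measurable_fst) measurable_snd))).or
        ((((Y0.and (C0 n 1)).comp measurable_fst).not).and (eqm _ _ measurable_snd measurable_fst))
      exact ((C0 n g).and (Measurable.forall fun h => (C0 n h).imp (measurableSet_setOfPred.1
        (measurableSet_le (measurable_pi_apply g) (measurable_pi_apply h))))).comp measurable_fst
    · by_cases h : Y x ∧ C n x 1
      · obtain ⟨g, g1, g2⟩ := exists_min_image _ x ((Y3 x h.1).2 n) ⟨1, h.2⟩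
        refine ⟨L g x, Or.inl ⟨h.1, g, ⟨g1, g2⟩, rfl⟩, ?_⟩
        rintro y (⟨-, k, ⟨k1, k2⟩, rfl⟩ | ⟨h', -⟩)
        · rw [(Y3 x h.1).1 (le_antisymm (k2 g g1) (g2 k k1))]
        · exact absurd h h'
      · refine ⟨x, Or.inr ⟨h, rfl⟩, ?_⟩
        rintro y (⟨h', k, ⟨k1, -⟩, -⟩ | ⟨-, h'⟩)
        exacts [absurd ⟨h', C1 _ _ _ k1⟩ h, h']
    · rintro n x y (⟨h, g, -, h'⟩ | ⟨-, h⟩)
      exacts [Or.inr ⟨h, g, h'⟩, Or.inl h]
    · rintro x y (rfl | ⟨h, k, rfl⟩)
      · exact Eventually.of_forall fun _ _ => Iff.rfl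
      · filter_upwards [(eventually_all_finset (geo k)).2 fun v _ => hF (x v)] with n hn z
        have a1 : Y x ∧ C n x 1 := ⟨h, C1 n x k hn⟩
        have a2 : Y (L k x) ∧ C n (L k x) 1 := ⟨Y2 _ _ h, (C2 n x k hn 1).2 (by rwa [one_mul])⟩
        simp only [a1, a2, and_self, not_true, false_and, or_false, true_and]
        refine ⟨fun ⟨g, g1, g2⟩ => ⟨g * k⁻¹, (P2 n x k hn _).2 (by simpa using g1), ?_⟩,
          fun ⟨g, g1, g2⟩ => ⟨g * k, (P2 n x k hn _).1 g1, hm g k x ▸ g2⟩⟩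
        rw [hm, inv_mul_cancel_right, g2]
  · simpa [L] using (Y3 x hx).1 (congrFun h 1)
  · rintro (rfl | ⟨-, h⟩)
    exacts [⟨1, h1 _⟩, h]

/-- Amplification: sets of measure bounded below are replaced by sets of almost full measure. -/
lemma amplify {F : Filter ℕ} (B : ℕ → Set I) (hB : ∀ n, MeasurableSet (B n))
    (hF : ∀ t, ∀ᶠ n in F, t ∉ B n) (h : ⨅ n, volume (B n) ≠ 0) :
    ∃ O : ℕ → Set I, (∀ n, MeasurableSet (O n)) ∧ (∀ n, 4 * volume (O n) < 1) ∧
      ∀ t, ∀ᶠ n in F, t ∈ O n := by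
  obtain ⟨k, hk⟩ := ((ENNReal.tendsto_pow_atTop_nhds_zero_of_lt_one
    (ENNReal.sub_lt_self ENNReal.one_ne_top one_ne_zero h)).eventually
      (gt_mem_nhds (show (0 : ℝ≥0∞) < 4⁻¹ by simp))).exists
  obtain ⟨φ, φ0, φ1⟩ := (Measure.pi fun _ : Fin k => (volume : Measure I)).exists_measurable_map_eq
  have hm : ∀ n, MeasurableSet (univ.pi fun _ : Fin k => (B n)ᶜ) := fun n =>
    MeasurableSet.univ_pi fun _ => (hB n).compl
  refine ⟨fun n => φ ⁻¹' univ.pi fun _ => (B n)ᶜ, fun n => φ0 (hm n), fun n => ?_, fun t => ?_⟩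
  · rw [← Measure.map_apply φ0 (hm n), φ1, Measure.pi_pi, Finset.prod_const, Finset.card_univ,
      Fintype.card_fin, prob_compl_eq_one_sub (hB n)]
    calc 4 * (1 - volume (B n)) ^ k ≤ 4 * (1 - ⨅ n, volume (B n)) ^ k := by
          gcongr
          exact iInf_le _ n
      _ < 4 * 4⁻¹ := by gcongr; simp
      _ = 1 := ENNReal.mul_inv_cancel (by simp) (by simp)
  · filter_upwards [eventually_all.2 fun i => hF (φ t i)] with n hn i _ using hn i

lemma amenable_of_small {X : Type*} [MeasurableSpace X] [StandardBorelSpace X] {E : X → X → Prop}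
    (hE : IsCBER E) {F : Filter ℕ} (hW : ∀ B : ℕ → Set I, (∀ n, MeasurableSet (B n)) →
      (∀ t, ∀ᶠ n in F, t ∉ B n) → ⨅ n, volume (B n) = 0) (h : IsAmenableAlong E F) :
    IsAmenableAlong E cofinite := by
  obtain ⟨f, f1, f2, f3, f4⟩ := h
  obtain ⟨g, g0, g1, g2⟩ := exists_enum hE.1.refl hE.2.1 hE.2.2
  have hA : ∀ n, Assign E (f n) := fun n => ⟨f1 n, f2 n, f3 n⟩
  refine amenable_of_ae hE fun ν _ => ?_
  have : Nonempty X := nonempty_of_isProbabilityMeasure ν
  obtain ⟨φ, φ0, φ1⟩ := ν.exists_measurable_map_eq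
  let S : ℕ → ℕ → Set X := fun k n =>
    ⋃ m ∈ Finset.range k, {x | 1 / (k + 1 : ℝ) ≤ dev E (f n) x (g m x)}
  have S0 : ∀ k n, MeasurableSet (S k n) := fun k n => Finset.measurableSet_biUnion _ fun m _ =>
    measurableSet_le measurable_const ((dev_meas hE.1 g0 g1 g2 (hA n)).comp measurable_prodMk_left)
  have S1 : ∀ k, ∃ n, ν (S k n) < 2⁻¹ ^ k := fun k => by
    have := hW (fun n => φ ⁻¹' S k n) (fun n => φ0 (S0 k n)) fun t => by
      filter_upwards [(eventually_all_finset (Finset.range k)).2 fun m _ =>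
        (f4 _ _ (g1 m (φ t))).eventually (gt_mem_nhds (show (0 : ℝ) < 1 / (k + 1) by positivity))]
        with n hn h
      obtain ⟨m, hm, h⟩ := mem_iUnion₂.1 h
      exact absurd (hn m hm) (not_lt.2 h)
    obtain ⟨n, hn⟩ := iInf_lt_iff.1 (this.trans_lt (ENNReal.pow_pos (a := 2⁻¹) (by simp) k))
    exact ⟨n, by rwa [← φ1, Measure.map_apply φ0 (S0 k n)]⟩
  choose n hn using S1
  refine ⟨{x | ∀ᶠ k in atTop, x ∉ S k (n k)}, ae_eventually_notMem (ne_top_of_le_ne_top
    (by simp [ENNReal.tsum_geometric]) (ENNReal.tsum_le_tsum fun k => (hn k).le)),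
    fun k => f (n k), fun k => hA _, fun x hx y _ hxy => ?_⟩
  obtain ⟨m, rfl⟩ := g2 x y hxy
  refine squeeze_zero' (Eventually.of_forall fun _ => dev_nonneg _ _ _) ?_
    tendsto_one_div_add_atTop_nhds_zero_nat
  filter_upwards [hx, eventually_gt_atTop m] with k h1 h2
  exact le_of_not_ge fun h => h1 (mem_iUnion₂.2 ⟨m, Finset.mem_range.2 h2, h⟩)

theorem filter_criterion (e : ℕ × ℕ ≃ ℕ) {α : Ordinal.{0}} (hα : 1 ≤ α) (hα' : α < Ordinal.omega 1)
    {F : Filter ℕ} (hF : F ≤ cofinite) :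
    (∀ (X : Type) [MeasurableSpace X] [StandardBorelSpace X] (E : X → X → Prop), IsCBER E →
      (IsAmenableAlong E F ↔ IsAlphaAmenable e α E)) ↔
    ∀ B : ℕ → Set I, (∀ n, MeasurableSet (B n)) → (∀ t, ∀ᶠ n in F, t ∉ B n) →
      ⨅ n, volume (B n) = 0 := by
  refine ⟨fun H B hB hBF => by_contra fun h => ?_, fun hW X _ _ E hE => ⟨fun h => ?_, ?_⟩⟩
  · obtain ⟨O, h1, h2, h3⟩ := amplify B hB hBF h
    obtain ⟨E, h4, h5, h6⟩ := exists_bad O h1 h2 h3
    obtain ⟨G, hG, h7⟩ := (H _ E h4).1 h5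
    exact h6 (amenable_of_isFr h4 hG h7)
  · obtain ⟨G, hG⟩ := exists_isFr e α hα hα'
    exact ⟨G, hG, isFr_amenable hG (amenable_of_small hE hW h)⟩
  · rintro ⟨G, hG, h⟩
    obtain ⟨f, f1, f2, f3, f4⟩ := amenable_of_isFr hE hG h
    exact ⟨f, f1, f2, f3, fun x y hxy => (f4 x y hxy).mono_left hF⟩

end Pool.Agent.Lib.MP_4ec5c8_lc
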