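import Mathlib

/-!
Square summable families: convex combinations with rational weights.
-/

set_option autoImplicit false

namespace Pool.Agent.Lib.MP_4ec5c8_lc

variable {ι W : Type*}

/-- The combination of the vectors `v w` with the weights of the list. -/
def ev (v : W → ι → ℝ) (L : List (ℚ × W)) (z : ι) : ℝ :=
  (L.map fun p => (p.1 : ℝ) * v p.2 z).sum

/-- The total weight. -/
def wt (L : List (ℚ × W)) : ℚ := (L.map Prod.fst).sum

lemma ev_cons (v : W → ι → ℝ) (p : ℚ × W) (L : List (ℚ × W)) (z : ι) :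
    ev v (p :: L) z = p.1 * v p.2 z + ev v L z := by simp [ev]

lemma wt_cons (p : ℚ × W) (L : List (ℚ × W)) : wt (p :: L) = p.1 + wt L := by simp [wt]

lemma hasSum_of_eq {f g : ι → ℝ} {s : ℝ} (h : HasSum f s) (e : ∀ z, g z = f z) : HasSum g s :=
  (funext e : g = f) ▸ h

lemma ev_ip_one {v : W → ι → ℝ} {S : Set W} {δ : ℝ} {a : ι → ℝ} {c : ℝ}
    (hv : ∀ w ∈ S, ∃ s, HasSum (fun z => a z * v w z) s ∧ δ * c ≤ s ∧ s ≤ c)
    (L : List (ℚ × W)) (hL : ∀ p ∈ L, 0 ≤ p.1 ∧ p.2 ∈ S) :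
    ∃ s, HasSum (fun z => a z * ev v L z) s ∧ δ * (c * wt L) ≤ s ∧ s ≤ c * wt L := by
  induction L with
  | nil => exact ⟨0, by simp [ev, hasSum_zero], by simp [wt], by simp [wt]⟩
  | cons p L ih =>
    obtain ⟨s, h1, h2, h3⟩ := ih fun q hq => hL q (List.mem_cons_of_mem _ hq)
    obtain ⟨h4, h5⟩ := hL p List.mem_cons_self
    obtain ⟨s', h6, h7, h8⟩ := hv _ h5
    have h9 : (0 : ℝ) ≤ p.1 := by exact_mod_cast h4
    refine ⟨p.1 * s' + s, hasSum_of_eq ((h6.mul_left (p.1 : ℝ)).add h1) fun z => ?_, ?_, ?_⟩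
    · rw [ev_cons]
      ring
    · rw [wt_cons]
      push_cast
      nlinarith [mul_le_mul_of_nonneg_left h7 h9]
    · rw [wt_cons]
      push_cast
      nlinarith [mul_le_mul_of_nonneg_left h8 h9]

lemma ev_ip {v : W → ι → ℝ} {S : Set W} {δ : ℝ}
    (hv : ∀ w ∈ S, ∀ w' ∈ S, ∃ s, HasSum (fun z => v w z * v w' z) s ∧ δ ≤ s ∧ s ≤ 1)
    {L L' : List (ℚ × W)} (hL : ∀ p ∈ L, 0 ≤ p.1 ∧ p.2 ∈ S) (hL' : ∀ p ∈ L', 0 ≤ p.1 ∧ p.2 ∈ S)
    (e : wt L = 1) (e' : wt L' = 1) :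
    ∃ s, HasSum (fun z => ev v L z * ev v L' z) s ∧ δ ≤ s ∧ s ≤ 1 := by
  have h := ev_ip_one (v := v) (S := S) (δ := δ) (a := ev v L) (c := 1) (fun w hw => by
    obtain ⟨s, h1, h2, h3⟩ := ev_ip_one (v := v) (S := S) (δ := δ) (a := v w) (c := 1)
      (fun w' hw' => by simpa using hv w hw w' hw') L hL
    rw [e] at h2 h3
    exact ⟨s, hasSum_of_eq h1 fun z => mul_comm _ _, by simpa using h2, by simpa using h3⟩) L' hL'
  rw [e'] at h
  simpa using h

lemma sqrt_ip {a b : ι → ℝ} (ha0 : ∀ z, 0 ≤ a z) (hb0 : ∀ z, 0 ≤ b z) (ha : HasSum a 1)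
    (hb : HasSum b 1) : ∃ s, HasSum (fun z => √(a z) * √(b z)) s ∧
      max 0 (1 - (∑' z, |a z - b z|) / 2) ≤ s ∧ s ≤ 1 := by
  have h1 : HasSum (fun z => (a z + b z) / 2) 1 := by
    simpa using (ha.add hb).div_const 2
  have h2 : ∀ z, √(a z) * √(b z) ≤ (a z + b z) / 2 := fun z => by
    nlinarith [sq_nonneg (√(a z) - √(b z)), Real.mul_self_sqrt (ha0 z), Real.mul_self_sqrt (hb0 z)]
  have h3 : ∀ z, 0 ≤ √(a z) * √(b z) := fun z => by positivity
  have h4 := (Summable.of_nonneg_of_le h3 h2 h1.summable).hasSum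
  refine ⟨_, h4, max_le (tsum_nonneg h3) ?_, hasSum_le h2 h4 h1⟩
  refine hasSum_le (fun z => ?_) (h1.sub ((ha.summable.sub hb.summable).abs.hasSum.div_const 2)) h4
  have h5 := Real.mul_self_sqrt (ha0 z)
  have h6 := Real.mul_self_sqrt (hb0 z)
  rcases le_total (a z) (b z) with h | h
  · rw [abs_of_nonpos (sub_nonpos.2 h)]
    nlinarith [mul_le_mul_of_nonneg_left (Real.sqrt_le_sqrt h) (Real.sqrt_nonneg (a z))]
  · rw [abs_of_nonneg (sub_nonneg.2 h)]
    nlinarith [mul_le_mul_of_nonneg_left (Real.sqrt_le_sqrt h) (Real.sqrt_nonneg (b z))]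

lemma dev_sq {a b : ι → ℝ} {A B C δ t Λ : ℝ} (hA : HasSum (fun z => a z * a z) A)
    (hB : HasSum (fun z => b z * b z) B) (hC : HasSum (fun z => a z * b z) C) (hδ : 0 < δ)
    (a1 : δ ≤ A) (a2 : A ≤ Λ) (b1 : δ ≤ B) (b2 : B ≤ Λ) (ht : 0 < t) :
    ∑' z, |a z * a z / A - b z * b z / B| ≤ ((A + B - 2 * C) / t + 4 * t * Λ) / δ := by
  have hA0 : 0 < A := hδ.trans_le a1
  have hB0 : 0 < B := hδ.trans_le b1
  have hD : HasSum (fun z => (a z - b z) ^ 2) (A + B - 2 * C) :=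
    hasSum_of_eq ((hA.add hB).sub (hC.mul_left 2)) fun z => by ring
  obtain ⟨e, he⟩ : ∃ e, e = (A + B - 2 * C) / (2 * t) + t * (A + B) := ⟨_, rfl⟩
  have h1 : HasSum (fun z => (a z - b z) ^ 2 / (2 * t) + t * (a z * a z + b z * b z)) e :=
    he ▸ (hD.div_const _).add ((hA.add hB).mul_left t)
  have h2 : ∀ z, |a z * a z - b z * b z| ≤
      (a z - b z) ^ 2 / (2 * t) + t * (a z * a z + b z * b z) := fun z => by
    have e1 : ∀ u w : ℝ, u * w ≤ u ^ 2 / (2 * t) + t * w ^ 2 / 2 := fun u w => by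
      rw [← sub_nonneg, show u ^ 2 / (2 * t) + t * w ^ 2 / 2 - u * w = (u - t * w) ^ 2 / (2 * t) by
        field_simp; ring]
      positivity
    have e2 := e1 (a z - b z) (a z + b z)
    have e3 := e1 (a z - b z) (-(a z + b z))
    have e4 := mul_nonneg ht.le (sq_nonneg (a z - b z))
    rw [abs_le]
    constructor <;> nlinarith
  have h3 : |B - A| ≤ e := by
    rw [abs_le]
    constructor
    · have := hasSum_le (fun z => (le_abs_self _).trans (h2 z)) (hA.sub hB) h1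
      linarith
    · exact hasSum_le (fun z => by linarith [neg_abs_le (a z * a z - b z * b z), h2 z])
        (hB.sub hA) h1
  have h4 := hasSum_le (fun z => ?_)
    ((hA.div_const A).summable.sub (hB.div_const B).summable).abs.hasSum
    ((h1.div_const A).add (hB.mul_left (|B - A| / (A * B))))
  · refine h4.trans ?_
    have h5 : 0 ≤ e := (abs_nonneg _).trans h3
    have h6 : |B - A| / (A * B) * B = |B - A| / A := by field_simp
    have h7 : 2 * e ≤ (A + B - 2 * C) / t + 4 * t * Λ := by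
      have : 2 * ((A + B - 2 * C) / (2 * t)) = (A + B - 2 * C) / t := by field_simp
      rw [he]
      nlinarith
    rw [h6, ← add_div]
    exact div_le_div₀ (by linarith) (by linarith) hδ a1
  · have e1 : a z * a z / A - b z * b z / B =
        (a z * a z - b z * b z) / A + (B - A) / (A * B) * (b z * b z) := by
      field_simp
      ring
    rw [e1]
    refine (abs_add_le _ _).trans (add_le_add ?_ (le_of_eq ?_))
    · rw [abs_div, abs_of_pos hA0]
      exact div_le_div_of_nonneg_right (h2 z) hA0.le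
    · rw [abs_mul, abs_div, abs_of_pos (mul_pos hA0 hB0), abs_of_nonneg (mul_self_nonneg (b z))]

lemma le_log {d μ Λ t : ℝ} (hμ : 0 < μ) (h : μ ≤ Λ) (ht : 0 < t) (ht1 : t ≤ 1) (h2 : d ≤ 2)
    (hd : d ≤ (4 * (Λ - μ) / t + 4 * t * Λ) / μ) : d ≤ 8 * Real.log (Λ / μ) / t + 8 * t := by
  obtain ⟨ρ, rfl⟩ : ∃ ρ, Λ = ρ * μ := ⟨Λ / μ, by field_simp⟩
  have h1 : 1 ≤ ρ := by nlinarith
  have e : (4 * (ρ * μ - μ) / t + 4 * t * (ρ * μ)) / μ = 4 * (ρ - 1) / t + 4 * t * ρ := by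
    field_simp
  rw [e] at hd
  rw [mul_div_cancel_right₀ _ hμ.ne']
  have h3 := Real.one_sub_inv_le_log_of_pos (show 0 < ρ by linarith)
  have h4 : ρ * ρ⁻¹ = 1 := mul_inv_cancel₀ (by linarith)
  have h5 : 0 < ρ⁻¹ := inv_pos.2 (by linarith)
  rcases le_total ρ 2 with h6 | h6
  · have h7 : 4 * (ρ - 1) ≤ 8 * Real.log ρ := by nlinarith
    nlinarith [div_le_div_of_nonneg_right h7 ht.le]
  · have h7 : 2 * t ≤ 8 * Real.log ρ := by nlinarith
    have h8 : 2 ≤ 8 * Real.log ρ / t := (le_div_iff₀ ht).2 h7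
    linarith

lemma ev_mid (v : W → ι → ℝ) (L L' : List (ℚ × W)) (z : ι) :
    ev v ((L ++ L').map fun p => (p.1 / 2, p.2)) z = (ev v L z + ev v L' z) / 2 := by
  have h : ∀ K : List (ℚ × W), ev v (K.map fun p => (p.1 / 2, p.2)) z = ev v K z / 2 := by
    intro K
    induction K with
    | nil => simp [ev]
    | cons p K ih =>
      rw [List.map_cons, ev_cons, ev_cons, ih]
      push_cast
      ring
  rw [h]
  simp [ev]

lemma wt_mid (L L' : List (ℚ × W)) :
    wt ((L ++ L').map fun p => (p.1 / 2, p.2)) = (wt L + wt L') / 2 := by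
  have h : ∀ K : List (ℚ × W), wt (K.map fun p => (p.1 / 2, p.2)) = wt K / 2 := by
    intro K
    induction K with
    | nil => simp [wt]
    | cons p K ih =>
      rw [List.map_cons, wt_cons, wt_cons, ih]
      ring
  rw [h]
  simp [wt]

end Pool.Agent.Lib.MP_4ec5c8_lc
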