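import Pool.Agent.Lib.MP_4ec5c8_lc.GapA
import Pool.Agent.Lib.MP_4ec5c8_lc.Collapse

/-!
Improving a probability assignment: almost shortest convex combinations of square roots on balls.
-/

set_option autoImplicit false

open Set Filter Topology

namespace Pool.Agent.Lib.MP_4ec5c8_lc

variable {X : Type*} [MeasurableSpace X] {E : X → X → Prop}

lemma Assign.find {u : ℕ → X → X → ℝ} (hu : ∀ n, Assign E (u n)) {P : ℕ → X → Prop}
    [∀ x, DecidablePred fun n => P n x] (hP : ∀ n, MeasurableSet {x | P n x})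
    (h : ∀ x, ∃ n, P n x) : Assign E fun x z => u (Nat.find (h x)) x z where
  meas := Measurable.find (f := fun n (p : {p : X × X // E p.1 p.2}) => u n p.1.1 p.1.2)
    (p := fun n p => P n p.1.1) (fun n => (hu n).meas)
    (fun n => (measurable_fst.comp measurable_subtype_coe) (hP n)) fun p => h p.1.1
  nonneg := fun x y hxy => (hu _).nonneg x y hxy
  sum := fun x => (hu _).sum x

lemma Assign.avg {u : ℕ → X → X → ℝ} (hu : ∀ n, Assign E (u n)) {R : ℕ} (hR : 0 < R) :
    Assign E fun x z => (∑ r ∈ Finset.range R, u r x z) / R where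
  meas := (Finset.measurable_sum _ fun r _ => (hu r).meas).div_const _
  nonneg x y hxy :=
    div_nonneg (Finset.sum_nonneg fun r _ => (hu r).nonneg x y hxy) (Nat.cast_nonneg _)
  sum x := by
    have h := (hasSum_sum fun r (_ : r ∈ Finset.range R) => (hu r).sum x).div_const (R : ℝ)
    have : (R : ℝ) ≠ 0 := by positivity
    simpa [this] using h

lemma dev_avg_le (hE : Equivalence E) {u : ℕ → X → X → ℝ} (hu : ∀ n, Assign E (u n)) (R : ℕ)
    {x y : X} (hxy : E x y) :
    dev E (fun x z => (∑ r ∈ Finset.range R, u r x z) / R) x y ≤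
      (∑ r ∈ Finset.range R, dev E (u r) x y) / R := by
  have h1 := (hasSum_sum fun r (_ : r ∈ Finset.range R) =>
    (((hu r).sum x).summable.sub ((hu r).sum' hE hxy).summable).abs.hasSum).div_const (R : ℝ)
  have h2 : ∀ z : {z // E x z}, |(∑ r ∈ Finset.range R, u r x z) / R -
      (∑ r ∈ Finset.range R, u r y z) / R| ≤
      (∑ r ∈ Finset.range R, |u r x z - u r y z|) / R := fun z => by
    rw [← sub_div, abs_div, Nat.abs_cast, ← Finset.sum_sub_distrib]
    exact div_le_div_of_nonneg_right (Finset.abs_sum_le_sum_abs _ _) (Nat.cast_nonneg _)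
  exact hasSum_le h2 (Summable.of_nonneg_of_le (fun _ => abs_nonneg _) h2 h1.summable).hasSum h1

section
variable {A : Type} (g : A → X → X) (u : X → X → ℝ)

/-- The action of a word. -/
def act (x : X) (w : List A) : X := w.foldr (fun m y => g m y) x

/-- The square roots of the vectors at the translates of `x`. -/
noncomputable def rt (x : X) (w : List A) (z : X) : ℝ := √(u (act g x w) z)

/-- Rational convex combinations of words of length at most `r`. -/
def Cv (A : Type) (r : ℕ) : Type :=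
  {L : List (ℚ × List A) // wt L = 1 ∧ ∀ p ∈ L, 0 ≤ p.1 ∧ p.2 ∈ {w : List A | w.length ≤ r}}

instance (r : ℕ) : Nonempty (Cv A r) := ⟨⟨[(1, [])], by simp [wt], by simp⟩⟩

instance [Countable A] (r : ℕ) : Countable (Cv A r) := by
  unfold Cv
  infer_instance

variable (E) in
/-- The squared norm of a combination. -/
noncomputable def nrm (L : List (ℚ × List A)) (x : X) : ℝ :=
  ∑' z : {z // E x z}, ev (rt g u x) L z * ev (rt g u x) L z

variable (E) in
/-- The infimum of the squared norms on the ball of radius `r`. -/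
noncomputable def low (r : ℕ) (x : X) : ℝ := ⨅ L : Cv A r, nrm E g u L.1 x

variable (E) in
/-- The normalised square of a combination. -/
noncomputable def sqr (L : List (ℚ × List A)) (x z : X) : ℝ :=
  if 0 < nrm E g u L x then ev (rt g u x) L z * ev (rt g u x) L z / nrm E g u L x else u x z

/-- Appending a letter to all words. -/
def sh (m : A) (L : List (ℚ × List A)) : List (ℚ × List A) := L.map fun p => (p.1, p.2 ++ [m])

variable {g u}

omit [MeasurableSpace X] in
lemma act_rel (hE : Equivalence E) (hg : ∀ m x, E x (g m x)) (x : X) (w : List A) :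
    E x (act g x w) := by
  induction w with
  | nil => exact hE.refl x
  | cons m w ih => exact hE.trans ih (hg m _)

lemma act_meas (hg : ∀ m, Measurable (g m)) (w : List A) : Measurable fun x => act g x w := by
  induction w with
  | nil => exact measurable_id
  | cons m w ih => exact (hg m).comp ih

omit [MeasurableSpace X] in
lemma ev_sh (m : A) (L : List (ℚ × List A)) (x : X) :
    ev (rt g u x) (sh m L) = ev (rt g u (g m x)) L := by
  funext z
  simp [ev, sh, rt, act, Function.comp_def]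

lemma sh_cv (m : A) {r : ℕ} (L : Cv A r) : wt (sh m L.1) = 1 ∧
    ∀ p ∈ sh m L.1, 0 ≤ p.1 ∧ p.2 ∈ {w : List A | w.length ≤ r + 1} := by
  refine ⟨by simpa [wt, sh, Function.comp_def] using L.2.1, fun p hp => ?_⟩
  obtain ⟨q, hq, rfl⟩ := List.mem_map.1 hp
  simpa using L.2.2 q hq

omit [MeasurableSpace X] in
lemma nrm_sh (hE : Equivalence E) (hg : ∀ m x, E x (g m x)) (m : A) (L : List (ℚ × List A))
    (x : X) : nrm E g u (sh m L) x = nrm E g u L (g m x) := by
  have e : E x = E (g m x) := funext fun z => propext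
    ⟨fun h => hE.trans (hE.symm (hg m x)) h, fun h => hE.trans (hg m x) h⟩
  rw [nrm, nrm, ev_sh, e]

omit [MeasurableSpace X] in
lemma nrm_nonneg (L : List (ℚ × List A)) (x : X) : 0 ≤ nrm E g u L x :=
  tsum_nonneg fun _ => mul_self_nonneg _

omit [MeasurableSpace X] in
lemma low_le {r : ℕ} (L : Cv A r) (x : X) : low E g u r x ≤ nrm E g u L.1 x :=
  ciInf_le ⟨0, by rintro _ ⟨L, rfl⟩; exact nrm_nonneg _ _⟩ L

omit [MeasurableSpace X] in
lemma low_shift (hE : Equivalence E) (hg : ∀ m x, E x (g m x)) (m : A) (r : ℕ) (x : X) :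
    low E g u (r + 1) x ≤ low E g u r (g m x) :=
  le_ciInf fun L => (low_le ⟨_, sh_cv m L⟩ x).trans_eq (nrm_sh hE hg m L.1 x)

lemma cv_ip (hE : Equivalence E) (hg : ∀ m x, E x (g m x)) (hu : Assign E u) {r : ℕ} {x : X}
    {c : ℝ} (hc : ∀ w w' : List A, w.length ≤ r → w'.length ≤ r →
      dev E u (act g x w) (act g x w') ≤ c) (L L' : Cv A r) :
    ∃ s, HasSum (fun z : {z // E x z} => ev (rt g u x) L.1 z * ev (rt g u x) L'.1 z) s ∧
      1 - c / 2 ≤ s ∧ s ≤ 1 := by
  refine ev_ip (v := fun w (z : {z // E x z}) => rt g u x w z) (fun w hw w' hw' => ?_) L.2.2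
    L'.2.2 L.2.1 L'.2.1
  have h1 := act_rel hE hg x w
  have h2 := act_rel hE hg x w'
  obtain ⟨s, a, b, d⟩ := sqrt_ip (hu.nonneg' hE h1) (hu.nonneg' hE h2) (hu.sum' hE h1)
    (hu.sum' hE h2)
  have e : E (act g x w) = E x := funext fun z => propext
    ⟨fun h => hE.trans h1 h, fun h => hE.trans (hE.symm h1) h⟩
  have h3 := hc w w' hw hw'
  rw [dev, e] at h3
  exact ⟨s, a, by linarith [le_max_right 0 (1 - (∑' z : {z // E x z},
    |u (act g x w) z - u (act g x w') z|) / 2)], d⟩

lemma cv_sum (hE : Equivalence E) (hg : ∀ m x, E x (g m x)) (hu : Assign E u) {r : ℕ} (x : X)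
    (L : Cv A r) : HasSum (fun z : {z // E x z} => ev (rt g u x) L.1 z * ev (rt g u x) L.1 z)
      (nrm E g u L.1 x) ∧ nrm E g u L.1 x ≤ 1 := by
  obtain ⟨s, a, -, d⟩ := cv_ip hE hg hu (r := r) (x := x) (c := 2) (fun w w' _ _ =>
    hu.dev_le_two hE (hE.trans (hE.symm (act_rel hE hg x w)) (act_rel hE hg x w'))) L L
  exact ⟨a.summable.hasSum, a.tsum_eq.trans_le d⟩

lemma ev_meas (hE : Equivalence E) (hg : ∀ m x, E x (g m x)) (hm : ∀ m, Measurable (g m))
    (hu : Assign E u) (L : List (ℚ × List A)) :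
    Measurable fun p : {p : X × X // E p.1 p.2} => ev (rt g u p.1.1) L p.1.2 := by
  induction L with
  | nil => exact measurable_const
  | cons q L ih =>
    simp only [ev_cons]
    refine (Measurable.const_mul (Measurable.sqrt ?_) _).add ih
    exact hu.meas.comp (f := fun p : {p : X × X // E p.1 p.2} =>
      (⟨(act g p.1.1 q.2, p.1.2), hE.trans (hE.symm (act_rel hE hg _ _)) p.2⟩ :
        {p : X × X // E p.1 p.2}))
      (((act_meas hm q.2).comp (measurable_fst.comp measurable_subtype_coe)).prodMk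
        (measurable_snd.comp measurable_subtype_coe)).subtype_mk

lemma nrm_meas [StandardBorelSpace X] (hE : IsCBER E) (hg : ∀ m x, E x (g m x))
    (hm : ∀ m, Measurable (g m)) (hu : Assign E u) (L : List (ℚ × List A)) :
    Measurable (nrm E g u L) := by
  obtain ⟨k, k0, k1, k2⟩ := exists_enum hE.1.refl hE.2.1 hE.2.2
  refine measurable_tsum_class k0 k1 k2
    (φ := fun x z => ev (rt g u x) L z * ev (rt g u x) L z) fun n => ?_
  have h := (ev_meas hE.1 hg hm hu L).comp
    (f := fun x => (⟨(x, k n x), k1 n x⟩ : {p : X × X // E p.1 p.2}))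
    (measurable_id.prodMk (k0 n)).subtype_mk
  exact h.mul h

lemma sqr_assign [StandardBorelSpace X] (hE : IsCBER E) (hg : ∀ m x, E x (g m x))
    (hm : ∀ m, Measurable (g m)) (hu : Assign E u) {r : ℕ} (L : Cv A r) :
    Assign E (sqr E g u L.1) where
  meas := by
    have h1 := (nrm_meas hE hg hm hu L.1).comp
      (measurable_fst.comp (measurable_subtype_coe (p := fun p : X × X => E p.1 p.2)))
    have h2 := ev_meas hE.1 hg hm hu L.1
    exact Measurable.ite (measurableSet_lt measurable_const h1) ((h2.mul h2).div h1) hu.meas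
  nonneg x y hxy := by
    unfold sqr
    split_ifs with h
    exacts [div_nonneg (mul_self_nonneg _) h.le, hu.nonneg x y hxy]
  sum x := by
    unfold sqr
    split_ifs with h
    · simpa [h.ne'] using (cv_sum hE.1 hg hu x L).1.div_const (nrm E g u L.1 x)
    · exact hu.sum x

omit [MeasurableSpace X] in
lemma low_mono (r : ℕ) (x : X) : low E g u (r + 1) x ≤ low E g u r x :=
  le_ciInf fun L => low_le
    ⟨L.1, L.2.1, fun p hp => ⟨(L.2.2 p hp).1, Nat.le_succ_of_le (L.2.2 p hp).2⟩⟩ x

lemma low_ge (hE : Equivalence E) (hg : ∀ m x, E x (g m x)) (hu : Assign E u) {r : ℕ} {x : X}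
    {δ : ℝ} (hc : ∀ w w' : List A, w.length ≤ r → w'.length ≤ r →
      dev E u (act g x w) (act g x w') ≤ 2 - 2 * δ) : δ ≤ low E g u r x :=
  le_ciInf fun L => by
    obtain ⟨s, a, b, -⟩ := cv_ip hE hg hu hc L L
    exact le_of_le_of_eq (by linarith) a.tsum_eq.symm

lemma sqr_dev (hE : Equivalence E) (hg : ∀ m x, E x (g m x)) (hu : Assign E u) {r : ℕ} {x : X}
    {t Λ : ℝ} (ht : 0 < t) (m : A) (hμ : 0 < low E g u (r + 1) x) (L L' : Cv A r)
    (hL : nrm E g u L.1 x ≤ Λ) (hL' : nrm E g u L'.1 (g m x) ≤ Λ) :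
    ∑' z : {z // E x z}, |sqr E g u L.1 x z - sqr E g u L'.1 (g m x) z| ≤
      (4 * (Λ - low E g u (r + 1) x) / t + 4 * t * Λ) / low E g u (r + 1) x := by
  let K : Cv A (r + 1) :=
    ⟨L.1, L.2.1, fun p hp => ⟨(L.2.2 p hp).1, Nat.le_succ_of_le (L.2.2 p hp).2⟩⟩
  let K' : Cv A (r + 1) := ⟨_, sh_cv m L'⟩
  let M : Cv A (r + 1) := ⟨(K.1 ++ K'.1).map fun p => (p.1 / 2, p.2),
    by rw [wt_mid, K.2.1, K'.2.1]; norm_num, fun p hp => by
      obtain ⟨q, hq, rfl⟩ := List.mem_map.1 hp
      have := (List.mem_append.1 hq).elim (K.2.2 q) (K'.2.2 q)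
      exact ⟨div_nonneg this.1 two_pos.le, this.2⟩⟩
  have a0 := (cv_sum hE hg hu x K).1
  have b0 := (cv_sum hE hg hu x K').1
  obtain ⟨d, d0, -, -⟩ := cv_ip hE hg hu (r := r + 1) (x := x) (c := 2) (fun w w' _ _ =>
    hu.dev_le_two hE (hE.trans (hE.symm (act_rel hE hg x w)) (act_rel hE hg x w'))) K K'
  have a1 := low_le (E := E) (g := g) (u := u) K x
  have b1 := low_le (E := E) (g := g) (u := u) K' x
  have eb : nrm E g u L'.1 (g m x) = nrm E g u K'.1 x := (nrm_sh hE hg m L'.1 x).symm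
  have em : nrm E g u M.1 x = (nrm E g u K.1 x + nrm E g u K'.1 x + 2 * d) / 4 :=
    (hasSum_of_eq (((a0.add b0).add (d0.mul_left 2)).div_const 4) fun z => by
      simp only [M, ev_mid]
      ring).tsum_eq
  have h1 := low_le (E := E) (g := g) (u := u) M x
  rw [eb] at hL'
  have h2 := dev_sq a0 b0 d0 hμ a1 hL b1 hL' ht
  have a2 : 0 < nrm E g u L.1 x := hμ.trans_le a1
  simp only [sqr, eb, if_pos a2, if_pos (hμ.trans_le b1), ← ev_sh]
  have hK : nrm E g u K.1 x ≤ Λ := hL
  have h3 : nrm E g u K.1 x + nrm E g u K'.1 x - 2 * d ≤ 4 * (Λ - low E g u (r + 1) x) := by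
    linarith
  exact h2.trans (div_le_div_of_nonneg_right
    (by linarith [div_le_div_of_nonneg_right h3 ht.le]) hμ.le)

lemma improve [StandardBorelSpace X] [Countable A] (hE : IsCBER E) (hg : ∀ m x, E x (g m x))
    (hm : ∀ m, Measurable (g m)) (hu : Assign E u) {N : ℕ} (hN : 0 < N) :
    ∃ w : X → X → ℝ, Assign E w ∧ ∀ x m m', g m' (g m x) = x → ∀ δ, 0 < δ →
      (∀ a a' : List A, a.length ≤ N + 1 → a'.length ≤ N + 1 →
        dev E u (act g x a) (act g x a') ≤ 2 - 2 * δ) → ∀ t, 0 < t → t ≤ 1 →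
      dev E w x (g m x) ≤ 8 * (1 - 2 * Real.log δ) / N / t + 8 * t := by
  classical
  have hN' : (0 : ℝ) < N := by exact_mod_cast hN
  have hε : (0 : ℝ) < 1 / N := by positivity
  choose e he using fun r => exists_surjective_nat (Cv A r)
  have h : ∀ r x, ∃ n, nrm E g u (e r n).1 x < (1 + 1 / N) * low E g u r x ∨
      low E g u r x ≤ 0 := fun r x => by
    rcases le_or_gt (low E g u r x) 0 with h0 | h0
    · exact ⟨0, Or.inr h0⟩
    obtain ⟨L, hL⟩ := exists_lt_of_ciInf_lt
      (show low E g u r x < (1 + 1 / N) * low E g u r x by nlinarith)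
    obtain ⟨n, rfl⟩ := he r L
    exact ⟨n, Or.inl hL⟩
  have hl : ∀ r, Measurable (low E g u r) := fun r =>
    Measurable.iInf fun L : Cv A r => nrm_meas hE hg hm hu L.1
  have hv : ∀ r, Assign E fun x z => sqr E g u (e (r + 1) (Nat.find (h (r + 1) x))).1 x z :=
    fun r => Assign.find (u := fun n => sqr E g u (e (r + 1) n).1)
      (P := fun n x => nrm E g u (e (r + 1) n).1 x < (1 + 1 / N) * low E g u (r + 1) x ∨
        low E g u (r + 1) x ≤ 0)
      (fun n => sqr_assign hE hg hm hu _) (fun n => (measurableSet_lt (nrm_meas hE hg hm hu _)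
        ((hl _).const_mul _)).union (measurableSet_le (hl _) measurable_const)) (h (r + 1))
  refine ⟨_, Assign.avg hv hN, fun x m m' hx δ hδ hc t ht ht1 => ?_⟩
  refine (dev_avg_le hE.1 hv _ (hg m x)).trans ?_
  have h0 : ∀ r ≤ N + 1, δ ≤ low E g u r x := fun r hr =>
    low_ge hE.1 hg hu fun a a' h2 h3 => hc a a' (h2.trans hr) (h3.trans hr)
  let Φ : ℕ → ℝ := fun r => Real.log (low E g u r x) + Real.log (low E g u (r + 1) x)
  have h1 : ∀ r ∈ Finset.range N, dev E (fun x z =>
      sqr E g u (e (r + 1) (Nat.find (h (r + 1) x))).1 x z) x (g m x) ≤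
      (Φ r - Φ (r + 1)) * (8 / t) + (8 / N / t + 8 * t) := fun r hr => by
    have hr' := Finset.mem_range.1 hr
    have p0 := hδ.trans_le (h0 r (by omega))
    have p1 := hδ.trans_le (h0 (r + 1) (by omega))
    have p2 := hδ.trans_le (h0 (r + 1 + 1) (by omega))
    have h2 := (Nat.find_spec (h (r + 1) x)).resolve_right (not_le.2 p1)
    have h3 := (Nat.find_spec (h (r + 1) (g m x))).resolve_right
      (not_le.2 (p2.trans_le (low_shift hE.1 hg m (r + 1) x)))
    have h4 := low_shift (u := u) hE.1 hg m' r (g m x)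
    rw [hx] at h4
    have h5 := low_mono (E := E) (g := g) (u := u) r x
    have h6 := low_mono (E := E) (g := g) (u := u) (r + 1) x
    refine (le_log (Λ := (1 + 1 / N) * low E g u r x) p2 (by nlinarith) ht ht1
      ((hv r).dev_le_two hE.1 (hg m x)) (sqr_dev hE.1 hg hu ht m p2 _ _ (by nlinarith)
        (by nlinarith))).trans ?_
    rw [Real.log_div (by positivity) p2.ne', Real.log_mul (by positivity) p0.ne']
    have h7 := Real.log_le_sub_one_of_pos (show (0 : ℝ) < 1 + 1 / N by positivity)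
    have h8 : 8 * (Real.log (1 + 1 / N) + Real.log (low E g u r x) -
        Real.log (low E g u (r + 1 + 1) x)) ≤ (Φ r - Φ (r + 1)) * 8 + 8 / N := by
      simp only [Φ]
      rw [show (8 : ℝ) / N = 8 * (1 / N) by ring]
      linarith
    have h9 := div_le_div_of_nonneg_right h8 ht.le
    rw [add_div, mul_div_assoc (Φ r - Φ (r + 1))] at h9
    linarith
  have h2 : ∀ r, r ≤ N + 1 → Real.log δ ≤ Real.log (low E g u r x) ∧
      Real.log (low E g u r x) ≤ 0 := fun r hr =>
    ⟨Real.log_le_log hδ (h0 r hr), Real.log_nonpos (hδ.le.trans (h0 r hr))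
      ((low_le (Classical.arbitrary _) x).trans (cv_sum hE.1 hg hu x _).2)⟩
  have h3 : Φ 0 - Φ N ≤ -2 * Real.log δ := by
    simp only [Φ]
    linarith [h2 0 (by omega), h2 (0 + 1) (by omega), h2 N (by omega), h2 (N + 1) le_rfl]
  refine (div_le_div_of_nonneg_right (Finset.sum_le_sum h1) (Nat.cast_nonneg _)).trans ?_
  rw [Finset.sum_add_distrib, ← Finset.sum_mul, Finset.sum_range_sub', Finset.sum_const,
    Finset.card_range, nsmul_eq_mul, div_le_iff₀ hN']
  have h4 : (8 * (1 - 2 * Real.log δ) / N / t + 8 * t) * N =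
      -2 * Real.log δ * (8 / t) + N * (8 / N / t + 8 * t) := by
    field_simp
    ring
  rw [h4]
  exact add_le_add_left (mul_le_mul_of_nonneg_right h3 (by positivity)) _

end

end Pool.Agent.Lib.MP_4ec5c8_lc
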