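import Pool.Agent.Lib.MP_4ec5c8_lc.GapB

/-!
A zero-two law: a uniform gap below the trivial bound `2` on every class gives amenability.
-/

set_option autoImplicit false

open Set Filter Topology

namespace Pool.Agent.Lib.MP_4ec5c8_lc

variable {X : Type*} [MeasurableSpace X] [StandardBorelSpace X] {E : X → X → Prop}

omit [MeasurableSpace X] [StandardBorelSpace X] in
lemma act_flat {A : Type} (g : ℕ → X → X) (W : A → List ℕ) (x : X) (a : List A) :
    act (fun m y => act g y (W m)) x a = act g x (a.flatMap W) := by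
  induction a with
  | nil => rfl
  | cons m a ih =>
    rw [List.flatMap_cons, act, List.foldr_cons, ← act, ih]
    simp [act]

lemma flat_len {A : Type} {W : A → List ℕ} {l : ℕ} (h : ∀ m, (W m).length ≤ l) (a : List A) :
    (a.flatMap W).length ≤ l * a.length := by
  induction a with
  | nil => simp
  | cons m a ih =>
    rw [List.flatMap_cons, List.length_append, List.length_cons]
    nlinarith [h m]

theorem gap_fubini (hE : IsCBER E) (e : ℕ × ℕ ≃ ℕ) {F : Filter ℕ} {g : ℕ → X → X}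
    (g0 : ∀ m, Measurable (g m)) (g1 : ∀ x y, E x y ↔ ∃ w, act g x w = y) {f : ℕ → X → X → ℝ}
    (hf : ∀ n, Assign E (f n))
    (hc : ∀ x i, ∀ θ : ℝ, 0 < θ → ∃ c : ℝ, 0 < c ∧ ∀ a b : List ℕ, (∀ m ∈ a ++ b, m < i) →
      ∀ᶠ n in F, dev E (f n) (act g x a) (act g x b) ≤
        2 - c * Real.exp (-θ * (a ++ b).length)) :
    IsAmenableAlong E (fubini e cofinite fun _ => fubini e cofinite fun _ => F) := by
  obtain ⟨W, hW⟩ := exists_surjective_nat (List ℕ)
  have g2 : ∀ m x, E x (g m x) := fun m x => (g1 _ _).2 ⟨[m], rfl⟩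
  choose u hu1 hu2 using fun i N n => improve (A := Fin (i + 1))
    (g := fun m y => act g y (W m)) hE (fun m x => act_rel hE.1 g2 x _)
    (fun m => act_meas g0 _) (hf n) (Nat.succ_pos N)
  refine ⟨fun k => u (e.symm k).1 (e.symm (e.symm k).2).1 (e.symm (e.symm k).2).2,
    fun k => (hu1 _ _ _).meas, fun k => (hu1 _ _ _).nonneg, fun k => (hu1 _ _ _).sum,
    fun x y hxy => ?_⟩
  refine tendsto_order.2 ⟨fun a ha => Eventually.of_forall fun n =>
    ha.trans_le (dev_nonneg _ _ _), fun ε hε => ?_⟩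
  obtain ⟨w, rfl⟩ := (g1 x y).1 hxy
  obtain ⟨w', hw'⟩ := (g1 _ x).1 (hE.1.symm hxy)
  obtain ⟨m, rfl⟩ := hW w
  obtain ⟨m', rfl⟩ := hW w'
  obtain ⟨t, ht, ht1, ht2⟩ : ∃ t : ℝ, 0 < t ∧ t ≤ 1 ∧ 16 * t < ε :=
    ⟨min 1 (ε / 17), by positivity, min_le_left _ _, by linarith [min_le_right 1 (ε / 17)]⟩
  rw [eventually_fubini, Nat.cofinite_eq_atTop]
  filter_upwards [eventually_ge_atTop (max m m')] with i h3
  let V : Fin (i + 1) → List ℕ := fun k => W k
  obtain ⟨l, hl⟩ := (finite_range fun k => (V k).length).bddAbove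
  obtain ⟨j, hj⟩ := (finite_range fun k => (V k).sum).bddAbove
  obtain ⟨θ, hθ, hθ'⟩ : ∃ θ : ℝ, 0 < θ ∧ θ * l ≤ t ^ 2 / 8 := ⟨t ^ 2 / 8 / (l + 1), by positivity, by
    rw [div_mul_eq_mul_div, div_le_iff₀ (by positivity)]
    nlinarith [sq_nonneg t]⟩
  obtain ⟨c, hc0, hc⟩ := hc x (j + 1) θ hθ
  have h1 : Tendsto (fun N : ℕ => 8 * (1 - 2 * Real.log (c / 2)) / (N + 1 : ℕ) / t + 16 * t) atTop
      (𝓝 (16 * t)) := by
    simpa using (((tendsto_const_div_atTop_nhds_zero_nat (8 * (1 - 2 * Real.log (c / 2)))).comp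
      (tendsto_add_atTop_nat 1)).div_const t).add_const (16 * t)
  rw [eventually_fubini]
  filter_upwards [h1.eventually (eventually_lt_nhds ht2)] with N h2
  have h4 := List.finite_length_le (Fin (i + 1)) (N + 1 + 1)
  have h5 : ∀ a : List (Fin (i + 1)), ∀ k ∈ a.flatMap V, k < j + 1 := fun a k hk => by
    obtain ⟨m, -, hm⟩ := List.mem_flatMap.1 hk
    exact Nat.lt_succ_of_le ((List.le_sum_of_mem hm).trans (hj ⟨m, rfl⟩))
  filter_upwards [(eventually_all_finite h4).2 fun a _ => (eventually_all_finite h4).2 fun b _ =>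
    hc (a.flatMap V) (b.flatMap V) fun k hk => (List.mem_append.1 hk).elim (h5 a k) (h5 b k)] with n hn
  simp only [Equiv.symm_apply_apply]
  refine (hu2 i N n x ⟨m, by omega⟩ ⟨m', by omega⟩ hw'
    (c / 2 * Real.exp (-θ * (2 * l * (N + 2)))) (by positivity) (fun a b h6 h7 => ?_) t ht
    ht1).trans_lt (lt_of_le_of_lt ?_ h2)
  · rw [act_flat, act_flat]
    refine (hn a h6 b h7).trans ?_
    have h8 : (a.flatMap V ++ b.flatMap V).length ≤ 2 * l * (N + 2) := by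
      rw [List.length_append]
      nlinarith [flat_len (fun m => hl ⟨m, rfl⟩) a, flat_len (fun m => hl ⟨m, rfl⟩) b,
        Nat.mul_le_mul_left l h6, Nat.mul_le_mul_left l h7]
    have h9 : ((a.flatMap V ++ b.flatMap V).length : ℝ) ≤ 2 * l * (N + 2) := by exact_mod_cast h8
    nlinarith [Real.exp_le_exp.2 (mul_le_mul_of_nonpos_left h9 (neg_nonpos.2 hθ.le))]
  · rw [Real.log_mul (by positivity) (Real.exp_ne_zero _), Real.log_exp]
    have h6 : (0 : ℝ) ≤ N := Nat.cast_nonneg N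
    have h7 : 8 * (1 - 2 * (Real.log (c / 2) + -θ * (2 * l * (N + 2)))) / (N + 1) / t =
        8 * (1 - 2 * Real.log (c / 2)) / (N + 1) / t + 32 * (θ * l) * (N + 2) / ((N + 1) * t) := by
      field_simp
      ring
    have h8 : 32 * (θ * l) * (N + 2) / ((N + 1) * t) ≤ 8 * t := by
      rw [div_le_iff₀ (by positivity)]
      nlinarith [mul_le_mul_of_nonneg_right hθ' (show (0 : ℝ) ≤ N + 2 by positivity),
        mul_nonneg h6 (sq_nonneg t)]
    push_cast
    linarith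

theorem zero_two (e : ℕ × ℕ ≃ ℕ) {α β : Ordinal.{0}} (hα : 1 ≤ α) (hα' : α < Ordinal.omega 1)
    (hβ : 1 ≤ β) (hβ' : β < Ordinal.omega 1) (hE : IsCBER E) {g : ℕ → X → X}
    (g0 : ∀ m, Measurable (g m)) (g1 : ∀ x y, E x y ↔ ∃ w, act g x w = y) :
    IsAlphaAmenable e α E ↔ ∃ F : Filter ℕ, IsFr e β F ∧ ∃ f : ℕ → X → X → ℝ,
      (∀ n, Measurable fun p : {p : X × X // E p.1 p.2} => f n p.1.1 p.1.2) ∧
      (∀ n x y, E x y → 0 ≤ f n x y) ∧ (∀ n x, HasSum (fun y : {y // E x y} => f n x y) 1) ∧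
      ∀ x i, ∀ θ : ℝ, 0 < θ → ∃ c : ℝ, 0 < c ∧ ∀ a b : List ℕ, (∀ m ∈ a ++ b, m < i) →
        ∀ᶠ n in F, dev E (f n) (act g x a) (act g x b) ≤
          2 - c * Real.exp (-θ * (a ++ b).length) := by
  constructor
  · rintro ⟨G, hG, h⟩
    obtain ⟨F, hF⟩ := exists_isFr e β hβ hβ'
    obtain ⟨f, h1, h2, h3, h4⟩ := isFr_amenable hF (amenable_of_isFr hE hG h)
    refine ⟨F, hF, f, h1, h2, h3, fun x i θ hθ => ⟨1, one_pos, fun a b _ => ?_⟩⟩
    filter_upwards [(h4 _ _ (hE.1.trans (hE.1.symm ((g1 x _).2 ⟨a, rfl⟩))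
      ((g1 x _).2 ⟨b, rfl⟩))).eventually (eventually_le_nhds one_pos)] with n hn
    have : Real.exp (-θ * (a ++ b).length) ≤ 1 :=
      Real.exp_le_one_iff.2 (mul_nonpos_of_nonpos_of_nonneg (neg_nonpos.2 hθ.le) (by positivity))
    exact le_trans hn (by linarith)
  · rintro ⟨F, hF, f, h1, h2, h3, h4⟩
    obtain ⟨G, hG⟩ := exists_isFr e α hα hα'
    exact ⟨G, hG, isFr_amenable hG (amenable_of_isFr hE (IsFr.succ _ _ (IsFr.succ β F hF))
      (gap_fubini hE e g0 g1 (fun n => ⟨h1 n, h2 n, h3 n⟩) h4))⟩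

theorem const_gap (e : ℕ × ℕ ≃ ℕ) {α β : Ordinal.{0}} (hα : 1 ≤ α) (hα' : α < Ordinal.omega 1)
    (hβ : 1 ≤ β) (hβ' : β < Ordinal.omega 1) (hE : IsCBER E) :
    IsAlphaAmenable e α E ↔ ∃ F : Filter ℕ, IsFr e β F ∧ ∃ f : ℕ → X → X → ℝ,
      (∀ n, Measurable fun p : {p : X × X // E p.1 p.2} => f n p.1.1 p.1.2) ∧
      (∀ n x y, E x y → 0 ≤ f n x y) ∧ (∀ n x, HasSum (fun y : {y // E x y} => f n x y) 1) ∧
      ∀ x, ∃ c < 2, ∀ y z, E x y → E x z →
        ∀ᶠ n in F, ∑' w : {w // E y w}, |f n y w - f n z w| ≤ c := by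
  constructor
  · rintro ⟨G, hG, h⟩
    obtain ⟨F, hF⟩ := exists_isFr e β hβ hβ'
    obtain ⟨f, h1, h2, h3, h4⟩ := isFr_amenable hF (amenable_of_isFr hE hG h)
    exact ⟨F, hF, f, h1, h2, h3, fun x => ⟨1, one_lt_two, fun y z hy hz =>
      (h4 y z (hE.1.trans (hE.1.symm hy) hz)).eventually (eventually_le_nhds one_pos)⟩⟩
  · rintro ⟨F, hF, f, h1, h2, h3, h4⟩
    obtain ⟨g, g0, g1, g2⟩ := exists_enum hE.1.refl hE.2.1 hE.2.2
    refine (zero_two e hα hα' hβ hβ' hE g0 fun x y => ⟨fun h => ?_, ?_⟩).2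
      ⟨F, hF, f, h1, h2, h3, fun x i θ hθ => ?_⟩
    · obtain ⟨m, hm⟩ := g2 x y h
      exact ⟨[m], hm⟩
    · rintro ⟨w, rfl⟩
      exact act_rel hE.1 g1 x w
    obtain ⟨c, hc, h⟩ := h4 x
    refine ⟨2 - c, by linarith, fun a b _ => ?_⟩
    filter_upwards [h _ _ (act_rel hE.1 g1 x a) (act_rel hE.1 g1 x b)] with n hn
    have : Real.exp (-θ * (a ++ b).length) ≤ 1 :=
      Real.exp_le_one_iff.2 (mul_nonpos_of_nonpos_of_nonneg (neg_nonpos.2 hθ.le) (by positivity))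
    exact le_trans hn (by nlinarith)

lemma l1_le {ι : Type*} {a b : ι → ℝ} (ha0 : ∀ z, 0 ≤ a z) (hb0 : ∀ z, 0 ≤ b z) (ha : HasSum a 1)
    (hb : HasSum b 1) (F : Finset ι) {s : ι → ℝ} (h : ∀ z ∈ F, s z ≤ a z ∧ s z ≤ b z) :
    ∑' z, |a z - b z| ≤ 2 - 2 * ∑ z ∈ F, s z := by
  classical
  have h1 : HasSum (fun z => if z ∈ F then s z else 0) (∑ z ∈ F, s z) := by
    simpa using hasSum_sum_of_ne_finset_zero (s := F) (f := fun z => if z ∈ F then s z else 0)
      fun z hz => if_neg hz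
  refine (hasSum_le (fun z => ?_) (ha.summable.sub hb.summable).abs.hasSum
    ((ha.add hb).sub (h1.mul_left 2))).trans_eq (by norm_num)
  have a1 := ha0 z
  have a2 := hb0 z
  split_ifs with hz
  · exact abs_le.2 ⟨by linarith [h z hz], by linarith [h z hz]⟩
  · exact abs_le.2 ⟨by linarith, by linarith⟩

lemma weight_assign {τ : ℕ → ℝ} (τ0 : ∀ k, 0 ≤ τ k) (hτ : HasSum τ 1)
    {g : ℕ → X → X} (g0 : ∀ k, Measurable (g k)) (g1 : ∀ k x, E x (g k x)) :
    ∃ f : X → X → ℝ, Assign E f ∧ ∀ x k, τ k ≤ f x (g k x) := by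
  classical
  let t : X → X → ℕ → ℝ := fun x z k => if g k x = z then τ k else 0
  have t0 : ∀ x z k, 0 ≤ t x z k := fun x z k => by
    simp only [t]
    split_ifs
    exacts [τ0 k, le_rfl]
  have t1 : ∀ x z, Summable (t x z) := fun x z =>
    Summable.of_nonneg_of_le (t0 x z) (fun k => by
      simp only [t]
      split_ifs
      exacts [le_rfl, τ0 k]) hτ.summable
  refine ⟨fun x z => ∑' k, t x z k, ⟨Measurable.tsum fun k => Measurable.ite (measurableSet_eq_fun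
    ((g0 k).comp (measurable_fst.comp measurable_subtype_coe))
    (measurable_snd.comp measurable_subtype_coe)) measurable_const measurable_const,
    fun x y _ => tsum_nonneg (t0 x y), fun x => ?_⟩, fun x k =>
    le_of_eq_of_le (by simp [t]) ((t1 x _).le_tsum k fun j _ => t0 x _ j)⟩
  refine hasSum_of_eq (hτ.tsum_fiberwise fun k => (⟨g k x, g1 k x⟩ : {y // E x y})) fun z => ?_
  rw [tsum_subtype _ τ]
  refine tsum_congr fun k => ?_
  simp [t, indicator, Subtype.ext_iff]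

lemma exists_weight (hE : IsCBER E) {τ : ℕ → ℝ} (τ0 : ∀ k, 0 ≤ τ k) (hτ : HasSum τ 1)
    {g : ℕ → X → X} (g0 : ∀ k, Measurable (g k)) (g1 : ∀ k x, E x (g k x)) :
    ∃ f : X → X → ℝ, Assign E f ∧ ∀ x y z k l s, g k y = x → g l z = x → s ≤ τ k → s ≤ τ l →
      dev E f y z ≤ 2 - 2 * s := by
  obtain ⟨f, hf, h0⟩ := weight_assign τ0 hτ g0 g1
  refine ⟨f, hf, fun x y z k l s hk hl sk sl => ?_⟩
  have h : E y z := hE.1.trans (hk ▸ g1 k y) (hE.1.symm (hl ▸ g1 l z))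
  simpa [dev] using l1_le (fun w => hf.nonneg _ _ w.2) (hf.nonneg' hE.1 h) (hf.sum y)
    (hf.sum' hE.1 h) {⟨x, hk ▸ g1 k y⟩} (s := fun _ => s) fun w hw => by
      rw [Finset.mem_singleton.1 hw]
      exact ⟨sk.trans ((h0 y k).trans_eq (congrArg (f y) hk)),
        sl.trans ((h0 z l).trans_eq (congrArg (f z) hl))⟩

theorem pair_gap (hE : IsCBER E) : ∃ f : X → X → ℝ, Assign E f ∧
    ∀ y z, E y z → dev E f y z < 2 := by
  obtain ⟨g, g0, g1, g2⟩ := exists_enum hE.1.refl hE.2.1 hE.2.2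
  obtain ⟨f, h1, h2⟩ := exists_weight hE (fun k => by positivity) (hasSum_geometric_two' 1) g0 g1
  refine ⟨f, h1, fun y z h => ?_⟩
  obtain ⟨k, hk⟩ := g2 y y (hE.1.refl y)
  obtain ⟨l, hl⟩ := g2 z y (hE.1.symm h)
  have : (0 : ℝ) < min (1 / 2 / 2 ^ k) (1 / 2 / 2 ^ l) := by positivity
  linarith [h2 y y z k l _ hk hl (min_le_left _ _) (min_le_right _ _)]

/-- A coding of words with exponential growth. -/
def code : List ℕ → ℕ
  | [] => 0
  | m :: w => 2 ^ m * (2 * code w + 1)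

lemma code_inj : Function.Injective code := by
  have key : ∀ m n a b : ℕ, m < n → 2 ^ m * (2 * a + 1) ≠ 2 ^ n * (2 * b + 1) := by
    intro m n a b h e
    obtain ⟨k, rfl⟩ := Nat.exists_eq_add_of_lt h
    rw [show 2 ^ (m + k + 1) * (2 * b + 1) = 2 ^ m * (2 * (2 ^ k * (2 * b + 1))) by ring] at e
    have := Nat.eq_of_mul_eq_mul_left (by positivity) e
    omega
  intro a
  induction a with
  | nil => rintro (_ | ⟨n, b⟩) h <;> simp_all [code, eq_comm (a := 0)]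
  | cons m a ih =>
    rintro (_ | ⟨n, b⟩) h
    · simp [code] at h
    obtain rfl : m = n := le_antisymm (not_lt.1 fun e => key _ _ _ _ e h.symm)
      (not_lt.1 fun e => key _ _ _ _ e h)
    have := Nat.eq_of_mul_eq_mul_left (by positivity) h
    rw [ih (show code a = code b by omega)]

lemma code_le {j : ℕ} (w : List ℕ) (h : ∀ m ∈ w, m < j) : code w + 1 ≤ (2 ^ j) ^ w.length := by
  induction w with
  | nil => simp [code]
  | cons m w ih =>
    have h1 := ih fun k hk => h k (List.mem_cons_of_mem _ hk)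
    have h2 : 2 ^ m * 2 ≤ 2 ^ j :=
      Nat.pow_le_pow_right (n := 2) two_pos (Nat.succ_le_of_lt (h m List.mem_cons_self))
    rw [code, List.length_cons, pow_succ']
    nlinarith [Nat.mul_le_mul h2 h1, Nat.one_le_two_pow (n := m)]

theorem exp_gap (hE : IsCBER E) {g : ℕ → X → X} (g0 : ∀ m, Measurable (g m))
    (g1 : ∀ m x, E x (g m x)) (g2 : ∀ m, ∃ j, ∀ x, ∃ m' < j, g m' (g m x) = x) :
    ∃ f : X → X → ℝ, Assign E f ∧ ∀ i, ∃ θ : ℝ, ∀ x, ∀ a b : List ℕ, (∀ m ∈ a ++ b, m < i) →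
      dev E f (act g x a) (act g x b) ≤ 2 - Real.exp (-θ * (a ++ b).length) := by
  have hπ : Real.pi ^ 2 / 6 ≠ 0 := by positivity
  obtain ⟨f, h1, h2⟩ := exists_weight hE (τ := fun k => 1 / (k : ℝ) ^ 2 / (Real.pi ^ 2 / 6))
    (fun k => by positivity) (div_self hπ ▸ hasSum_zeta_two.div_const (Real.pi ^ 2 / 6))
    (g := fun k x => act g x (Function.invFun code (k - 1))) (fun k => act_meas g0 _)
    fun k x => act_rel hE.1 g1 x _
  refine ⟨f, h1, fun i => ?_⟩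
  choose J hJ using g2
  obtain ⟨j, hj⟩ := (finite_range fun k : Fin i => J k).bddAbove
  have h3 : ∀ x, ∀ a : List ℕ, (∀ m ∈ a, m < i) → ∃ a' : List ℕ, a'.length = a.length ∧
      (∀ m ∈ a', m < j) ∧ act g (act g x a) a' = x := fun x a ha => by
    induction a with
    | nil => exact ⟨[], rfl, by simp, rfl⟩
    | cons m a ih =>
      obtain ⟨a', e1, e2, e3⟩ := ih fun k hk => ha k (List.mem_cons_of_mem _ hk)
      obtain ⟨m', e4, e5⟩ := hJ m (act g x a)
      refine ⟨a' ++ [m'], by simp [e1], fun k hk => (List.mem_append.1 hk).elim (e2 k) fun h =>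
        List.mem_singleton.1 h ▸ e4.trans_le (hj ⟨⟨m, ha m List.mem_cons_self⟩, rfl⟩), ?_⟩
      rw [act, List.foldr_append]
      exact (congrArg (fun y => act g y a') e5).trans e3
  have h4 : ∀ (w : List ℕ) (n : ℕ), (∀ m ∈ w, m < j) → w.length ≤ n →
      Real.exp (-(2 * j) * n) / 2 ≤ 1 / ((code w + 1 : ℕ) : ℝ) ^ 2 / (Real.pi ^ 2 / 6) := by
    intro w n hw hn
    have e1 : ((code w + 1 : ℕ) : ℝ) ≤ Real.exp (j * n) := by
      have e2 : (2 : ℝ) ≤ Real.exp 1 := by linarith [Real.add_one_le_exp (1 : ℝ)]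
      calc ((code w + 1 : ℕ) : ℝ) ≤ ((2 ^ (j * n) : ℕ) : ℝ) := Nat.cast_le.2 ((code_le w hw).trans
            (by rw [pow_mul]; exact Nat.pow_le_pow_right (by positivity) hn))
        _ ≤ Real.exp 1 ^ (j * n) := by push_cast; gcongr
        _ = _ := by rw [← Real.exp_nat_mul]; simp
    have e3 : Real.exp (-(2 * j) * n) = 1 / Real.exp (j * n) ^ 2 := by
      rw [← Real.exp_nat_mul, one_div, ← Real.exp_neg]
      congr 1
      push_cast
      ring
    rw [e3]
    gcongr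
    nlinarith [Real.pi_lt_d2, Real.pi_pos]
  refine ⟨2 * j, fun x a b hab => ?_⟩
  obtain ⟨a', a1, a2, a3⟩ := h3 x a fun m hm => hab m (List.mem_append_left _ hm)
  obtain ⟨b', b1, b2, b3⟩ := h3 x b fun m hm => hab m (List.mem_append_right _ hm)
  refine (h2 x _ _ (code a' + 1) (code b' + 1) _ ?_ ?_ (h4 a' (a ++ b).length a2 (by simp [a1]))
    (h4 b' _ b2 (by simp [b1]))).trans_eq (by ring)
  · simpa [Function.leftInverse_invFun code_inj a'] using a3
  · simpa [Function.leftInverse_invFun code_inj b'] using b3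

end Pool.Agent.Lib.MP_4ec5c8_lc
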