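import Mathlib

/-!
Minimax on compact sets, an induction over Baire space, and a dense family of integer valued maps.
-/

set_option autoImplicit false

open Set Filter Topology MeasureTheory CompactlySupported

namespace Pool.Agent.Lib.MP_4ec5c8_lc

lemma compact_small {Z : Type*} [TopologicalSpace Z] [T2Space Z] [MeasurableSpace Z]
    [BorelSpace Z] {C : Set C(Z, ℝ)} (hC : Convex ℝ C)
    (h : ∀ μ : Measure Z, IsFiniteMeasure μ → ∀ η : ℝ, 0 < η → ∃ H ∈ C, ∫ z, H z ∂μ < η)
    {K : Set Z} (hK : IsCompact K) {ε : ℝ} (hε : 0 < ε) : ∃ H ∈ C, ∀ z ∈ K, H z < ε := by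
  by_contra hn
  push Not at hn
  have : CompactSpace K := isCompact_iff_compactSpace.1 hK
  let t : Set C(K, ℝ) := {p | ∃ H ∈ C, ∀ z : K, H z ≤ p z}
  have ht : Convex ℝ t := by
    rintro p ⟨H, h1, h2⟩ q ⟨H', h3, h4⟩ a b ha hb hab
    refine ⟨_, hC h1 h3 ha hb hab, fun z => ?_⟩
    simpa using add_le_add (mul_le_mul_of_nonneg_left (h2 z) ha)
      (mul_le_mul_of_nonneg_left (h4 z) hb)
  obtain ⟨f, u, h1, h2⟩ := geometric_hahn_banach_open (convex_ball (0 : C(K, ℝ)) ε)
    Metric.isOpen_ball ht (disjoint_left.2 fun p hp ⟨H, h1, h2⟩ => by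
      obtain ⟨z, h3, h4⟩ := hn H h1
      linarith [h2 ⟨z, h3⟩, p.apply_le_norm ⟨z, h3⟩, mem_ball_zero_iff.1 hp])
  have hu : 0 < u := by simpa using h1 0 (Metric.mem_ball_self hε)
  have hpos : ∀ p : C(K, ℝ), 0 ≤ p → 0 ≤ f p := fun p hp => by
    obtain ⟨H, h3, -⟩ := h 0 inferInstance 1 one_pos
    by_contra h4
    push Not at h4
    have h5 : ∀ s : ℝ, 0 ≤ s → u ≤ f (H.restrict K) + s * f p := fun s hs => by
      simpa using h2 (H.restrict K + s • p) ⟨H, h3, fun z => by
        simpa using mul_nonneg hs (hp z)⟩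
    have h6 := h5 0 le_rfl
    have h7 := h5 (f (H.restrict K) / -f p) (div_nonneg (by linarith) (by linarith))
    rw [div_neg, neg_mul, div_mul_cancel₀ _ h4.ne] at h7
    linarith
  let Λ : C_c(K, ℝ) →ₚ[ℝ] ℝ :=
    { toFun p := f p.toContinuousMap
      map_add' p q := map_add f _ _
      map_smul' c p := map_smul f c _
      monotone' p q hpq := by
        have := hpos (q.toContinuousMap - p.toContinuousMap) (sub_nonneg.2 hpq)
        simpa using this }
  obtain ⟨H, h3, h4⟩ := h ((RealRMK.rieszMeasure Λ).map Subtype.val) inferInstance u hu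
  rw [integral_map measurable_subtype_coe.aemeasurable H.continuous.aestronglyMeasurable] at h4
  have h5 := RealRMK.integral_rieszMeasure Λ ⟨H.restrict K, HasCompactSupport.of_compactSpace _⟩
  exact absurd (h4.trans_le (h2 (H.restrict K) ⟨H, h3, fun z => le_rfl⟩)) (not_lt.2 h5.ge)

lemma tree_ind {Q : Set (ℕ → ℕ) → Prop} (h1 : ∀ S l, (∀ k, Q (S ∩ {z | z l ≤ k})) → Q S)
    (h2 : ∀ K, IsCompact K → ∃ U, IsOpen U ∧ K ⊆ U ∧ ∀ S ⊆ U, Q S) : Q univ := by
  by_contra h0
  have step : ∀ S l, ¬Q S → ∃ k, ¬Q (S ∩ {z | z l ≤ k}) := fun S l h =>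
    not_forall.1 fun h' => h (h1 S l h')
  choose! k hk using step
  let S : ℕ → Set (ℕ → ℕ) := fun l => Nat.rec univ (fun l S => S ∩ {z | z l ≤ k S l}) l
  have hS : ∀ l, ¬Q (S l) := fun l => by
    induction l with
    | zero => exact h0
    | succ l ih => exact hk _ _ ih
  have hm : ∀ l, ∀ z ∈ S l, ∀ n < l, z n ≤ k (S n) n := fun l => by
    induction l with
    | zero => simp
    | succ l ih =>
      intro z hz n hn
      rcases (Nat.lt_succ_iff.1 hn).eq_or_lt with rfl | h
      exacts [hz.2, ih z hz.1 n h]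
  have hc : ∀ h : ℕ → ℕ, IsCompact (univ.pi fun n => Iic (h n)) := fun h =>
    isCompact_univ_pi fun n => (finite_Iic _).isCompact
  obtain ⟨U, hU, hK, hQ⟩ := h2 _ (hc fun n => k (S n) n)
  choose w hw hw' using fun l => not_subset.1 fun h => hS l (hQ _ h)
  obtain ⟨z, -, φ, hφ, hz⟩ := IsCompact.tendsto_subseq
    (hc fun n => k (S n) n + ∑ l ∈ Finset.range (n + 1), w l n) (x := w) fun l n _ => by
      rcases lt_or_ge n l with h | h
      · exact (hm l _ (hw l) n h).trans (Nat.le_add_right _ _)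
      · exact (Finset.single_le_sum (f := fun l => w l n) (fun _ _ => Nat.zero_le _)
          (Finset.mem_range.2 (Nat.lt_succ_of_le h))).trans (Nat.le_add_left _ _)
  obtain ⟨l, hl⟩ := (hz.eventually (hU.mem_nhds (hK fun n _ =>
    le_of_tendsto (tendsto_pi_nhds.1 hz n) ((eventually_gt_atTop n).mono fun l hl =>
      hm _ _ (hw _) n (hl.trans_le (hφ.id_le l)))))).exists
  exact hw' _ hl

lemma exists_dense_maps (X : Type*) [MeasurableSpace X] [MeasurableSpace.CountablyGenerated X] :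
    ∃ T : List ℕ → X → ℕ, (∀ L, Measurable (T L)) ∧ ∀ (ν : Measure X) [IsFiniteMeasure ν]
      (τ : X → ℕ), Measurable τ → ∀ η : ℝ, 0 < η → ∃ L, ν.real {x | T L x ≠ τ x} < η := by
  classical
  obtain ⟨A, hA⟩ := (countable_generateSetAlgebra
    (MeasurableSpace.countable_countableGeneratingSet (α := X))).exists_eq_range
      ⟨∅, generateSetAlgebra.empty⟩
  have hd : ∀ (ν : Measure X) [IsFiniteMeasure ν], ν.MeasureDense (range A) := fun ν _ =>
    hA ▸ Measure.MeasureDense.of_generateFrom_isSetAlgebra_finite ν isSetAlgebra_generateSetAlgebra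
      (by rw [generateFrom_generateSetAlgebra_eq,
        MeasurableSpace.generateFrom_countableGeneratingSet])
  refine ⟨fun L x => L.foldr (fun n r => if x ∈ A n then 0 else r + 1) 0, fun L => ?_,
    fun ν _ τ hτ η hη => ?_⟩
  · induction L with
    | nil => exact measurable_const
    | cons n L ih =>
      exact Measurable.ite ((hd 0).measurable _ ⟨n, rfl⟩) measurable_const (ih.add_const 1)
  have key : ∀ (r : ℕ) (τ : X → ℕ), Measurable τ → ∀ η : ℝ, 0 < η → ∃ L : List ℕ, ν.real
      {x | τ x ≤ r ∧ L.foldr (fun n r => if x ∈ A n then 0 else r + 1) 0 ≠ τ x} < η := by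
    intro r
    induction r with
    | zero =>
      refine fun τ _ η hη => ⟨[], lt_of_eq_of_lt ?_ hη⟩
      convert measureReal_empty (μ := ν)
      ext x
      simp +contextual
    | succ r ih =>
      intro τ hτ η hη
      obtain ⟨L, hL⟩ := ih (fun x => τ x - 1) (hτ.sub_const 1) _ (half_pos hη)
      obtain ⟨_, ⟨n, rfl⟩, hn⟩ := (hd ν).approx _ (hτ (measurableSet_singleton 0))
        (measure_ne_top _ _) _ (half_pos hη)
      refine ⟨n :: L, ((measureReal_mono fun x hx => ?_).trans (measureReal_union_le _ _)).trans_lt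
        ((add_lt_add (ENNReal.toReal_lt_of_lt_ofReal hn) hL).trans_eq (add_halves η))⟩
      obtain ⟨h1, h2⟩ := hx
      simp only [List.foldr_cons] at h2
      simp only [mem_union, mem_symmDiff, mem_preimage, mem_singleton_iff, mem_ofPred_eq]
      split_ifs at h2 with h
      · exact Or.inl (Or.inr ⟨h, h2.symm⟩)
      · by_cases h3 : τ x = 0
        exacts [Or.inl (Or.inl ⟨h3, h⟩), Or.inr ⟨by omega, by omega⟩]
  have h1 : Tendsto (fun r : ℕ => ν {x | r < τ x}) atTop (𝓝 0) := by
    have := tendsto_measure_iInter_atTop (μ := ν) (s := fun r : ℕ => {x | r < τ x})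
      (fun r => (measurableSet_lt measurable_const hτ).nullMeasurableSet)
      (fun a b hab x hx => lt_of_le_of_lt hab hx) ⟨0, measure_ne_top _ _⟩
    rwa [show ⋂ r : ℕ, {x | r < τ x} = ∅ from eq_empty_of_forall_notMem fun x hx =>
      lt_irrefl (τ x) (mem_iInter.1 hx (τ x)), measure_empty] at this
  obtain ⟨r, hr⟩ := (h1.eventually (gt_mem_nhds (ENNReal.ofReal_pos.2 (half_pos hη)))).exists
  obtain ⟨L, hL⟩ := key r τ hτ _ (half_pos hη)
  refine ⟨L, ((measureReal_mono fun x hx => ?_).trans (measureReal_union_le _ _)).trans_lt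
    ((add_lt_add (ENNReal.toReal_lt_of_lt_ofReal hr) hL).trans_eq (add_halves η))⟩
  exact (lt_or_ge r (τ x)).imp id fun h => ⟨h, hx⟩

end Pool.Agent.Lib.MP_4ec5c8_lc
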