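import Pool.Agent.Lib.MP_4ec5c8_lc.GapC
import Pool.Agent.Lib.MP_4ec5c8_lc.MeasA

/-!
Amenability on a conull set for every probability measure gives amenability.
-/

set_option autoImplicit false

open Set Filter Topology MeasureTheory

namespace Pool.Agent.Lib.MP_4ec5c8_lc

variable {X : Type*} [MeasurableSpace X] {E : X → X → Prop}

lemma Assign.sel {u : ℕ → X → X → ℝ} (hu : ∀ n, Assign E (u n)) {τ : X → ℕ} (hτ : Measurable τ) :
    Assign E fun x z => u (τ x) x z := by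
  have h := Assign.find hu (P := fun n x => τ x = n) (fun n => hτ (measurableSet_singleton n))
    fun x => ⟨τ x, rfl⟩
  simpa only [fun x => (Nat.find_eq_iff (⟨τ x, rfl⟩ : ∃ n, τ x = n)).2
    ⟨rfl, fun n hn => hn.ne'⟩] using h

lemma dev_tri (hE : Equivalence E) {u f : X → X → ℝ} (hu : Assign E u) (hf : Assign E f) {x y : X}
    (h : E x y) : dev E u x y ≤ ∑' z : {z // E x z}, |u x z - f x z| + dev E f x y +
      ∑' z : {z // E y z}, |u y z - f y z| := by
  have e : E y = E x := funext fun z => propext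
    ⟨fun h' => hE.trans h h', fun h' => hE.trans (hE.symm h) h'⟩
  rw [e]
  have a := (hu.sum x).summable
  have b := (hu.sum' hE h).summable
  have c := (hf.sum x).summable
  have d := (hf.sum' hE h).summable
  refine hasSum_le (fun z => ?_) (a.sub b).abs.hasSum
    (((a.sub c).abs.hasSum.add (c.sub d).abs.hasSum).add (b.sub d).abs.hasSum)
  linarith [abs_sub_le (u x z) (f x z) (u y z), abs_sub_le (f x z) (f y z) (u y z),
    abs_sub_comm (f y z) (u y z)]

variable [StandardBorelSpace X] {g : ℕ → X → X}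

lemma dev_meas (hE : Equivalence E) (g0 : ∀ m, Measurable (g m)) (g1 : ∀ m x, E x (g m x))
    (g2 : ∀ x y, E x y → ∃ m, g m x = y) {u : X → X → ℝ} (hu : Assign E u) :
    Measurable fun p : ℕ × X => dev E u p.2 (g p.1 p.2) := by
  refine measurable_from_prod_countable_right fun m =>
    measurable_tsum_class g0 g1 g2 (φ := fun x z => |u x z - u (g m x) z|)
      fun k => Measurable.abs (Measurable.sub ?_ ?_)
  · exact hu.meas.comp (f := fun x => (⟨(x, g k x), g1 k x⟩ : {p : X × X // E p.1 p.2}))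
      (measurable_id.prodMk (g0 k)).subtype_mk
  · exact hu.meas.comp (f := fun x => (⟨(g m x, g k x), hE.trans (hE.symm (g1 m x)) (g1 k x)⟩ :
      {p : X × X // E p.1 p.2})) ((g0 m).prodMk (g0 k)).subtype_mk

lemma exists_shapes (g0 : ∀ m, Measurable (g m)) (g1 : ∀ m x, E x (g m x))
    (g2 : ∀ x y, E x y → ∃ m, g m x = y) :
    ∃ s : ℕ → X → X → ℝ, (∀ k, Assign E (s k)) ∧ ∀ f, Assign E f → ∀ x, ∀ η : ℝ, 0 < η →
      ∃ k, ∑' z : {z // E x z}, |s k x z - f x z| < η := by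
  classical
  let P : Set (ℕ → ℝ) := {τ | (∀ k, 0 ≤ τ k) ∧ HasSum τ 1}
  have : Nonempty P := ⟨⟨_, fun k => by positivity, hasSum_geometric_two' 1⟩⟩
  choose s hs hs' using fun k => weight_assign (TopologicalSpace.denseSeq P k).2.1
    (TopologicalSpace.denseSeq P k).2.2 g0 g1
  refine ⟨s, hs, fun f hf x η hη => ?_⟩
  choose i hi using fun z : {z // E x z} => g2 x z z.2
  have hinj : Function.Injective i := fun z z' h => Subtype.ext (by rw [← hi z, ← hi z', h])
  obtain ⟨F, hF⟩ := ((hf.sum x).eventually (lt_mem_nhds (show 1 - η / 2 < 1 by linarith))).exists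
  have h0 : ∀ k, 0 ≤ Function.extend i (fun z => f x z) 0 k := fun k => by
    rw [Function.extend_def]
    split_ifs with h
    exacts [hf.nonneg _ _ h.choose.2, le_rfl]
  obtain ⟨k, hk⟩ := (TopologicalSpace.denseRange_denseSeq P).exists_mem_open
    (s := {τ | 1 - η / 2 < ∑ z ∈ F, min (τ.1 (i z)) (f x z)})
    (isOpen_lt continuous_const (continuous_finsetSum _ fun z _ =>
      ((continuous_apply _).comp continuous_subtype_val).min continuous_const))
    ⟨⟨_, h0, (hasSum_extend_zero hinj).2 (hf.sum x)⟩, by simpa [hinj.extend_apply] using hF⟩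
  refine ⟨k, (l1_le (fun z => (hs k).nonneg _ _ z.2) (fun z => hf.nonneg _ _ z.2) ((hs k).sum x)
    (hf.sum x) F (s := fun z => min ((TopologicalSpace.denseSeq P k).1 (i z)) (f x z)) fun z _ =>
      ⟨(min_le_left _ _).trans ((hs' k x _).trans_eq (by rw [hi])), min_le_right _ _⟩).trans_lt ?_⟩
  have hk' : 1 - η / 2 < _ := hk
  linarith

lemma exists_family (hE : Equivalence E) (g0 : ∀ m, Measurable (g m)) (g1 : ∀ m x, E x (g m x))
    (g2 : ∀ x y, E x y → ∃ m, g m x = y)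
    (H : ∀ ν : Measure X, IsProbabilityMeasure ν → ∃ B : Set X, (∀ᵐ x ∂ν, x ∈ B) ∧
      ∃ f : ℕ → X → X → ℝ, (∀ n, Assign E (f n)) ∧
        ∀ x ∈ B, ∀ y ∈ B, E x y → Tendsto (fun n => dev E (f n) x y) atTop (𝓝 0)) :
    ∃ u : List ℕ → X → X → ℝ, (∀ L, Assign E (u L)) ∧ ∀ μ : Measure (ℕ × X), IsFiniteMeasure μ →
      ∀ η : ℝ, 0 < η → ∃ L, ∫ p, dev E (u L) p.2 (g p.1 p.2) ∂μ < η := by
  classical
  obtain ⟨s, hs, hs'⟩ := exists_shapes g0 g1 g2
  obtain ⟨T, hT, hT'⟩ := exists_dense_maps X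
  refine ⟨fun L x z => s (T L x) x z, fun L => Assign.sel hs (hT L), fun μ _ η hη => ?_⟩
  rcases eq_zero_or_neZero μ with rfl | h0
  · exact ⟨[], by simpa using hη⟩
  have hG : Measurable fun p : ℕ × X => g p.1 p.2 := measurable_from_prod_countable_right g0
  let ν : Measure X := μ.map Prod.snd + μ.map fun p => g p.1 p.2
  have : NeZero ν := ⟨fun h => h0.out ((Measure.map_eq_zero_iff measurable_snd.aemeasurable).1
    (le_antisymm ((Measure.le_add_right le_rfl).trans_eq h) (Measure.zero_le _)))⟩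
  obtain ⟨B, hB, f, hf, hf'⟩ := H ((ν univ)⁻¹ • ν) inferInstance
  replace hB := ae_add_measure_iff.1 ((Measure.absolutelyContinuous_smul
    (ENNReal.inv_ne_zero.2 (measure_ne_top _ _))).ae_le hB)
  have hI : ∀ u, Assign E u → Integrable (fun p : ℕ × X => dev E u p.2 (g p.1 p.2)) μ :=
    fun u hu => Integrable.of_bound (dev_meas hE g0 g1 g2 hu).aestronglyMeasurable 2
      (ae_of_all _ fun p => (abs_of_nonneg (dev_nonneg _ _ _)).trans_le (hu.dev_le_two hE (g1 _ _)))
  have h1 := tendsto_integral_of_dominated_convergence (μ := μ) (f := fun _ => (0 : ℝ))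
    (F := fun n p => dev E (f n) p.2 (g p.1 p.2)) (fun _ => 2)
    (fun n => (hI _ (hf n)).aestronglyMeasurable) (integrable_const _)
    (fun n => ae_of_all _ fun p =>
      (abs_of_nonneg (dev_nonneg _ _ _)).trans_le ((hf n).dev_le_two hE (g1 _ _)))
    (by
      filter_upwards [ae_of_ae_map measurable_snd.aemeasurable hB.1,
        ae_of_ae_map hG.aemeasurable hB.2] with p a b using hf' _ a _ b (g1 _ _))
  rw [integral_zero] at h1
  obtain ⟨n, hn⟩ := (h1.eventually (gt_mem_nhds (show 0 < η / 4 by positivity))).exists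
  obtain ⟨δ, hδ, hδ'⟩ : ∃ δ : ℝ, 0 < δ ∧ μ.real univ * (2 * δ) ≤ η / 4 :=
    ⟨η / 8 / (μ.real univ + 1), by positivity, by
      rw [← mul_div_assoc, ← mul_div_assoc, div_le_iff₀ (by positivity)]
      nlinarith⟩
  have hτ : Measurable fun x => Nat.find (hs' _ (hf n) x δ hδ) := measurable_find _ fun k =>
    measurableSet_lt (measurable_tsum_class g0 g1 g2 (φ := fun x z => |s k x z - f n x z|) fun m =>
      (((hs k).meas.sub (hf n).meas).comp
        (f := fun x => (⟨(x, g m x), g1 m x⟩ : {p : X × X // E p.1 p.2}))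
        (measurable_id.prodMk (g0 m)).subtype_mk).abs) measurable_const
  obtain ⟨L, hL⟩ := hT' ν _ hτ (η / 4) (by positivity)
  have hS := (measurableSet_eq_fun (hT L) hτ).compl
  set S : Set X := {x | T L x = Nat.find (hs' _ (hf n) x δ hδ)}ᶜ
  have h2 : ∀ x ∉ S, ∑' z : {z // E x z}, |s (T L x) x z - f n x z| < δ := fun x hx => by
    rw [show T L x = _ from not_not.1 hx]
    exact Nat.find_spec (hs' _ (hf n) x δ hδ)
  let W : Set (ℕ × X) := Prod.snd ⁻¹' S ∪ (fun p => g p.1 p.2) ⁻¹' S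
  have hW : MeasurableSet W := (measurable_snd hS).union (hG hS)
  have h3 : μ.real W < η / 4 := (measureReal_union_le _ _).trans_lt (lt_of_eq_of_lt (by
    rw [← map_measureReal_apply measurable_snd hS, ← map_measureReal_apply hG hS,
      ← measureReal_add_apply]
    rfl) hL)
  have h4 := Assign.sel hs (hT L)
  have h5 := (integrable_const (μ := μ) (2 : ℝ)).indicator hW
  refine ⟨L, (integral_mono (hI _ h4) (((hI _ (hf n)).add (integrable_const (2 * δ))).add h5)
    fun p => ?_).trans_lt ?_⟩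
  · simp only [Pi.add_apply]
    by_cases hp : p ∈ W
    · rw [indicator_of_mem hp]
      linarith [h4.dev_le_two hE (g1 p.1 p.2), dev_nonneg (E := E) (f n) p.2 (g p.1 p.2)]
    · rw [indicator_of_notMem hp]
      linarith [dev_tri hE h4 (hf n) (g1 p.1 p.2), h2 _ fun h => hp (Or.inl h),
        h2 _ fun h => hp (Or.inr h)]
  · rw [integral_add' ((hI _ (hf n)).add (integrable_const _)) h5,
      integral_add' (hI _ (hf n)) (integrable_const _), integral_indicator_const _ hW,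
      integral_const, smul_eq_mul, smul_eq_mul]
    linarith

theorem amenable_of_ae (hE : IsCBER E)
    (H : ∀ ν : Measure X, IsProbabilityMeasure ν → ∃ B : Set X, (∀ᵐ x ∂ν, x ∈ B) ∧
      ∃ f : ℕ → X → X → ℝ, (∀ n, Assign E (f n)) ∧
        ∀ x ∈ B, ∀ y ∈ B, E x y → Tendsto (fun n => dev E (f n) x y) atTop (𝓝 0)) :
    IsAmenableAlong E cofinite := by
  rcases isEmpty_or_nonempty X with hX | hX
  · exact ⟨fun _ _ _ => 0, fun _ => measurable_const, fun _ x => isEmptyElim x,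
      fun _ x => isEmptyElim x, fun x => isEmptyElim x⟩
  obtain ⟨g, g0, g1, g2⟩ := exists_enum hE.1.refl hE.2.1 hE.2.2
  obtain ⟨u, hu, hu'⟩ := exists_family hE.1 g0 g1 g2 H
  obtain ⟨π, π0, π1, π2⟩ : ∃ π : (ℕ → ℕ) → ℕ × X, Measurable π ∧ Function.Surjective π ∧
      ∀ L, Continuous fun z => dev E (u L) (π z).2 (g (π z).1 (π z).2) := by
    let := upgradeStandardBorel (ℕ × X)
    have hm : ∀ π : (ℕ → ℕ) → ℕ × X, Continuous π → Measurable π := fun π h => h.measurable
    obtain ⟨t, h1, h2, h3⟩ := (measurable_pi_lambda _ fun L =>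
      dev_meas hE.1 g0 g1 g2 (hu L)).exists_continuous
    obtain ⟨π, h4, h5⟩ := @PolishSpace.exists_nat_nat_continuous_surjective _ t h3 _
    exact ⟨π, hm π (continuous_le_rng h1 h4), h5, fun L =>
      (continuous_apply L).comp (@Continuous.comp _ _ _ _ t _ _ _ h2 h4)⟩
  let C : Set C(ℕ → ℕ, ℝ) :=
    {H | ∃ w, Assign E w ∧ ∀ z, dev E w (π z).2 (g (π z).1 (π z).2) ≤ H z}
  have hC : Convex ℝ C := by
    rintro p ⟨w, h1, h2⟩ q ⟨w', h3, h4⟩ a b ha hb hab
    obtain rfl : b = 1 - a := by linarith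
    refine ⟨_, h1.mix h3 (measurable_const (a := a)) fun _ => ⟨ha, by linarith⟩, fun z => ?_⟩
    refine (dev_mix_le hE.1 h1 h3 (p := fun _ => a) (fun _ => ⟨ha, by linarith⟩) (g1 _ _)).trans ?_
    simpa using add_le_add (mul_le_mul_of_nonneg_left (h2 z) ha)
      (mul_le_mul_of_nonneg_left (h4 z) hb)
  have key : ∀ ε : ℝ, 0 < ε → ∃ v : ℕ → X → X → ℝ, (∀ j, Assign E (v j)) ∧
      ∀ z ∈ (univ : Set (ℕ → ℕ)), ∀ η : ℝ, 0 < η →
        ∀ᶠ j in atTop, dev E (v j) (π z).2 (g (π z).1 (π z).2) ≤ ε + η := fun ε hε => by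
    refine tree_ind (Q := fun S => ∃ v : ℕ → X → X → ℝ, (∀ j, Assign E (v j)) ∧
      ∀ z ∈ S, ∀ η : ℝ, 0 < η →
        ∀ᶠ j in atTop, dev E (v j) (π z).2 (g (π z).1 (π z).2) ≤ ε + η) (fun S l h => ?_)
      fun K hK => ?_
    · choose v h1 h2 using h
      obtain ⟨w, h3, h4⟩ := two_step hE h1
      refine ⟨w, h3, fun z hz η hη => ?_⟩
      simpa only [add_assoc, add_halves] using h4 _ _ (g1 _ _) _ ((eventually_ge_atTop (z l)).mono
        fun k hk => h2 k z ⟨hz, hk⟩ _ (half_pos hη)) _ (half_pos hη)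
    · obtain ⟨p, ⟨w, h1, h2⟩, h3⟩ := compact_small hC (fun μ _ η hη => by
        obtain ⟨L, hL⟩ := hu' (μ.map π) inferInstance η hη
        rw [integral_map π0.aemeasurable
          (dev_meas hE.1 g0 g1 g2 (hu L)).aestronglyMeasurable] at hL
        exact ⟨⟨_, π2 L⟩, ⟨_, hu L, fun _ => le_rfl⟩, hL⟩) hK hε
      exact ⟨{z | p z < ε}, isOpen_lt p.continuous continuous_const, h3, fun S hS =>
        ⟨fun _ => w, fun _ => h1, fun z hz η hη => Eventually.of_forall fun _ => by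
          linarith [h2 z, show p z < ε from hS hz]⟩⟩
  choose v h1 h2 using fun i : ℕ => key (1 / (i + 1)) (by positivity)
  obtain ⟨w, h3, h4⟩ := two_step hE h1
  refine ⟨w, fun n => (h3 n).meas, fun n => (h3 n).nonneg, fun n => (h3 n).sum, fun x y hxy => ?_⟩
  rw [Nat.cofinite_eq_atTop]
  refine tendsto_order.2 ⟨fun a ha => Eventually.of_forall fun n =>
    ha.trans_le (dev_nonneg _ _ _), fun a ha => ?_⟩
  obtain ⟨m, rfl⟩ := g2 x y hxy
  obtain ⟨z, hz⟩ := π1 (m, x)
  have h5 : 0 < a / 4 := by positivity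
  filter_upwards [h4 _ _ hxy (a / 2) ((tendsto_one_div_add_atTop_nhds_zero_nat.eventually
    (gt_mem_nhds h5)).mono fun i hi => (h2 i z trivial _ h5).mono fun j hj => by
      rw [hz] at hj
      linarith) _ h5] with j hj
  exact lt_of_le_of_lt hj (by linarith)

lemma extend_sub {B : Set X} (hB : MeasurableSet B) {f : B → B → ℝ}
    (hf : Assign (fun x y : B => E x y) f) (hE : Equivalence E) :
    ∃ u : X → X → ℝ, Assign E u ∧ ∀ x y : B, dev E u x y = dev (fun x y : B => E x y) f x y := by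
  classical
  let u : X → X → ℝ := fun x z => if h : x ∈ B ∧ z ∈ B then f ⟨x, h.1⟩ ⟨z, h.2⟩ else
    if x ∉ B ∧ z = x then 1 else 0
  let i : ∀ x : B, {z : B // E x z} → {z // E x z} := fun x z => ⟨z.1, z.2⟩
  have hi : ∀ x, Function.Injective (i x) := fun x z z' h =>
    Subtype.ext (Subtype.ext (congrArg (fun w : {z // E x z} => w.1) h))
  have h0 : ∀ (x y : B) (z : {z // E x z}), z ∉ range (i x) → u y z = 0 := fun x y z hz => by
    have : z.1 ∉ B := fun h => hz ⟨⟨⟨z, h⟩, z.2⟩, rfl⟩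
    simp [u, this]
  have h1 : ∀ y z : B, u y z = f y z := fun y z => by simp [u]
  have m1 : Measurable fun p : {p : X × X // E p.1 p.2} => p.1.1 :=
    measurable_fst.comp measurable_subtype_coe
  have m2 : Measurable fun p : {p : X × X // E p.1 p.2} => p.1.2 :=
    measurable_snd.comp measurable_subtype_coe
  refine ⟨u, ⟨?_, fun x y h => ?_, fun x => ?_⟩, fun x y => ?_⟩
  · refine Measurable.dite (s := {p : {p : X × X // E p.1 p.2} | p.1.1 ∈ B ∧ p.1.2 ∈ B})
      (f := fun p => f ⟨p.1.1.1, p.2.1⟩ ⟨p.1.1.2, p.2.2⟩)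
      (g := fun p => if p.1.1.1 ∉ B ∧ p.1.1.2 = p.1.1.1 then 1 else 0) ?_ ?_
      ((m1 hB).inter (m2 hB))
    · exact hf.meas.comp (f := fun p : {p : {p : X × X // E p.1 p.2} | p.1.1 ∈ B ∧ p.1.2 ∈ B} =>
        (⟨(⟨p.1.1.1, p.2.1⟩, ⟨p.1.1.2, p.2.2⟩), p.1.2⟩ : {p : B × B // E p.1 p.2}))
        ((m1.comp measurable_subtype_coe).subtype_mk.prodMk
          (m2.comp measurable_subtype_coe).subtype_mk).subtype_mk
    · exact Measurable.ite (measurable_subtype_coe
        ((m1 hB).compl.inter (measurableSet_eq_fun m2 m1))) measurable_const measurable_const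
  · simp only [u]
    split_ifs
    exacts [hf.nonneg _ _ h, zero_le_one, le_rfl]
  · by_cases hx : x ∈ B
    · exact ((hi ⟨x, hx⟩).hasSum_iff (h0 ⟨x, hx⟩ ⟨x, hx⟩)).1
        (hasSum_of_eq (hf.sum ⟨x, hx⟩) fun z => h1 ⟨x, hx⟩ z.1)
    · exact hasSum_of_eq (hasSum_ite_eq (⟨x, hE.refl x⟩ : {z // E x z}) (1 : ℝ)) fun z => by
        simp [u, hx, Subtype.ext_iff]
  · rw [dev, ← (hi x).tsum_eq fun z hz => by_contra fun h => hz (by simp [h0 x x z h, h0 x y z h])]
    exact tsum_congr fun z => by rw [← h1, ← h1]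

theorem meas_amenable (e : ℕ × ℕ ≃ ℕ) {α β : Ordinal.{0}} (hα : 1 ≤ α) (hα' : α < Ordinal.omega 1)
    (hβ : 1 ≤ β) (hβ' : β < Ordinal.omega 1) (hE : IsCBER E) :
    IsAlphaAmenable e α E ↔ ∀ μ : Measure X, IsProbabilityMeasure μ →
      ∃ B : Set X, MeasurableSet B ∧ μ B = 1 ∧ IsAlphaAmenable e β fun x y : B => E x y := by
  constructor
  · rintro ⟨G, hG, h⟩ μ _
    obtain ⟨F, hF⟩ := exists_isFr e β hβ hβ'
    obtain ⟨f, h1, h2, h3, h4⟩ := isFr_amenable hF (amenable_of_isFr hE hG h)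
    let i : ∀ x : X, {z : (univ : Set X) // E x z} ≃ {z // E x z} := fun x =>
      ⟨fun z => ⟨z.1, z.2⟩, fun z => ⟨⟨z.1, trivial⟩, z.2⟩, fun _ => rfl, fun _ => rfl⟩
    refine ⟨univ, MeasurableSet.univ, measure_univ, F, hF, fun n x y => f n x y, fun n => ?_,
      fun n x y => h2 n x y, fun n x => (i x).hasSum_iff.2 (h3 n x), fun x y hxy => ?_⟩
    · exact (h1 n).comp (f := fun p : {p : ↥(univ : Set X) × ↥(univ : Set X) // E p.1 p.2} =>
        (⟨(p.1.1, p.1.2), p.2⟩ : {p : X × X // E p.1 p.2})) ((measurable_subtype_coe.prodMap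
          measurable_subtype_coe).comp measurable_subtype_coe).subtype_mk
    · exact (h4 x y hxy).congr fun n => ((i x).tsum_eq fun z => |f n x z - f n y z|).symm
  · intro H
    obtain ⟨G, hG⟩ := exists_isFr e α hα hα'
    refine ⟨G, hG, isFr_amenable hG (amenable_of_ae hE fun ν _ => ?_)⟩
    obtain ⟨B, hB, h1, F, hF, h⟩ := H ν inferInstance
    have := hB.standardBorel
    obtain ⟨f, a1, a2, a3, a4⟩ := amenable_of_isFr (E := fun x y : B => E x y)
      ⟨⟨fun _ => hE.1.refl _, hE.1.symm, hE.1.trans⟩,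
        (measurable_subtype_coe.prodMap measurable_subtype_coe) hE.2.1,
        fun x => (hE.2.2 x).preimage Subtype.val_injective⟩ hF h
    choose u hu hu' using fun n => extend_sub hB ⟨a1 n, a2 n, a3 n⟩ hE.1
    refine ⟨B, (mem_ae_iff_prob_eq_one hB).2 h1, u, hu, fun x hx y hy hxy => ?_⟩
    rw [← Nat.cofinite_eq_atTop]
    exact (a4 ⟨x, hx⟩ ⟨y, hy⟩ hxy).congr fun n => (hu' n ⟨x, hx⟩ ⟨y, hy⟩).symm

end Pool.Agent.Lib.MP_4ec5c8_lc
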